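import Pool.Agent.GPM.FinA
import Pool.Agent.HGC.Proj

/-! Module HMG: affine schemes as projective schemes -/

set_option autoImplicit false

open scoped BigOperators

namespace Pool.Agent.GPM

open Pool.Agent.HGC Pool.Agent.HGM

private abbrev HmgI (n : ℕ) : Type := (Fin n ⊕ Fin n) ⊕ Unit

private noncomputable def HmgQ {n m : ℕ} (P : Fin m → MvPolynomial (Fin n) ℤ) :
    Fin n ⊕ Fin m → MvPolynomial (HmgI n) ℤ
  | .inl j => MvPolynomial.X (Sum.inl (Sum.inl j)) ^ 2 -
      MvPolynomial.X (Sum.inr ()) * MvPolynomial.X (Sum.inl (Sum.inr j))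
  | .inr i => ∑ d ∈ Finset.range ((P i).totalDegree + 1),
      MvPolynomial.X (Sum.inr ()) ^ ((P i).totalDegree + 1 - d) *
        MvPolynomial.rename (fun j => Sum.inl (Sum.inl j))
          (MvPolynomial.homogeneousComponent d (P i))

private theorem Hmg_hom {n m : ℕ} (P : Fin m → MvPolynomial (Fin n) ℤ) (k : Fin n ⊕ Fin m) :
    ∃ d, 1 ≤ d ∧ (HmgQ P k).IsHomogeneous d := by
  rcases k with j | i
  · refine ⟨2, by norm_num, ?_⟩
    unfold HmgQ
    refine MvPolynomial.IsHomogeneous.sub ?_ ?_
    · have h := (MvPolynomial.isHomogeneous_X ℤ (Sum.inl (Sum.inl j) : HmgI n)).pow 2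
      simpa using h
    · exact (MvPolynomial.isHomogeneous_X ℤ (Sum.inr () : HmgI n)).mul
        (MvPolynomial.isHomogeneous_X ℤ (Sum.inl (Sum.inr j) : HmgI n))
  · refine ⟨(P i).totalDegree + 1, by omega, ?_⟩
    unfold HmgQ
    refine MvPolynomial.IsHomogeneous.sum _ _ _ ?_
    intro d hd
    rw [Finset.mem_range] at hd
    have h1 := (MvPolynomial.isHomogeneous_X ℤ (Sum.inr () : HmgI n)).pow
      ((P i).totalDegree + 1 - d)
    have h2 := (MvPolynomial.homogeneousComponent_isHomogeneous d (P i)).rename_isHomogeneous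
      (f := fun j => (Sum.inl (Sum.inl j) : HmgI n))
    have h3 := h1.mul h2
    have h4 : 1 * ((P i).totalDegree + 1 - d) + d = (P i).totalDegree + 1 := by omega
    rw [h4] at h3
    exact h3

private theorem Hmg_evl {n m : ℕ} (P : Fin m → MvPolynomial (Fin n) ℤ) {K : Type} [Field K]
    (z : HmgI n → K) (j : Fin n) : MvPolynomial.aeval z (HmgQ P (.inl j)) =
      z (Sum.inl (Sum.inl j)) ^ 2 - z (Sum.inr ()) * z (Sum.inl (Sum.inr j)) := by
  unfold HmgQ
  simp

private theorem Hmg_evr {n m : ℕ} (P : Fin m → MvPolynomial (Fin n) ℤ) {K : Type} [Field K]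
    (z : HmgI n → K) (i : Fin m) : MvPolynomial.aeval z (HmgQ P (.inr i)) =
      ∑ d ∈ Finset.range ((P i).totalDegree + 1), z (Sum.inr ()) ^ ((P i).totalDegree + 1 - d) *
        MvPolynomial.aeval (fun j => z (Sum.inl (Sum.inl j)))
          (MvPolynomial.homogeneousComponent d (P i)) := by
  unfold HmgQ
  rw [map_sum]
  refine Finset.sum_congr rfl fun d _ => ?_
  rw [map_mul, map_pow, MvPolynomial.aeval_X, MvPolynomial.aeval_rename]
  rfl

private theorem Hmg_scale {n m : ℕ} (P : Fin m → MvPolynomial (Fin n) ℤ) {K : Type} [Field K]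
    (z : HmgI n → K) (t : K) (x : Fin n → K) (ht : z (Sum.inr ()) = t)
    (hx : ∀ j, z (Sum.inl (Sum.inl j)) = t * x j) (i : Fin m) :
    MvPolynomial.aeval z (HmgQ P (.inr i)) =
      t ^ ((P i).totalDegree + 1) * MvPolynomial.aeval x (P i) := by
  rw [Hmg_evr]
  have h1 : (fun j => z (Sum.inl (Sum.inl j))) = t • x := funext fun j => hx j
  rw [h1, ht]
  have h2 : MvPolynomial.aeval x (P i) = ∑ d ∈ Finset.range ((P i).totalDegree + 1),
      MvPolynomial.aeval x (MvPolynomial.homogeneousComponent d (P i)) := by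
    rw [← map_sum, MvPolynomial.sum_homogeneousComponent]
  rw [h2, Finset.mul_sum]
  refine Finset.sum_congr rfl fun d hd => ?_
  rw [Finset.mem_range] at hd
  rw [aeval_smul_of_isHomogeneous (MvPolynomial.homogeneousComponent_isHomogeneous d (P i)),
    ← mul_assoc, ← pow_add]
  congr 2
  omega

private theorem Hmg_card {n m : ℕ} (P : Fin m → MvPolynomial (Fin n) ℤ) (K : Type) [Field K]
    [Finite K] : Nat.card {z : HmgI n → K // ∀ k, MvPolynomial.aeval z (HmgQ P k) = 0} =
      Nat.card K ^ n + (Nat.card K - 1) * affCount P K := by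
  classical
  let F : (Fin n → K) ⊕ (Kˣ × {x : Fin n → K // ∀ i, MvPolynomial.aeval x (P i) = 0}) →
      {z : HmgI n → K // ∀ k, MvPolynomial.aeval z (HmgQ P k) = 0} := fun o =>
    match o with
    | .inl u => ⟨Sum.elim (Sum.elim (fun _ => 0) u) (fun _ => 0), by
        rintro (j | i)
        · rw [Hmg_evl]
          simp
        · rw [Hmg_evr]
          refine Finset.sum_eq_zero fun d hd => ?_
          rw [Finset.mem_range] at hd
          simp only [Sum.elim_inr]
          rw [zero_pow (by omega), zero_mul]⟩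
    | .inr tx => ⟨Sum.elim (Sum.elim (fun j => (tx.1 : K) * tx.2.1 j)
          (fun j => (tx.1 : K) * tx.2.1 j ^ 2)) (fun _ => (tx.1 : K)), by
        rintro (j | i)
        · rw [Hmg_evl]
          simp only [Sum.elim_inl, Sum.elim_inr]
          ring
        · rw [Hmg_scale P _ (tx.1 : K) tx.2.1 rfl (fun _ => rfl), tx.2.2 i, mul_zero]⟩
  have hF : Function.Bijective F := by
    constructor
    · rintro (u | ⟨t, x, hx⟩) (u' | ⟨t', x', hx'⟩) h
      · have h1 := congrArg Subtype.val h
        congr 1
        funext j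
        exact congrFun h1 (Sum.inl (Sum.inr j))
      · exfalso
        have h1 := congrFun (congrArg Subtype.val h) (Sum.inr ())
        exact t'.ne_zero h1.symm
      · exfalso
        have h1 := congrFun (congrArg Subtype.val h) (Sum.inr ())
        exact t.ne_zero h1
      · have h1 := congrFun (congrArg Subtype.val h) (Sum.inr ())
        have h2 : t = t' := Units.ext h1
        subst h2
        have h3 : x = x' := by
          funext j
          have h4 := congrFun (congrArg Subtype.val h) (Sum.inl (Sum.inl j))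
          exact mul_left_cancel₀ t.ne_zero h4
        subst h3
        rfl
    · rintro ⟨z, hz⟩
      by_cases ht : z (Sum.inr ()) = 0
      · refine ⟨.inl (fun j => z (Sum.inl (Sum.inr j))), ?_⟩
        apply Subtype.ext
        funext k
        rcases k with (j | j) | k
        · have h1 := hz (.inl j)
          rw [Hmg_evl, ht, zero_mul, sub_zero] at h1
          exact (pow_eq_zero_iff (by norm_num) |>.1 h1).symm
        · rfl
        · exact ht.symm
      · have hx : ∀ i, MvPolynomial.aeval (fun j => z (Sum.inl (Sum.inl j)) / z (Sum.inr ())) (P i) = 0 := by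
          intro i
          have h1 := hz (.inr i)
          rw [Hmg_scale P z (z (Sum.inr ())) (fun j => z (Sum.inl (Sum.inl j)) / z (Sum.inr ())) rfl
            (fun j => by field_simp)] at h1
          rcases mul_eq_zero.1 h1 with h2 | h2
          · exact absurd h2 (pow_ne_zero _ ht)
          · exact h2
        refine ⟨.inr (Units.mk0 _ ht, ⟨fun j => z (Sum.inl (Sum.inl j)) / z (Sum.inr ()), hx⟩), ?_⟩
        apply Subtype.ext
        funext k
        rcases k with (j | j) | k
        · change z (Sum.inr ()) * (z (Sum.inl (Sum.inl j)) / z (Sum.inr ())) = _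
          field_simp
        · change z (Sum.inr ()) * (z (Sum.inl (Sum.inl j)) / z (Sum.inr ())) ^ 2 = _
          have h1 := hz (.inl j)
          rw [Hmg_evl, sub_eq_zero] at h1
          rw [div_pow, h1]
          field_simp
        · rfl
  rw [← Nat.card_eq_of_bijective F hF, Nat.card_sum, Nat.card_prod, Nat.card_units, Nat.card_fun]
  simp [affCount]

/-- Every affine scheme is a projective scheme up to the points of a projective space.
PROOF: homogeneous variables `x_j, u_j` (`j : Fin n`) and `t` (index type `(Fin n ⊕ Fin n) ⊕ Unit` reindexed by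
`Fin N`); equations `x_j ^ 2 - t u_j` (degree 2) and
`P_i^h = ∑_(d ≤ D) t ^ (D + 1 - d) * (homogeneousComponent d P_i)(x)`, `D = totalDegree`, of degree `D + 1`.
Count the nonzero solutions, which are `(q - 1)` times the projective points (`card_cone` in
`Pool/Agent/HGC/Proj.lean`, used in the same way in `Pool/Agent/HGM/Exact.lean`): for `t ≠ 0` (`q - 1` values)
dividing by `t` gives a solution with `t = 1`, i.e. `u_j = x_j ^ 2`, `P_i(x) = 0`; for `t = 0`: `x = 0` and `u ≠ 0`
is arbitrary, `q ^ n - 1 = (q - 1) [n]_q` points. -/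
theorem aff_proj {n m : ℕ} (P : Fin m → MvPolynomial (Fin n) ℤ) :
    ∃ (N M : ℕ) (Q : Fin M → MvPolynomial (Fin N) ℤ),
      (∀ i, ∃ d, 1 ≤ d ∧ (Q i).IsHomogeneous d) ∧ ∀ (K : Type) [Field K] [Finite K],
        projCount Q K = affCount P K + qn (Nat.card K) n := by
  classical
  let e := Fintype.equivFin (HmgI n)
  let e' := Fintype.equivFin (Fin n ⊕ Fin m)
  let Q : Fin (Fintype.card (Fin n ⊕ Fin m)) → MvPolynomial (Fin (Fintype.card (HmgI n))) ℤ :=
    fun i => MvPolynomial.rename e (HmgQ P (e'.symm i))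
  have hQ : ∀ i, ∃ d, 1 ≤ d ∧ (Q i).IsHomogeneous d := by
    intro i
    obtain ⟨d, hd, h⟩ := Hmg_hom P (e'.symm i)
    exact ⟨d, hd, h.rename_isHomogeneous⟩
  refine ⟨_, _, Q, hQ, ?_⟩
  intro K _ _
  choose d hd hom using hQ
  have h1 := HGC.aff_proj Q d hd hom K
  have h2 : affCount Q K = Nat.card {z : HmgI n → K // ∀ k, MvPolynomial.aeval z (HmgQ P k) = 0} := by
    unfold affCount
    refine Nat.card_congr (Equiv.subtypeEquiv (e.arrowCongr (Equiv.refl K)).symm ?_)
    intro x
    constructor
    · intro h k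
      have h3 := h (e' k)
      simp only [Q, Equiv.symm_apply_apply, MvPolynomial.aeval_rename] at h3
      exact h3
    · intro h i
      have h3 := h (e'.symm i)
      simp only [Q, MvPolynomial.aeval_rename]
      exact h3
  rw [h2, Hmg_card] at h1
  have hq : 1 < Nat.card K := Finite.one_lt_card
  have h3 : ((Nat.card K : ℤ) - 1) * (qn (Nat.card K) n : ℤ) = (Nat.card K : ℤ) ^ n - 1 := by
    unfold qn
    push_cast
    exact mul_geom_sum _ _
  have h4 : ((Nat.card K : ℤ) - 1) * (projCount Q K : ℤ) =
      ((Nat.card K : ℤ) - 1) * ((affCount P K : ℤ) + (qn (Nat.card K) n : ℤ)) := by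
    rw [mul_add, h3]
    push_cast [Nat.cast_sub hq.le] at h1
    linarith
  have h5 : ((Nat.card K : ℤ) - 1) ≠ 0 := by omega
  exact_mod_cast mul_left_cancel₀ h5 h4

end Pool.Agent.GPM
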