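import Pool.Agent.GPM.WCl
import Pool.Agent.GPM.Hmg
import Pool.Agent.HGM.Exact
import Pool.Agent.HGM.Spec

/-!
# Weight parts of the functions in the class `InW`
-/

set_option autoImplicit false

open scoped BigOperators

namespace Pool.Agent.GPM

open Pool.Agent.HGC Pool.Agent.HGM Pool.Agent.HGC.LocWAux

theorem growth' {c : ℂ →₀ ℤ} {R C0 : ℝ} (hRpos : 0 < R)
    (h : ∀ r, 1 ≤ r → ‖ev c r‖ ≤ C0 * R ^ r) {a : ℂ} (ha : R < ‖a‖) : c a = 0 := by
  obtain ⟨Q, hQ, hr⟩ := extract c a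
  by_contra hc
  set C : ℝ := ∑ j ∈ Finset.range (Q.natDegree + 1), ‖Q.coeff j‖ * (C0 * R ^ j) with hC
  have hb : ∀ r, 1 ≤ r → ‖(c a : ℂ)‖ * ‖a‖ ^ r * ‖Q.eval a‖ ≤ C * R ^ r := by
    intro r h1
    rw [← norm_pow, ← norm_mul, ← norm_mul, ← hr r, hC, Finset.sum_mul]
    refine (norm_sum_le _ _).trans (Finset.sum_le_sum fun j _ => ?_)
    rw [norm_mul, mul_assoc]
    refine mul_le_mul_of_nonneg_left ?_ (norm_nonneg _)
    rw [mul_assoc, mul_comm (R ^ j), ← pow_add]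
    exact h (r + j) (by omega)
  have hA : 0 < ‖(c a : ℂ)‖ * ‖Q.eval a‖ := by
    refine mul_pos (norm_pos_iff.2 ?_) (norm_pos_iff.2 hQ)
    exact_mod_cast hc
  have hq : 1 < ‖a‖ / R := (one_lt_div hRpos).2 ha
  obtain ⟨n, hn⟩ := pow_unbounded_of_one_lt (C / (‖(c a : ℂ)‖ * ‖Q.eval a‖)) hq
  have h2 := hb (n + 1) (by omega)
  have h3 : (‖a‖ / R) ^ (n + 1) ≤ C / (‖(c a : ℂ)‖ * ‖Q.eval a‖) := by
    rw [div_pow, div_le_div_iff₀ (pow_pos hRpos _) hA]
    nlinarith [h2]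
  have h4 : (‖a‖ / R) ^ n ≤ (‖a‖ / R) ^ (n + 1) := pow_le_pow_right₀ hq.le (Nat.le_succ n)
  linarith

/-- The polynomial part. -/
noncomputable def polySp (p : ℕ) (S : Polynomial ℤ) : ℂ →₀ ℤ :=
  ∑ k ∈ S.support, Finsupp.single ((p : ℂ) ^ k) (S.coeff k)

theorem ev_polySp (p : ℕ) (S : Polynomial ℤ) (r : ℕ) :
    ev (polySp p S) r = ((S.eval ((p : ℤ) ^ r) : ℤ) : ℂ) := by
  unfold polySp
  rw [ev_sum, Polynomial.eval_eq_sum, Polynomial.sum_def]
  push_cast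
  refine Finset.sum_congr rfl fun k _ => ?_
  rw [ev_single, ← pow_mul, ← pow_mul, mul_comm k r]

theorem wt_polySp (p : Nat.Primes) (S : Polynomial ℤ) (k : ℕ) (r : ℕ) :
    ev (wt (p : ℕ) (2 * (k : ℤ)) (polySp p S)) r = (S.coeff k : ℂ) * (((p : ℕ) : ℂ) ^ k) ^ r := by
  classical
  unfold polySp
  rw [wt_sum, ev_sum]
  by_cases hk : k ∈ S.support
  · rw [Finset.sum_eq_single_of_mem k hk]
    · rw [wt_single_pos ((norm_pow_eq_iff p k _).2 rfl), ev_single]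
    · intro j _ hj
      rw [wt_single_neg (fun h => hj (by
        have := (norm_pow_eq_iff p j _).1 h
        omega)), ev_zero]
  · have h0 : S.coeff k = 0 := Polynomial.notMem_support_iff.1 hk
    rw [h0, Int.cast_zero, zero_mul]
    refine Finset.sum_eq_zero fun j hj => ?_
    rw [wt_single_neg (fun h => hk (by
        have h2 := (norm_pow_eq_iff p j _).1 h
        have h3 : j = k := by omega
        rwa [← h3])), ev_zero]

theorem wt_polySp_odd (p : Nat.Primes) (S : Polynomial ℤ) {w : ℤ} (hw : Odd w) (r : ℕ) :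
    ev (wt (p : ℕ) w (polySp p S)) r = 0 := by
  classical
  unfold polySp
  rw [wt_sum, ev_sum]
  refine Finset.sum_eq_zero fun j _ => ?_
  rw [wt_single_neg (fun h => ?_), ev_zero]
  have h2 := (norm_pow_eq_iff p j _).1 h
  obtain ⟨u, hu⟩ := hw
  omega

/-- The weight parts of weight at least `2 M`. -/
theorem weightPart_err (M : ℕ) (S : Polynomial ℤ) (f g : PF) (C : ℝ)
    (hg : ∀ (p : Nat.Primes) r, 1 ≤ r → ‖g p r - (((p : ℕ) : ℂ) ^ r) ^ M * f p r -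
      ((S.eval (((p : ℕ) : ℤ) ^ r) : ℤ) : ℂ)‖ * ((p : ℕ) : ℝ) ^ r ≤ C * (((p : ℕ) : ℝ) ^ r) ^ M)
    (μ ν : Nat.Primes → ℂ →₀ ℤ) (hμ : IsSpectrum f μ) (hν : IsSpectrum g ν) (w : ℤ)
    (hw : 2 * (M : ℤ) ≤ w) (p : Nat.Primes) (r : ℕ) :
    weightPart ν w p r = (((p : ℕ) : ℂ) ^ r) ^ M * weightPart μ (w - 2 * M) p r +
      ev (wt (p : ℕ) w (polySp p S)) r := by
  classical
  set c : ℂ →₀ ℤ := ν p + -(scale (((p : ℕ) : ℂ) ^ M) (μ p) + polySp p S) with hc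
  have hp1 : (1 : ℝ) < ((p : ℕ) : ℝ) := by exact_mod_cast p.2.one_lt
  have hp0 : (0 : ℝ) < ((p : ℕ) : ℝ) := by linarith
  have h1 : wt (p : ℕ) w c = 0 := by
    ext a
    by_cases ha : ‖a‖ = ((p : ℕ) : ℝ) ^ ((w : ℝ) / 2)
    · rw [wt_apply_pos ha, Finsupp.zero_apply]
      refine growth' (R := ((p : ℕ) : ℝ) ^ M / ((p : ℕ) : ℝ)) (C0 := C) (by positivity)
        (fun s hs => ?_) ?_
      · have h2 : ev (ν p) s = g p s := (hν p s hs).symm
        have h3 : ev (μ p) s = f p s := (hμ p s hs).symm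
        have h4 := hg p s hs
        rw [hc, ev_add, ev_neg, ev_add, ev_scale, h2, h3, ev_polySp]
        have h5 : g p s + -((((p : ℕ) : ℂ) ^ M) ^ s * f p s +
            ((S.eval (((p : ℕ) : ℤ) ^ s) : ℤ) : ℂ)) = g p s - (((p : ℕ) : ℂ) ^ s) ^ M * f p s -
            ((S.eval (((p : ℕ) : ℤ) ^ s) : ℤ) : ℂ) := by
          rw [← pow_mul, ← pow_mul, mul_comm M s]
          ring
        rw [h5]
        have h6 : (((p : ℕ) : ℝ) ^ s) ^ M =
            (((p : ℕ) : ℝ) ^ M / ((p : ℕ) : ℝ)) ^ s * ((p : ℕ) : ℝ) ^ s := by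
          rw [← mul_pow, div_mul_cancel₀ _ hp0.ne', ← pow_mul, ← pow_mul, mul_comm]
        rw [h6, ← mul_assoc] at h4
        exact le_of_mul_le_mul_right h4 (pow_pos hp0 s)
      · rw [ha]
        have h7 : (2 * (M : ℝ)) ≤ w := by exact_mod_cast hw
        have h8 : ((p : ℕ) : ℝ) ^ M ≤ ((p : ℕ) : ℝ) ^ ((w : ℝ) / 2) := by
          rw [← Real.rpow_natCast]
          exact Real.rpow_le_rpow_of_exponent_le hp1.le (by linarith)
        have h9 : (0 : ℝ) < ((p : ℕ) : ℝ) ^ M := by positivity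
        rw [div_lt_iff₀ hp0]
        nlinarith
    · rw [wt_apply_neg ha, Finsupp.zero_apply]
  have h2 : wt (p : ℕ) w (ν p) =
      scale (((p : ℕ) : ℂ) ^ M) (wt (p : ℕ) (w - 2 * M) (μ p)) + wt (p : ℕ) w (polySp p S) := by
    rw [hc, wt_add, wt_neg, wt_add, scale_pow_wt p.2] at h1
    have h3 := eq_neg_of_add_eq_zero_left h1
    rw [h3, neg_neg]
  rw [weightPart_eq, weightPart_eq, h2, ev_add, ev_scale, ← pow_mul, ← pow_mul, mul_comm M r]

/-- `[n]_q` as a polynomial. -/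
noncomputable def qpol (n : ℕ) : Polynomial ℤ := ∑ i ∈ Finset.range n, Polynomial.X ^ i

theorem eval_qpol (n q : ℕ) : (qpol n).eval (q : ℤ) = (qn q n : ℤ) := by
  unfold qpol qn
  rw [Polynomial.eval_finset_sum]
  push_cast
  refine Finset.sum_congr rfl fun i _ => ?_
  rw [Polynomial.eval_pow, Polynomial.eval_X]

/-- One hypersurface for a function in the class `InW`. -/
theorem InW.hypersurface {f : PF} (hf : InW f) :
    ∃ (h : HG) (M : ℕ) (κ : ℤ → ℤ), ZDeg 3 h.edges ∧ (∀ i, Odd i → κ i = 0) ∧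
      ∀ μ ν : Nat.Primes → ℂ →₀ ℤ, IsSpectrum f μ →
        IsSpectrum (countPF (multiCount h.edges)) ν →
        ∀ (S : Set Nat.Primes) (φ : PF) (i c : ℤ), 0 ≤ i →
          lfun S (shift M φ) ν (i + 2 * M) (c + κ i) = shift M (lfun S φ μ i c) := by
  obtain ⟨z, ⟨K, n, m, P, R, hz⟩, C, hC⟩ := hf 1
  obtain ⟨n', m', Q, hQhom, hQ⟩ := aff_proj P
  obtain ⟨h, M', -, -, h3, h4⟩ := exact_count Q hQhom
  -- one more factor `q`
  set M : ℕ := K + M' with hMdef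
  set T : Polynomial ℤ := qpol h.a * qpol h.b * qpol M' + Polynomial.X ^ M' * (qpol n - R) with hT
  set g : PF := countPF (multiCount h.edges) with hgdef
  have hg : ∀ (p : Nat.Primes) r, 1 ≤ r → ‖g p r - (((p : ℕ) : ℂ) ^ r) ^ M * f p r -
      ((T.eval (((p : ℕ) : ℤ) ^ r) : ℤ) : ℂ)‖ * ((p : ℕ) : ℝ) ^ r ≤ C * (((p : ℕ) : ℝ) ^ r) ^ M := by
    intro p r hr
    haveI : Fact (p : ℕ).Prime := ⟨p.2⟩
    have hcard : Nat.card (GaloisField (p : ℕ) r) = (p : ℕ) ^ r := GaloisField.card _ _ (by omega)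
    have h5 := h4 (GaloisField (p : ℕ) r)
    have h6 := hQ (GaloisField (p : ℕ) r)
    have h7 := hz p r hr
    rw [hcard] at h5 h6
    rw [countPF_eq] at h7
    have h8 : g p r = (multiCount h.edges (GaloisField (p : ℕ) r) : ℂ) := rfl
    have h9 : ((T.eval (((p : ℕ) : ℤ) ^ r) : ℤ) : ℂ) =
        (qn ((p : ℕ) ^ r) h.a : ℂ) * (qn ((p : ℕ) ^ r) h.b : ℂ) * (qn ((p : ℕ) ^ r) M' : ℂ) +
          (((p : ℕ) : ℂ) ^ r) ^ M' * ((qn ((p : ℕ) ^ r) n : ℂ) -
            ((R.eval (((p : ℕ) : ℤ) ^ r) : ℤ) : ℂ)) := by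
      have h10 : ∀ u : ℕ, (qpol u).eval (((p : ℕ) : ℤ) ^ r) = (qn ((p : ℕ) ^ r) u : ℤ) := by
        intro u
        have := eval_qpol u ((p : ℕ) ^ r)
        rw [← this]
        push_cast
        rfl
      rw [hT]
      simp only [Polynomial.eval_add, Polynomial.eval_mul, Polynomial.eval_sub, Polynomial.eval_pow,
        Polynomial.eval_X, h10]
      push_cast
      ring
    have h11 : g p r - (((p : ℕ) : ℂ) ^ r) ^ M * f p r - ((T.eval (((p : ℕ) : ℤ) ^ r) : ℤ) : ℂ) =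
        (((p : ℕ) : ℂ) ^ r) ^ M * (z p r - f p r) := by
      rw [h8, h5, h9]
      push_cast
      rw [h6]
      push_cast
      rw [hMdef, pow_add]
      linear_combination (-(((p : ℕ) : ℂ) ^ r) ^ M') * h7
    rw [h11, norm_mul, norm_pow, norm_pow, Complex.norm_natCast, mul_assoc, norm_sub_rev]
    have h12 := hC p r hr
    rw [pow_one] at h12
    rw [mul_comm C]
    exact mul_le_mul_of_nonneg_left h12 (by positivity)
  refine ⟨h, M, fun i => if Even i then T.coeff (i / 2 + M).toNat else 0, h3, fun i hi => ?_,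
    fun μ ν hμ hν S φ i c hi => ?_⟩
  · exact if_neg (Int.not_even_iff_odd.2 hi)
  funext p r
  have h5 := weightPart_err M T f g C hg μ ν hμ hν (i + 2 * M) (by linarith) p r
  rw [show i + 2 * (M : ℤ) - 2 * M = i by ring] at h5
  unfold lfun
  by_cases hS : p ∈ S
  · rw [if_pos hS, shift, shift, if_pos hS]
  rw [if_neg hS, shift, if_neg hS, h5]
  have hsign : (i + 2 * (M : ℤ)).negOnePow = i.negOnePow := by
    rw [Int.negOnePow_add, Int.negOnePow_even (2 * (M : ℤ)) (even_two_mul _), mul_one]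
  have hdiv : (i + 2 * (M : ℤ)) / 2 = i / 2 + M := by omega
  have hp0 : ((p : ℕ) : ℂ) ≠ 0 := by exact_mod_cast p.2.ne_zero
  have hz' : (((p : ℕ) : ℂ) ^ (i / 2 + (M : ℤ))) ^ r =
      (((p : ℕ) : ℂ) ^ r) ^ M * (((p : ℕ) : ℂ) ^ (i / 2)) ^ r := by
    rw [zpow_add₀ hp0, mul_pow, zpow_natCast, ← pow_mul, ← pow_mul, mul_comm M r]
    ring
  rw [hsign, hdiv, hz']
  beta_reduce
  by_cases he : Even i
  · obtain ⟨u, hu⟩ := he
    have hu0 : 0 ≤ u := by omega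
    obtain ⟨k, hk⟩ : ∃ k : ℕ, u + M = k := ⟨(u + M).toNat, by omega⟩
    have h6 : i + 2 * (M : ℤ) = 2 * (k : ℤ) := by omega
    have h7 : i / 2 + (M : ℤ) = k := by omega
    have h8 : (((p : ℕ) : ℂ) ^ k) ^ r = (((p : ℕ) : ℂ) ^ r) ^ M * (((p : ℕ) : ℂ) ^ (i / 2)) ^ r := by
      rw [← hz', h7, zpow_natCast]
    rw [h6, wt_polySp, h8, h7, Int.toNat_natCast, if_pos ⟨u, hu⟩, Int.negOnePow_even i ⟨u, hu⟩]
    push_cast
    ring
  · rw [if_neg he, wt_polySp_odd p T (by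
      rw [Int.odd_add, iff_true_intro (even_two_mul (M : ℤ)), iff_true]
      exact Int.not_even_iff_odd.1 he)]
    push_cast
    ring

end Pool.Agent.GPM
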