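import Pool.Agent.GPM.Rec
import Pool.Agent.GPM.Sp

/-!
# Transfer: approximation by a family of counting functions
-/

set_option autoImplicit false

open scoped BigOperators

namespace Pool.Agent.GPM

open Pool.Agent.HGC Pool.Agent.HGM Pool.Agent.HGC.LocWAux

/-- `q ^ K z` is a `ℤ[q]`-combination of the functions `g i` and `1`. -/
def Comb {ι : Type} (g : ι → PF) (z : PF) : Prop :=
  ∃ (K : ℕ) (s : Finset ι) (c : ι → Polynomial ℤ) (R : Polynomial ℤ),
    ∀ (p : Nat.Primes) (r : ℕ), 1 ≤ r → (((p : ℕ) : ℂ) ^ r) ^ K * z p r =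
      (∑ i ∈ s, (((c i).eval (((p : ℕ) : ℤ) ^ r) : ℤ) : ℂ) * g i p r) +
        ((R.eval (((p : ℕ) : ℤ) ^ r) : ℤ) : ℂ)

/-- `f` is approximated by such combinations with errors `O(q ^ (-D))`, for every `D`. -/
def InB {ι : Type} (g : ι → PF) (f : PF) : Prop :=
  ∀ D : ℕ, ∃ z : PF, Comb g z ∧ ∃ C : ℝ, ∀ (p : Nat.Primes) (r : ℕ), 1 ≤ r →
    ‖f p r - z p r‖ * (((p : ℕ) : ℝ) ^ r) ^ D ≤ C

section

variable {ι : Type} {g : ι → PF}

theorem Comb.congr {f f' : PF} (h : ∀ p r, 1 ≤ r → f p r = f' p r) (hf : Comb g f) : Comb g f' := by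
  obtain ⟨K, s, c, R, hz⟩ := hf
  exact ⟨K, s, c, R, fun p r hr => by rw [← h p r hr, hz p r hr]⟩

theorem Comb.basic (i : ι) : Comb g (g i) := by
  classical
  exact ⟨0, {i}, fun _ => 1, 0, fun p r _ => by simp⟩

theorem Comb.poly (R : Polynomial ℤ) :
    Comb g fun p r => ((R.eval (((p : ℕ) : ℤ) ^ r) : ℤ) : ℂ) :=
  ⟨0, ∅, fun _ => 0, R, fun p r _ => by simp⟩

theorem Comb.divq {f : PF} (hf : Comb g fun p r => ((p : ℕ) : ℂ) ^ r * f p r) : Comb g f := by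
  obtain ⟨K, s, c, R, hz⟩ := hf
  exact ⟨K + 1, s, c, R, fun p r hr => by rw [← hz p r hr]; ring⟩

theorem Comb.mulq {f : PF} (hf : Comb g f) : Comb g fun p r => ((p : ℕ) : ℂ) ^ r * f p r := by
  obtain ⟨K, s, c, R, hz⟩ := hf
  refine ⟨K, s, fun i => Polynomial.X * c i, Polynomial.X * R, fun p r hr => ?_⟩
  have h1 := hz p r hr
  simp only [Polynomial.eval_mul, Polynomial.eval_X]
  push_cast
  have h2 : (((p : ℕ) : ℂ) ^ r) ^ K * (((p : ℕ) : ℂ) ^ r * f p r) =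
      ((p : ℕ) : ℂ) ^ r * ((((p : ℕ) : ℂ) ^ r) ^ K * f p r) := by ring
  rw [h2, h1, mul_add, Finset.mul_sum]
  congr 1
  exact Finset.sum_congr rfl fun i _ => by ring

theorem Comb.neg {f : PF} (hf : Comb g f) : Comb g fun p r => -f p r := by
  obtain ⟨K, s, c, R, hz⟩ := hf
  refine ⟨K, s, fun i => -c i, -R, fun p r hr => ?_⟩
  have h1 := hz p r hr
  simp only [Polynomial.eval_neg]
  push_cast
  rw [mul_neg, h1, neg_add, ← Finset.sum_neg_distrib]
  congr 1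
  exact Finset.sum_congr rfl fun i _ => by ring

theorem Comb.add {f f' : PF} (hf : Comb g f) (hf' : Comb g f') : Comb g fun p r => f p r + f' p r := by
  classical
  obtain ⟨K, s, c, R, hz⟩ := hf
  obtain ⟨K', s', c', R', hz'⟩ := hf'
  refine ⟨K + K', s ∪ s', fun i => (if i ∈ s then Polynomial.X ^ K' * c i else 0) +
    (if i ∈ s' then Polynomial.X ^ K * c' i else 0), Polynomial.X ^ K' * R + Polynomial.X ^ K * R',
    fun p r hr => ?_⟩
  have h1 := hz p r hr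
  have h2 := hz' p r hr
  set q : ℂ := ((p : ℕ) : ℂ) ^ r with hq
  have hl : q ^ (K + K') * (f p r + f' p r) = q ^ K' * (q ^ K * f p r) + q ^ K * (q ^ K' * f' p r) := by
    ring
  rw [hl, h1, h2]
  have hA : ∑ i ∈ s ∪ s', ((Polynomial.eval (((p : ℕ) : ℤ) ^ r)
      ((if i ∈ s then Polynomial.X ^ K' * c i else 0) +
      (if i ∈ s' then Polynomial.X ^ K * c' i else 0)) : ℤ) : ℂ) * g i p r =
      (∑ i ∈ s, q ^ K' * ((((c i).eval (((p : ℕ) : ℤ) ^ r) : ℤ) : ℂ) * g i p r)) +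
      ∑ i ∈ s', q ^ K * ((((c' i).eval (((p : ℕ) : ℤ) ^ r) : ℤ) : ℂ) * g i p r) := by
    have e1 : ∑ i ∈ s, q ^ K' * ((((c i).eval (((p : ℕ) : ℤ) ^ r) : ℤ) : ℂ) * g i p r) =
        ∑ i ∈ s ∪ s', if i ∈ s then q ^ K' * ((((c i).eval (((p : ℕ) : ℤ) ^ r) : ℤ) : ℂ) * g i p r)
          else 0 := by
      rw [← Finset.sum_filter]
      refine Finset.sum_congr ?_ fun _ _ => rfl
      ext i
      simp only [Finset.mem_filter, Finset.mem_union]
      tauto
    have e2 : ∑ i ∈ s', q ^ K * ((((c' i).eval (((p : ℕ) : ℤ) ^ r) : ℤ) : ℂ) * g i p r) =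
        ∑ i ∈ s ∪ s', if i ∈ s' then q ^ K * ((((c' i).eval (((p : ℕ) : ℤ) ^ r) : ℤ) : ℂ) * g i p r)
          else 0 := by
      rw [← Finset.sum_filter]
      refine Finset.sum_congr ?_ fun _ _ => rfl
      ext i
      simp only [Finset.mem_filter, Finset.mem_union]
      tauto
    rw [e1, e2, ← Finset.sum_add_distrib]
    refine Finset.sum_congr rfl fun i _ => ?_
    rw [Polynomial.eval_add]
    push_cast
    rw [add_mul]
    congr 1
    · by_cases h : i ∈ s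
      · rw [if_pos h, if_pos h, Polynomial.eval_mul, Polynomial.eval_pow, Polynomial.eval_X]
        push_cast
        rw [hq]
        ring
      · rw [if_neg h, if_neg h, Polynomial.eval_zero, Int.cast_zero, zero_mul]
    · by_cases h : i ∈ s'
      · rw [if_pos h, if_pos h, Polynomial.eval_mul, Polynomial.eval_pow, Polynomial.eval_X]
        push_cast
        rw [hq]
        ring
      · rw [if_neg h, if_neg h, Polynomial.eval_zero, Int.cast_zero, zero_mul]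
  rw [hA, ← Finset.mul_sum, ← Finset.mul_sum]
  simp only [Polynomial.eval_add, Polynomial.eval_mul, Polynomial.eval_pow, Polynomial.eval_X]
  push_cast
  rw [← hq]
  ring

theorem InB.of {f : PF} (hf : Comb g f) : InB g f :=
  fun D => ⟨f, hf, 0, fun p r _ => by simp⟩

theorem InB.congr {f f' : PF} (h : ∀ p r, 1 ≤ r → f p r = f' p r) (hf : InB g f) : InB g f' := by
  intro D
  obtain ⟨z, hz, C, hC⟩ := hf D
  exact ⟨z, hz, C, fun p r hr => by rw [← h p r hr]; exact hC p r hr⟩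

theorem InB.add {f f' : PF} (hf : InB g f) (hf' : InB g f') : InB g fun p r => f p r + f' p r := by
  intro D
  obtain ⟨z, hz, C, hC⟩ := hf D
  obtain ⟨z', hz', C', hC'⟩ := hf' D
  refine ⟨_, hz.add hz', C + C', fun p r hr => ?_⟩
  have h1 : ‖f p r + f' p r - (z p r + z' p r)‖ ≤ ‖f p r - z p r‖ + ‖f' p r - z' p r‖ := by
    have : f p r + f' p r - (z p r + z' p r) = (f p r - z p r) + (f' p r - z' p r) := by ring
    rw [this]
    exact norm_add_le _ _
  calc ‖f p r + f' p r - (z p r + z' p r)‖ * (((p : ℕ) : ℝ) ^ r) ^ D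
      ≤ (‖f p r - z p r‖ + ‖f' p r - z' p r‖) * (((p : ℕ) : ℝ) ^ r) ^ D :=
        mul_le_mul_of_nonneg_right h1 (by positivity)
    _ = ‖f p r - z p r‖ * (((p : ℕ) : ℝ) ^ r) ^ D + ‖f' p r - z' p r‖ * (((p : ℕ) : ℝ) ^ r) ^ D := by
        ring
    _ ≤ C + C' := add_le_add (hC p r hr) (hC' p r hr)

theorem InB.neg {f : PF} (hf : InB g f) : InB g fun p r => -f p r := by
  intro D
  obtain ⟨z, hz, C, hC⟩ := hf D
  refine ⟨_, hz.neg, C, fun p r hr => ?_⟩
  have : -f p r - -z p r = -(f p r - z p r) := by ring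
  rw [this, norm_neg]
  exact hC p r hr

theorem InB.mulq {f : PF} (hf : InB g f) : InB g fun p r => ((p : ℕ) : ℂ) ^ r * f p r := by
  intro D
  obtain ⟨z, hz, C, hC⟩ := hf (D + 1)
  refine ⟨_, hz.mulq, C, fun p r hr => ?_⟩
  have h1 : ‖((p : ℕ) : ℂ) ^ r * f p r - ((p : ℕ) : ℂ) ^ r * z p r‖ * (((p : ℕ) : ℝ) ^ r) ^ D =
      ‖f p r - z p r‖ * (((p : ℕ) : ℝ) ^ r) ^ (D + 1) := by
    rw [← mul_sub, norm_mul, norm_pow, Complex.norm_natCast]
    ring
  rw [h1]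
  exact hC p r hr

theorem InB.divq {f : PF} (hf : InB g fun p r => ((p : ℕ) : ℂ) ^ r * f p r) : InB g f := by
  intro D
  obtain ⟨z, hz, C, hC⟩ := hf D
  have hq0 : ∀ (p : Nat.Primes) (r : ℕ), ((p : ℕ) : ℂ) ^ r ≠ 0 := fun p r =>
    pow_ne_zero _ (by exact_mod_cast p.2.ne_zero)
  refine ⟨fun p r => z p r / ((p : ℕ) : ℂ) ^ r, Comb.divq (Comb.congr (fun p r _ => ?_) hz), C,
    fun p r hr => ?_⟩
  · rw [mul_div_cancel₀ _ (hq0 p r)]
  · refine le_trans (mul_le_mul_of_nonneg_right ?_ (by positivity)) (hC p r hr)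
    have h1 : ((p : ℕ) : ℂ) ^ r * f p r - z p r =
        ((p : ℕ) : ℂ) ^ r * (f p r - z p r / ((p : ℕ) : ℂ) ^ r) := by
      rw [mul_sub, mul_div_cancel₀ _ (hq0 p r)]
    rw [h1, norm_mul, norm_pow, Complex.norm_natCast]
    have h2 : (1 : ℝ) ≤ ((p : ℕ) : ℝ) ^ r := one_le_pow₀ (by exact_mod_cast p.2.one_le)
    exact le_mul_of_one_le_left (norm_nonneg _) h2

/-- Approximation by functions which are themselves approximated. -/
theorem InB.limit {f : PF} (h : ∀ D : ℕ, ∃ z : PF, InB g z ∧ ∃ C : ℝ, ∀ (p : Nat.Primes) (r : ℕ), 1 ≤ r →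
    ‖f p r - z p r‖ * (((p : ℕ) : ℝ) ^ r) ^ D ≤ C) : InB g f := by
  intro D
  obtain ⟨z, hz, C, hC⟩ := h D
  obtain ⟨z', hz', C', hC'⟩ := hz D
  refine ⟨z', hz', C + C', fun p r hr => ?_⟩
  have h1 : ‖f p r - z' p r‖ ≤ ‖f p r - z p r‖ + ‖z p r - z' p r‖ := by
    have : f p r - z' p r = (f p r - z p r) + (z p r - z' p r) := by ring
    rw [this]
    exact norm_add_le _ _
  calc ‖f p r - z' p r‖ * (((p : ℕ) : ℝ) ^ r) ^ D
      ≤ (‖f p r - z p r‖ + ‖z p r - z' p r‖) * (((p : ℕ) : ℝ) ^ r) ^ D :=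
        mul_le_mul_of_nonneg_right h1 (by positivity)
    _ = ‖f p r - z p r‖ * (((p : ℕ) : ℝ) ^ r) ^ D + ‖z p r - z' p r‖ * (((p : ℕ) : ℝ) ^ r) ^ D := by
        ring
    _ ≤ C + C' := add_le_add (hC p r hr) (hC' p r hr)

theorem InB.divq_pow {f : PF} (K : ℕ) (hf : InB g fun p r => (((p : ℕ) : ℂ) ^ r) ^ K * f p r) :
    InB g f := by
  induction K with
  | zero => exact InB.congr (fun p r _ => by simp) hf
  | succ K ih => exact ih (InB.divq (InB.congr (fun p r _ => by ring) hf))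

/-- Transfer from affine schemes. -/
theorem InB.of_inW (hg : ∀ (n m : ℕ) (P : Fin m → MvPolynomial (Fin n) ℤ),
    InB g (countPF (affCount P))) {f : PF} (hf : InW f) : InB g f := by
  refine InB.limit fun D => ?_
  obtain ⟨z, ⟨K, n, m, P, R, hz⟩, C, hC⟩ := hf D
  refine ⟨z, InB.divq_pow K (InB.congr (fun p r hr => (hz p r hr).symm) ?_), C, hC⟩
  exact (hg n m P).add (InB.of (Comb.poly R))

theorem ev_zsmul (n : ℤ) (c : ℂ →₀ ℤ) (r : ℕ) : ev (n • c) r = (n : ℂ) * ev c r := by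
  unfold ev
  rw [Finsupp.sum_smul_index (fun a => by simp), Finsupp.mul_sum]
  refine Finsupp.sum_congr fun a _ => ?_
  push_cast
  ring

theorem wt_zsmul (p : ℕ) (w : ℤ) (n : ℤ) (c : ℂ →₀ ℤ) : wt p w (n • c) = n • wt p w c := by
  unfold wt
  exact Finsupp.filter_smul

/-- The spectrum of `c(q) g`. -/
noncomputable def polMul (p : ℕ) (c : Polynomial ℤ) (ν : ℂ →₀ ℤ) : ℂ →₀ ℤ :=
  ∑ j ∈ c.support, c.coeff j • scale ((p : ℂ) ^ j) ν

theorem ev_polMul (p : ℕ) (c : Polynomial ℤ) (ν : ℂ →₀ ℤ) (r : ℕ) :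
    ev (polMul p c ν) r = ((c.eval ((p : ℤ) ^ r) : ℤ) : ℂ) * ev ν r := by
  unfold polMul
  rw [ev_sum, Polynomial.eval_eq_sum, Polynomial.sum_def]
  push_cast
  rw [Finset.sum_mul]
  refine Finset.sum_congr rfl fun k _ => ?_
  rw [ev_zsmul, ev_scale, ← pow_mul, ← pow_mul, mul_comm k r, mul_assoc]

theorem wt_polMul (p : Nat.Primes) (c : Polynomial ℤ) (ν : ℂ →₀ ℤ) (w : ℤ) (r : ℕ) :
    ev (wt (p : ℕ) w (polMul (p : ℕ) c ν)) r =
      ∑ j ∈ c.support, (c.coeff j : ℂ) * ((((p : ℕ) : ℂ) ^ r) ^ j * ev (wt (p : ℕ) (w - 2 * j) ν) r) := by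
  unfold polMul
  rw [wt_sum, ev_sum]
  refine Finset.sum_congr rfl fun j _ => ?_
  rw [wt_zsmul, ev_zsmul, scale_pow_wt p.2, ev_scale, ← pow_mul, ← pow_mul, mul_comm j r]

/-- The exact formula for the weight parts: for `w ≥ 0` the weight `w` part of `f`, shifted by `K`, is a
finite integral combination of shifted weight parts of the functions `g i` and a multiple of
`q ^ (w / 2 + K)`. -/
theorem InB.weights {f : PF} (hf : InB g f) :
    ∃ (K : ℕ) (s : Finset ι) (c : ι → Polynomial ℤ) (R : Polynomial ℤ),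
      ∀ (μ : Nat.Primes → ℂ →₀ ℤ) (ν : ι → Nat.Primes → ℂ →₀ ℤ), IsSpectrum f μ →
        (∀ i ∈ s, IsSpectrum (g i) (ν i)) → ∀ w : ℤ, 0 ≤ w → ∀ (p : Nat.Primes) (r : ℕ),
          (((p : ℕ) : ℂ) ^ r) ^ K * weightPart μ w p r =
            (∑ i ∈ s, ∑ j ∈ (c i).support, ((c i).coeff j : ℂ) * ((((p : ℕ) : ℂ) ^ r) ^ j *
              weightPart (ν i) (w + 2 * K - 2 * j) p r)) +
              ev (wt (p : ℕ) (w + 2 * K) (polySp p R)) r := by
  classical
  obtain ⟨z, ⟨K, s, c, R, hz⟩, C, hC⟩ := hf 1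
  refine ⟨K, s, c, R, fun μ ν hμ hν w hw p r => ?_⟩
  set d : ℂ →₀ ℤ := scale (((p : ℕ) : ℂ) ^ K) (μ p) +
    -((∑ i ∈ s, polMul p (c i) (ν i p)) + polySp p R) with hd
  have hp1 : (1 : ℝ) < ((p : ℕ) : ℝ) := by exact_mod_cast p.2.one_lt
  have hp0 : (0 : ℝ) < ((p : ℕ) : ℝ) := by linarith
  have h1 : wt (p : ℕ) (w + 2 * K) d = 0 := by
    ext a
    by_cases ha : ‖a‖ = ((p : ℕ) : ℝ) ^ (((w + 2 * K : ℤ) : ℝ) / 2)
    · rw [wt_apply_pos ha, Finsupp.zero_apply]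
      refine growth' (R := ((p : ℕ) : ℝ) ^ K / ((p : ℕ) : ℝ)) (C0 := C) (by positivity)
        (fun t ht => ?_) ?_
      · have h2 : ev (μ p) t = f p t := (hμ p t ht).symm
        have h3 : ∀ i ∈ s, ev (ν i p) t = g i p t := fun i hi => (hν i hi p t ht).symm
        have h4 := hC p t ht
        have h5 := hz p t ht
        rw [hd, ev_add, ev_neg, ev_add, ev_scale, h2, ev_polySp, ev_sum]
        have h6 : ∑ i ∈ s, ev (polMul p (c i) (ν i p)) t =
            ∑ i ∈ s, (((c i).eval (((p : ℕ) : ℤ) ^ t) : ℤ) : ℂ) * g i p t :=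
          Finset.sum_congr rfl fun i hi => by rw [ev_polMul, h3 i hi]
        rw [h6, ← h5]
        have h7 : (((p : ℕ) : ℂ) ^ K) ^ t * f p t + -((((p : ℕ) : ℂ) ^ t) ^ K * z p t) =
            (((p : ℕ) : ℂ) ^ t) ^ K * (f p t - z p t) := by
          rw [← pow_mul, ← pow_mul, mul_comm K t]
          ring
        rw [h7, norm_mul, norm_pow, norm_pow, Complex.norm_natCast]
        have h8 : (((p : ℕ) : ℝ) ^ t) ^ K =
            (((p : ℕ) : ℝ) ^ K / ((p : ℕ) : ℝ)) ^ t * ((p : ℕ) : ℝ) ^ t := by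
          rw [← mul_pow, div_mul_cancel₀ _ hp0.ne', ← pow_mul, ← pow_mul, mul_comm]
        rw [pow_one] at h4
        rw [h8, mul_comm C, mul_assoc, mul_comm (((p : ℕ) : ℝ) ^ t)]
        exact mul_le_mul_of_nonneg_left h4 (by positivity)
      · rw [ha]
        have h7 : (0 : ℝ) ≤ w := by exact_mod_cast hw
        have h8 : ((p : ℕ) : ℝ) ^ K ≤ ((p : ℕ) : ℝ) ^ (((w + 2 * K : ℤ) : ℝ) / 2) := by
          rw [← Real.rpow_natCast]
          refine Real.rpow_le_rpow_of_exponent_le hp1.le ?_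
          push_cast
          linarith
        have h9 : (0 : ℝ) < ((p : ℕ) : ℝ) ^ K := by positivity
        rw [div_lt_iff₀ hp0]
        nlinarith
    · rw [wt_apply_neg ha, Finsupp.zero_apply]
  have h2 : scale (((p : ℕ) : ℂ) ^ K) (wt (p : ℕ) w (μ p)) =
      (∑ i ∈ s, wt (p : ℕ) (w + 2 * K) (polMul p (c i) (ν i p))) +
        wt (p : ℕ) (w + 2 * K) (polySp p R) := by
    rw [hd, wt_add, wt_neg, wt_add, scale_pow_wt p.2, wt_sum,
      show w + 2 * (K : ℤ) - 2 * K = w by ring] at h1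
    have h3 := eq_neg_of_add_eq_zero_left h1
    rw [h3, neg_neg]
  have h3 := congrArg (fun e => ev e r) h2
  simp only [ev_scale, ev_add, ev_sum, wt_polMul] at h3
  rw [weightPart_eq, ← pow_mul, mul_comm r K, pow_mul, h3]
  rfl

end

end Pool.Agent.GPM
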