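import Pool.Agent.GPM.App

/-!
# Transfer: division by monic polynomials in `q`
-/

set_option autoImplicit false

open scoped BigOperators

namespace Pool.Agent.GPM

open Pool.Agent.HGC Pool.Agent.HGM

/-- The function `q ↦ c(q)`. -/
noncomputable def pq (c : Polynomial ℤ) : PF := fun p r => ((c.eval (((p : ℕ) : ℤ) ^ r) : ℤ) : ℂ)

theorem pq_def (c : Polynomial ℤ) (p : Nat.Primes) (r : ℕ) :
    pq c p r = ((c.eval (((p : ℕ) : ℤ) ^ r) : ℤ) : ℂ) := rfl

/-- `f = O(q ^ A)` for some `A`. -/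
def Bd (f : PF) : Prop := ∃ A, Pol A f

theorem Bd.congr {f f' : PF} (h : ∀ p r, 1 ≤ r → f p r = f' p r) (hf : Bd f) : Bd f' := by
  obtain ⟨A, C, hC⟩ := hf
  exact ⟨A, C, fun p r hr => by rw [← h p r hr]; exact hC p r hr⟩

theorem one_le_q (p : Nat.Primes) (r : ℕ) : (1 : ℝ) ≤ ((p : ℕ) : ℝ) ^ r :=
  one_le_pow₀ (by exact_mod_cast p.2.one_le)

theorem Pol.mono {A B : ℕ} (hAB : A ≤ B) {f : PF} (hf : Pol A f) : Pol B f := by
  obtain ⟨C, hC⟩ := hf
  refine ⟨|C|, fun p r hr => (hC p r hr).trans ?_⟩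
  have h1 := one_le_q p r
  have h2 : (((p : ℕ) : ℝ) ^ r) ^ A ≤ (((p : ℕ) : ℝ) ^ r) ^ B := pow_le_pow_right₀ h1 hAB
  have h3 : (0 : ℝ) ≤ (((p : ℕ) : ℝ) ^ r) ^ A := by positivity
  calc C * (((p : ℕ) : ℝ) ^ r) ^ A ≤ |C| * (((p : ℕ) : ℝ) ^ r) ^ A :=
        mul_le_mul_of_nonneg_right (le_abs_self C) h3
    _ ≤ |C| * (((p : ℕ) : ℝ) ^ r) ^ B := mul_le_mul_of_nonneg_left h2 (abs_nonneg C)

theorem Bd.add {f f' : PF} (hf : Bd f) (hf' : Bd f') : Bd fun p r => f p r + f' p r := by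
  obtain ⟨A, hA⟩ := hf
  obtain ⟨B, hB⟩ := hf'
  obtain ⟨C, hC⟩ := hA.mono (le_max_left A B)
  obtain ⟨C', hC'⟩ := hB.mono (le_max_right A B)
  refine ⟨max A B, C + C', fun p r hr => (norm_add_le _ _).trans ?_⟩
  rw [add_mul]
  exact add_le_add (hC p r hr) (hC' p r hr)

theorem Bd.mulq {f : PF} (hf : Bd f) : Bd fun p r => ((p : ℕ) : ℂ) ^ r * f p r := by
  obtain ⟨A, C, hC⟩ := hf
  refine ⟨A + 1, C, fun p r hr => ?_⟩
  rw [norm_mul, norm_pow, Complex.norm_natCast, pow_succ]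
  have h1 : (0 : ℝ) ≤ ((p : ℕ) : ℝ) ^ r := by positivity
  calc ((p : ℕ) : ℝ) ^ r * ‖f p r‖ ≤ ((p : ℕ) : ℝ) ^ r * (C * (((p : ℕ) : ℝ) ^ r) ^ A) :=
        mul_le_mul_of_nonneg_left (hC p r hr) h1
    _ = C * ((((p : ℕ) : ℝ) ^ r) ^ A * ((p : ℕ) : ℝ) ^ r) := by ring

theorem Bd.const_mul (a : ℂ) {f : PF} (hf : Bd f) : Bd fun p r => a * f p r := by
  obtain ⟨A, C, hC⟩ := hf
  refine ⟨A, ‖a‖ * C, fun p r hr => ?_⟩
  rw [norm_mul, mul_assoc]
  exact mul_le_mul_of_nonneg_left (hC p r hr) (norm_nonneg a)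

theorem Bd.zero : Bd fun _ _ => 0 := ⟨0, 0, fun p r _ => by simp⟩

theorem Bd.one : Bd fun _ _ => (1 : ℂ) := ⟨0, 1, fun p r _ => by simp⟩

theorem Bd.pmul (c : Polynomial ℤ) {f : PF} (hf : Bd f) : Bd fun p r => pq c p r * f p r := by
  induction c using Polynomial.induction_on' with
  | add a b ha hb =>
    refine (ha.add hb).congr fun p r _ => ?_
    simp only [pq, Polynomial.eval_add]
    push_cast
    ring
  | monomial n a =>
    have h : Bd fun p r => (((p : ℕ) : ℂ) ^ r) ^ n * ((a : ℂ) * f p r) := by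
      induction n with
      | zero => exact (hf.const_mul (a : ℂ)).congr fun p r _ => by simp
      | succ n ih => exact ih.mulq.congr fun p r _ => by ring
    refine h.congr fun p r _ => ?_
    simp only [pq, Polynomial.eval_monomial]
    push_cast
    ring

theorem Bd.sum {ι : Type} (s : Finset ι) {f : ι → PF} (hf : ∀ i ∈ s, Bd (f i)) :
    Bd fun p r => ∑ i ∈ s, f i p r := by
  classical
  induction s using Finset.induction_on with
  | empty => exact Bd.zero.congr fun p r _ => by simp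
  | insert a s ha ih =>
    exact ((hf a (Finset.mem_insert_self _ _)).add
      (ih fun i hi => hf i (Finset.mem_insert_of_mem hi))).congr
        fun p r _ => by rw [Finset.sum_insert ha]

theorem Bd.divq_pow (K : ℕ) {f : PF} (hf : Bd fun p r => (((p : ℕ) : ℂ) ^ r) ^ K * f p r) : Bd f := by
  obtain ⟨A, C, hC⟩ := hf
  refine ⟨A, C, fun p r hr => le_trans ?_ (hC p r hr)⟩
  rw [norm_mul, norm_pow, norm_pow, Complex.norm_natCast]
  exact le_mul_of_one_le_left (norm_nonneg _) (one_le_pow₀ (one_le_q p r))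

section

variable {ι : Type} {g : ι → PF}

theorem Comb.bd (hg : ∀ i, Bd (g i)) {z : PF} (hz : Comb g z) : Bd z := by
  obtain ⟨K, s, c, R, h⟩ := hz
  refine Bd.divq_pow K (Bd.congr (fun p r hr => (h p r hr).symm) ?_)
  refine (Bd.sum s (f := fun i p r => pq (c i) p r * g i p r) fun i _ => (hg i).pmul (c i)).add ?_
  exact (Bd.one.pmul R).congr fun p r _ => by
    rw [mul_one, pq]

theorem InB.bd (hg : ∀ i, Bd (g i)) {f : PF} (hf : InB g f) : Bd f := by
  obtain ⟨z, hz, C, hC⟩ := hf 0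
  have h1 : Bd fun p r => f p r - z p r := ⟨0, C, fun p r hr => by
    have := hC p r hr
    rwa [pow_zero, mul_one] at this ⊢⟩
  exact (h1.add (hz.bd hg)).congr fun p r _ => by ring

theorem InB.zero : InB g fun _ _ => 0 :=
  InB.congr (f := fun p r => (((0 : Polynomial ℤ).eval (((p : ℕ) : ℤ) ^ r) : ℤ) : ℂ))
    (fun p r _ => by simp) (InB.of (Comb.poly 0))

theorem InB.nsmul (c : ℕ) {f : PF} (hf : InB g f) : InB g fun p r => (c : ℂ) * f p r := by
  induction c with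
  | zero => exact InB.zero.congr (fun p r _ => by simp)
  | succ c ih => exact (ih.add hf).congr (fun p r _ => by push_cast; ring)

theorem InB.zsmul (c : ℤ) {f : PF} (hf : InB g f) : InB g fun p r => (c : ℂ) * f p r := by
  obtain ⟨n, rfl | rfl⟩ := c.eq_nat_or_neg
  · exact (hf.nsmul n).congr (fun p r _ => by push_cast; ring)
  · exact (hf.nsmul n).neg.congr (fun p r _ => by push_cast; ring)

theorem InB.mulq_pow {f : PF} (n : ℕ) (hf : InB g f) :
    InB g fun p r => (((p : ℕ) : ℂ) ^ r) ^ n * f p r := by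
  induction n with
  | zero => exact hf.congr fun p r _ => by simp
  | succ n ih => exact ih.mulq.congr fun p r _ => by ring

theorem InB.pmul (c : Polynomial ℤ) {f : PF} (hf : InB g f) :
    InB g fun p r => pq c p r * f p r := by
  induction c using Polynomial.induction_on' with
  | add a b ha hb =>
    refine (ha.add hb).congr fun p r _ => ?_
    simp only [pq, Polynomial.eval_add]
    push_cast
    ring
  | monomial n a =>
    refine ((hf.zsmul a).mulq_pow n).congr fun p r _ => ?_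
    simp only [pq, Polynomial.eval_monomial]
    push_cast
    ring

theorem InB.sum {κ : Type} (s : Finset κ) (f : κ → PF) (hf : ∀ i ∈ s, InB g (f i)) :
    InB g fun p r => ∑ i ∈ s, f i p r := by
  classical
  induction s using Finset.induction_on with
  | empty => exact InB.zero.congr (fun p r _ => by simp)
  | insert a s ha ih =>
    exact ((hf a (Finset.mem_insert_self _ _)).add
      (ih fun i hi => hf i (Finset.mem_insert_of_mem hi))).congr
        (fun p r _ => by rw [Finset.sum_insert ha])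

theorem InB.base (i : ι) : InB g (g i) := InB.of (Comb.basic i)

theorem InB.poly (R : Polynomial ℤ) : InB g (pq R) := InB.of (Comb.poly R)

/-- The pairs `(p, r)`, `r ≥ 1`, with `p ^ r ≤ N` are finitely many. -/
theorem finite_q (N : ℕ) : {x : Nat.Primes × ℕ | 1 ≤ x.2 ∧ (x.1 : ℕ) ^ x.2 ≤ N}.Finite := by
  have h1 : (((Finset.range (N + 1)) ×ˢ (Finset.range (N + 1)) : Finset (ℕ × ℕ)) :
      Set (ℕ × ℕ)).Finite := Finset.finite_toSet _
  refine Set.Finite.of_finite_image (f := fun x : Nat.Primes × ℕ => ((x.1 : ℕ), x.2))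
    (h1.subset ?_) ?_
  · rintro _ ⟨x, ⟨hx1, hx2⟩, rfl⟩
    simp only [Finset.coe_product, Finset.coe_range, Set.mem_prod, Set.mem_Iio]
    have h2 : (x.1 : ℕ) ≤ (x.1 : ℕ) ^ x.2 := Nat.le_self_pow (by omega) _
    have h3 : x.2 < (x.1 : ℕ) ^ x.2 := Nat.lt_pow_self x.1.2.one_lt
    constructor <;> omega
  · intro x _ y _ h
    simp only [Prod.mk.injEq] at h
    exact Prod.ext (Subtype.ext h.1) h.2

/-- A function is polynomially bounded if it is so after multiplication by a polynomial `≠ 0`. -/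
theorem Bd.of_mul {m : Polynomial ℤ} (hm : m ≠ 0) {f : PF} (hf : Bd fun p r => pq m p r * f p r) :
    Bd f := by
  obtain ⟨A, C, hC⟩ := hf
  -- a bound for the roots
  obtain ⟨N, hN⟩ : ∃ N : ℕ, ∀ z : ℤ, m.eval z = 0 → z.natAbs ≤ N := by
    refine ⟨m.roots.toFinset.sup Int.natAbs, fun z hz => ?_⟩
    exact Finset.le_sup (f := Int.natAbs) (Multiset.mem_toFinset.2 ((Polynomial.mem_roots hm).2 hz))
  obtain ⟨B, hB⟩ : ∃ B : ℝ, ∀ (p : Nat.Primes) (r : ℕ), 1 ≤ r → (p : ℕ) ^ r ≤ N → ‖f p r‖ ≤ B := by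
    obtain ⟨B, hB⟩ := ((finite_q N).image fun x : Nat.Primes × ℕ => ‖f x.1 x.2‖).bddAbove
    exact ⟨B, fun p r hr h => hB ⟨(p, r), ⟨hr, h⟩, rfl⟩⟩
  refine ⟨A, |C| + |B|, fun p r hr => ?_⟩
  have h1 : (1 : ℝ) ≤ (((p : ℕ) : ℝ) ^ r) ^ A := one_le_pow₀ (one_le_q p r)
  by_cases h : (p : ℕ) ^ r ≤ N
  · have h2 := hB p r hr h
    calc ‖f p r‖ ≤ |B| := h2.trans (le_abs_self B)
      _ ≤ |C| + |B| := by linarith [abs_nonneg C]
      _ ≤ (|C| + |B|) * (((p : ℕ) : ℝ) ^ r) ^ A :=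
          le_mul_of_one_le_right (by positivity) h1
  · have h2 : m.eval (((p : ℕ) : ℤ) ^ r) ≠ 0 := fun h0 => h (by
      have := hN _ h0
      rwa [Int.natAbs_pow, Int.natAbs_natCast] at this)
    have h3 : (1 : ℝ) ≤ ‖pq m p r‖ := by
      rw [pq, Complex.norm_intCast]
      have : (1 : ℤ) ≤ |m.eval (((p : ℕ) : ℤ) ^ r)| := Int.one_le_abs h2
      exact_mod_cast this
    have h4 := hC p r hr
    rw [norm_mul] at h4
    calc ‖f p r‖ ≤ ‖pq m p r‖ * ‖f p r‖ := le_mul_of_one_le_left (norm_nonneg _) h3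
      _ ≤ C * (((p : ℕ) : ℝ) ^ r) ^ A := h4
      _ ≤ (|C| + |B|) * (((p : ℕ) : ℝ) ^ r) ^ A :=
          mul_le_mul_of_nonneg_right (by linarith [le_abs_self C, abs_nonneg B]) (by positivity)

/-- A polynomial of degree `< d` is `O(q ^ (d - 1))`, in the form used below. -/
theorem pq_bound {d : ℕ} (E : Polynomial ℤ) (hE : E.degree < d) :
    ∃ C : ℝ, ∀ (p : Nat.Primes) (r : ℕ), ‖pq E p r‖ * ((p : ℕ) : ℝ) ^ r ≤ C * (((p : ℕ) : ℝ) ^ r) ^ d := by
  refine ⟨∑ j ∈ Finset.range d, ‖(E.coeff j : ℂ)‖, fun p r => ?_⟩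
  have hq := one_le_q p r
  set q : ℝ := ((p : ℕ) : ℝ) ^ r with hqdef
  have h1 : pq E p r = ∑ j ∈ Finset.range d, (E.coeff j : ℂ) * (((p : ℕ) : ℂ) ^ r) ^ j := by
    rw [pq]
    rcases Nat.eq_zero_or_pos d with hd | hd
    · subst hd
      have : E = 0 := Polynomial.degree_lt_iff_coeff_zero E 0 |>.1 hE |> fun h =>
        Polynomial.ext fun n => by rw [h n (Nat.zero_le n), Polynomial.coeff_zero]
      rw [this]
      simp
    · have hn : E.natDegree < d := by
        by_cases h0 : E = 0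
        · rw [h0, Polynomial.natDegree_zero]; exact hd
        · exact (Polynomial.natDegree_lt_iff_degree_lt h0).2 hE
      rw [Polynomial.eval_eq_sum_range' hn]
      push_cast
      rfl
  have h2 : ‖pq E p r‖ ≤ ∑ j ∈ Finset.range d, ‖(E.coeff j : ℂ)‖ * q ^ j := by
    rw [h1]
    refine (norm_sum_le _ _).trans (Finset.sum_le_sum fun j _ => ?_)
    rw [norm_mul, norm_pow, norm_pow, Complex.norm_natCast]
  calc ‖pq E p r‖ * q ≤ (∑ j ∈ Finset.range d, ‖(E.coeff j : ℂ)‖ * q ^ j) * q :=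
        mul_le_mul_of_nonneg_right h2 (by positivity)
    _ = ∑ j ∈ Finset.range d, ‖(E.coeff j : ℂ)‖ * q ^ (j + 1) := by
        rw [Finset.sum_mul]
        exact Finset.sum_congr rfl fun j _ => by ring
    _ ≤ ∑ j ∈ Finset.range d, ‖(E.coeff j : ℂ)‖ * q ^ d := by
        refine Finset.sum_le_sum fun j hj => mul_le_mul_of_nonneg_left ?_ (norm_nonneg _)
        exact pow_le_pow_right₀ hq (Finset.mem_range.1 hj)
    _ = (∑ j ∈ Finset.range d, ‖(E.coeff j : ℂ)‖) * q ^ d := by rw [Finset.sum_mul]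

/-- Division by a monic polynomial in `q`. -/
theorem InB.div_monic (hg : ∀ i, Bd (g i)) {m : Polynomial ℤ} (hm : m.Monic) {f : PF}
    (hf : InB g fun p r => pq m p r * f p r) : InB g f := by
  obtain ⟨A, C, hC⟩ : Bd f := Bd.of_mul hm.ne_zero (hf.bd hg)
  refine InB.limit fun D => ?_
  by_cases h1 : m = 1
  · refine ⟨f, hf.congr fun p r _ => ?_, 0, fun p r _ => by simp⟩
    rw [h1, pq, Polynomial.eval_one, Int.cast_one, one_mul]
  set d := m.natDegree with hd
  set N : ℕ := A + d + D with hN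
  set S : Polynomial ℤ := Polynomial.X ^ N /ₘ m with hS
  set E : Polynomial ℤ := Polynomial.X ^ N %ₘ m with hE
  have hSE : E + m * S = Polynomial.X ^ N := Polynomial.modByMonic_add_div _ m
  have hEdeg : E.degree < (d : WithBot ℕ) := by
    have := Polynomial.degree_modByMonic_lt (Polynomial.X ^ N) hm
    rwa [Polynomial.degree_eq_natDegree hm.ne_zero] at this
  obtain ⟨B, hB⟩ := pq_bound E hEdeg
  have hq0 : ∀ (p : Nat.Primes) (r : ℕ), (((p : ℕ) : ℂ) ^ r) ^ N ≠ 0 := fun p r =>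
    pow_ne_zero _ (pow_ne_zero _ (by exact_mod_cast p.2.ne_zero))
  have hrel : ∀ (p : Nat.Primes) (r : ℕ), pq E p r + pq m p r * pq S p r = (((p : ℕ) : ℂ) ^ r) ^ N := by
    intro p r
    have := congrArg (fun P : Polynomial ℤ => ((P.eval (((p : ℕ) : ℤ) ^ r) : ℤ) : ℂ)) hSE
    simp only [Polynomial.eval_add, Polynomial.eval_mul, Polynomial.eval_pow, Polynomial.eval_X] at this
    push_cast at this
    exact this
  refine ⟨fun p r => pq S p r * (pq m p r * f p r) / (((p : ℕ) : ℂ) ^ r) ^ N,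
    InB.divq_pow N ((hf.pmul S).congr fun p r _ => ?_), |C| * |B|, fun p r hr => ?_⟩
  · rw [mul_div_cancel₀ _ (hq0 p r)]
  · have hq := one_le_q p r
    have h2 : f p r - pq S p r * (pq m p r * f p r) / (((p : ℕ) : ℂ) ^ r) ^ N =
        pq E p r * f p r / (((p : ℕ) : ℂ) ^ r) ^ N := by
      rw [eq_div_iff (hq0 p r), sub_mul, div_mul_cancel₀ _ (hq0 p r)]
      linear_combination (-f p r) * hrel p r
    have h3 := hB p r
    have h4 := hC p r hr
    rw [h2, norm_div, norm_mul, norm_pow, norm_pow, Complex.norm_natCast]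
    set q : ℝ := ((p : ℕ) : ℝ) ^ r with hqdef
    have hqpos : 0 < q := by linarith
    rw [div_mul_eq_mul_div, div_le_iff₀ (pow_pos hqpos N)]
    have h5 : ‖pq E p r‖ ≤ |B| * q ^ d := by
      calc ‖pq E p r‖ ≤ ‖pq E p r‖ * q := le_mul_of_one_le_right (norm_nonneg _) hq
        _ ≤ B * q ^ d := h3
        _ ≤ |B| * q ^ d := mul_le_mul_of_nonneg_right (le_abs_self B) (by positivity)
    have h6 : ‖f p r‖ ≤ |C| * q ^ A :=
      h4.trans (mul_le_mul_of_nonneg_right (le_abs_self C) (by positivity))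
    calc ‖pq E p r‖ * ‖f p r‖ * q ^ D ≤ (|B| * q ^ d) * (|C| * q ^ A) * q ^ D := by
          refine mul_le_mul_of_nonneg_right (mul_le_mul h5 h6 (norm_nonneg _) (by positivity))
            (by positivity)
      _ = |C| * |B| * q ^ N := by rw [hN, pow_add, pow_add]; ring

end

end Pool.Agent.GPM
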