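import Pool.Agent.GPM.Defs

/-! Module CGRW: a bound -/

set_option autoImplicit false

open scoped BigOperators

namespace Pool.Agent.GPM

open Pool.Agent.HGC Pool.Agent.HGM

private theorem CGrw_roots (p : ℕ) [Fact p.Prime] {Q : ℕ} (hQ : 1 < Q) :
    Finite {y : AlgebraicClosure (ZMod p) // y ^ Q = y} ∧
      Nat.card {y : AlgebraicClosure (ZMod p) // y ^ Q = y} ≤ Q := by
  classical
  set K := AlgebraicClosure (ZMod p) with hK
  have hne : (Polynomial.X ^ Q - Polynomial.X : Polynomial K) ≠ 0 :=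
    FiniteField.X_pow_card_sub_X_ne_zero K hQ
  have hsub : {y : K | y ^ Q = y} ⊆
      ↑((Polynomial.X ^ Q - Polynomial.X : Polynomial K).roots.toFinset) := by
    intro y hy
    simp only [Finset.mem_coe, Multiset.mem_toFinset, Polynomial.mem_roots hne,
      Polynomial.IsRoot.def, Polynomial.eval_sub, Polynomial.eval_pow, Polynomial.eval_X]
    exact sub_eq_zero.mpr hy
  have hfin : ({y : K | y ^ Q = y}).Finite := (Finset.finite_toSet _).subset hsub
  refine ⟨hfin.to_subtype, ?_⟩
  have h1 : Nat.card {y : K // y ^ Q = y} = ({y : K | y ^ Q = y}).ncard := rfl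
  rw [h1]
  calc ({y : K | y ^ Q = y}).ncard
      ≤ (↑((Polynomial.X ^ Q - Polynomial.X : Polynomial K).roots.toFinset) : Set K).ncard :=
        Set.ncard_le_ncard hsub (Finset.finite_toSet _)
    _ = (Polynomial.X ^ Q - Polynomial.X : Polynomial K).roots.toFinset.card :=
        Set.ncard_coe_finset _
    _ ≤ (Polynomial.X ^ Q - Polynomial.X : Polynomial K).roots.card :=
        Multiset.toFinset_card_le _
    _ ≤ (Polynomial.X ^ Q - Polynomial.X : Polynomial K).natDegree := Polynomial.card_roots' _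
    _ = Q := FiniteField.X_pow_card_sub_X_natDegree_eq K hQ

/-- A bound.
PROOF: `x_j ^ q = x_(g j)` for all `j` gives `x_j ^ (q^e) = x_(g^e j) = x_j` for `e = n!` (`g^e = 1`), so every
coordinate is one of at most `q^e` roots of `X^(q^e) - X`. -/
theorem cone_growth {n m : ℕ} (P : Fin m → MvPolynomial (Fin n) ℤ) (g : Equiv.Perm (Fin n)) (p r : ℕ)
    [Fact p.Prime] (hr : 1 ≤ r) : coneCount P g p r ≤ (p ^ r) ^ (n.factorial * n) := by
  classical
  have hp : 1 < p := (Fact.out : p.Prime).one_lt
  have hq : 1 < p ^ r := Nat.one_lt_pow (by omega) hp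
  have hQ : 1 < (p ^ r) ^ n.factorial := Nat.one_lt_pow n.factorial_ne_zero hq
  obtain ⟨hf, hc⟩ := CGrw_roots p hQ
  have hg : g ^ n.factorial = 1 := by
    have := pow_card_eq_one (x := g)
    rwa [Fintype.card_perm, Fintype.card_fin] at this
  have hpow : ∀ (x : Fin n → AlgebraicClosure (ZMod p)), (∀ j, x j ^ p ^ r = x (g j)) →
      ∀ (i : ℕ) j, x j ^ (p ^ r) ^ i = x ((g ^ i) j) := by
    intro x hx i
    induction i with
    | zero => intro j; simp
    | succ i ih =>
      intro j
      rw [pow_succ, pow_mul, ih j, hx, pow_succ']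
      rfl
  let F : {x : Fin n → AlgebraicClosure (ZMod p) //
      (∀ i, MvPolynomial.aeval x (P i) = 0) ∧ ∀ j, x j ^ p ^ r = x (g j)} →
      (Fin n → {y : AlgebraicClosure (ZMod p) // y ^ (p ^ r) ^ n.factorial = y}) :=
    fun x j => ⟨x.1 j, by rw [hpow x.1 x.2.2, hg]; rfl⟩
  have hF : Function.Injective F := by
    intro x y hxy
    apply Subtype.ext
    funext j
    exact congrArg Subtype.val (congrFun hxy j)
  calc coneCount P g p r
      ≤ Nat.card (Fin n → {y : AlgebraicClosure (ZMod p) // y ^ (p ^ r) ^ n.factorial = y}) :=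
        Nat.card_le_card_of_injective F hF
    _ = (Nat.card {y : AlgebraicClosure (ZMod p) // y ^ (p ^ r) ^ n.factorial = y}) ^ n := by
        rw [Nat.card_fun, Nat.card_eq_fintype_card (α := Fin n), Fintype.card_fin]
    _ ≤ ((p ^ r) ^ n.factorial) ^ n := Nat.pow_le_pow_left hc n
    _ = (p ^ r) ^ (n.factorial * n) := by rw [← pow_mul]

end Pool.Agent.GPM
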