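import Pool.Agent.GPM.Defs

/-! Module CRNG: the coordinate ring of the cone -/

set_option autoImplicit false

open scoped BigOperators

namespace Pool.Agent.GPM

open Pool.Agent.HGC Pool.Agent.HGM

section

variable {n m : ℕ} (P : Fin m → MvPolynomial (Fin n) ℤ) {G : Type} [Group G]
    (σ : G →* Equiv.Perm (Fin n))

private lemma crng_le (hst : ∀ g i, MvPolynomial.rename (σ g) (P i) ∈ Ideal.span (Set.range P)) (g : G) :
    Ideal.span (Set.range P) ≤ (Ideal.span (Set.range P)).comap
      ((MvPolynomial.rename (R := ℤ) (σ g)).toRingHom) := by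
  rw [Ideal.span_le]
  rintro _ ⟨i, rfl⟩
  exact hst g i

/-- the action of one element -/
private noncomputable def crngAct
    (hst : ∀ g i, MvPolynomial.rename (σ g) (P i) ∈ Ideal.span (Set.range P)) (g : G) :
    (MvPolynomial (Fin n) ℤ ⧸ Ideal.span (Set.range P)) →+*
      (MvPolynomial (Fin n) ℤ ⧸ Ideal.span (Set.range P)) :=
  Ideal.quotientMap (Ideal.span (Set.range P)) ((MvPolynomial.rename (R := ℤ) (σ g)).toRingHom)
    (crng_le P σ hst g)

private lemma crngAct_mk
    (hst : ∀ g i, MvPolynomial.rename (σ g) (P i) ∈ Ideal.span (Set.range P)) (g : G)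
    (a : MvPolynomial (Fin n) ℤ) :
    crngAct P σ hst g (Ideal.Quotient.mk _ a) = Ideal.Quotient.mk _ (MvPolynomial.rename (σ g) a) := rfl

/-- the action -/
@[reducible] private noncomputable def crngMSA
    (hst : ∀ g i, MvPolynomial.rename (σ g) (P i) ∈ Ideal.span (Set.range P)) :
    MulSemiringAction G (MvPolynomial (Fin n) ℤ ⧸ Ideal.span (Set.range P)) where
  smul g b := crngAct P σ hst g b
  one_smul b := by
    obtain ⟨a, rfl⟩ := Ideal.Quotient.mk_surjective b
    change crngAct P σ hst 1 _ = _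
    rw [crngAct_mk, map_one]
    congr 1
    change MvPolynomial.rename (id : Fin n → Fin n) a = a
    exact MvPolynomial.rename_id_apply a
  mul_smul g h b := by
    obtain ⟨a, rfl⟩ := Ideal.Quotient.mk_surjective b
    change crngAct P σ hst (g * h) _ = crngAct P σ hst g (crngAct P σ hst h _)
    rw [crngAct_mk, crngAct_mk, crngAct_mk, map_mul, MvPolynomial.rename_rename]
    rfl
  smul_zero g := map_zero (crngAct P σ hst g)
  smul_add g := map_add (crngAct P σ hst g)
  smul_one g := map_one (crngAct P σ hst g)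
  smul_mul g := map_mul (crngAct P σ hst g)

private lemma crng_smul
    (hst : ∀ g i, MvPolynomial.rename (σ g) (P i) ∈ Ideal.span (Set.range P)) (g : G)
    (a : MvPolynomial (Fin n) ℤ) :
    letI := crngMSA P σ hst
    g • (Ideal.Quotient.mk (Ideal.span (Set.range P)) a) =
        Ideal.Quotient.mk (Ideal.span (Set.range P)) (MvPolynomial.rename (σ g) a) := rfl

private lemma crng_ft : Algebra.FiniteType ℤ (MvPolynomial (Fin n) ℤ ⧸ Ideal.span (Set.range P)) :=
  Algebra.FiniteType.of_surjective (Ideal.Quotient.mkₐ ℤ (Ideal.span (Set.range P)))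
    (Ideal.Quotient.mkₐ_surjective ℤ (Ideal.span (Set.range P)))

private lemma crng_val {Ω : Type} [Field Ω]
    (φ : (MvPolynomial (Fin n) ℤ ⧸ Ideal.span (Set.range P)) →+* Ω) (a : MvPolynomial (Fin n) ℤ) :
    φ (Ideal.Quotient.mk _ a) =
      MvPolynomial.aeval (fun j => φ (Ideal.Quotient.mk _ (MvPolynomial.X j))) a := by
  have : (φ.comp (Ideal.Quotient.mk _)) =
      ((MvPolynomial.aeval (fun j => φ (Ideal.Quotient.mk _ (MvPolynomial.X j))) :
        MvPolynomial (Fin n) ℤ →ₐ[ℤ] Ω) : MvPolynomial (Fin n) ℤ →+* Ω) := by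
    apply MvPolynomial.ringHom_ext
    · intro z
      simp
    · intro j
      simp
  exact RingHom.congr_fun this a

private lemma crng_ker {Ω : Type} [Field Ω] (x : Fin n → Ω)
    (hx : ∀ i, MvPolynomial.aeval x (P i) = 0) (a : MvPolynomial (Fin n) ℤ)
    (ha : a ∈ Ideal.span (Set.range P)) :
    ((MvPolynomial.aeval x : MvPolynomial (Fin n) ℤ →ₐ[ℤ] Ω) : MvPolynomial (Fin n) ℤ →+* Ω) a = 0 := by
  have hle : Ideal.span (Set.range P) ≤ RingHom.ker
      ((MvPolynomial.aeval x : MvPolynomial (Fin n) ℤ →ₐ[ℤ] Ω) : MvPolynomial (Fin n) ℤ →+* Ω) := by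
    rw [Ideal.span_le]
    intro b hb
    obtain ⟨i, rfl⟩ := hb
    exact hx i
  exact hle ha

private lemma crng_frob {p r : ℕ} [Fact p.Prime] (τ : Equiv.Perm (Fin n))
    (x : Fin n → AlgebraicClosure (ZMod p)) (hx : ∀ j, x j ^ p ^ r = x (τ j))
    (a : MvPolynomial (Fin n) ℤ) :
    (MvPolynomial.aeval x a) ^ p ^ r = MvPolynomial.aeval x (MvPolynomial.rename τ a) := by
  have h1 : (iterateFrobenius (AlgebraicClosure (ZMod p)) p r).comp ((MvPolynomial.aeval x :
        MvPolynomial (Fin n) ℤ →ₐ[ℤ] AlgebraicClosure (ZMod p)) :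
        MvPolynomial (Fin n) ℤ →+* AlgebraicClosure (ZMod p)) =
      ((MvPolynomial.aeval x :
        MvPolynomial (Fin n) ℤ →ₐ[ℤ] AlgebraicClosure (ZMod p)) :
        MvPolynomial (Fin n) ℤ →+* AlgebraicClosure (ZMod p)).comp
        ((MvPolynomial.rename (R := ℤ) τ : MvPolynomial (Fin n) ℤ →ₐ[ℤ] MvPolynomial (Fin n) ℤ) :
          MvPolynomial (Fin n) ℤ →+* MvPolynomial (Fin n) ℤ) := by
    apply MvPolynomial.ringHom_ext
    · intro z
      simp
    · intro j
      simp only [RingHom.comp_apply, RingHom.coe_coe, MvPolynomial.aeval_X, MvPolynomial.rename_X]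
      rw [← hx j, iterateFrobenius_def]
  have h2 := RingHom.congr_fun h1 a
  simp only [RingHom.comp_apply, RingHom.coe_coe] at h2
  rw [iterateFrobenius_def] at h2
  exact h2

end

/-- The coordinate ring of the cone with its action.
PROOF: `B = ℤ[x_1..x_n] / (P)`; `g` acts by `rename (σ g)`, which maps the ideal into itself by `hst`
(`Ideal.span_le`); `MulSemiringAction.compHom` with a homomorphism `G →* RingAut B`
(`Ideal.quotientMap`, the inverse comes from `g⁻¹`). Ring homomorphisms `φ : B → Ω` correspond to the zeros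
`x`, `x_j = φ(X_j)`, and `φ(b)^q = φ(g b)` for all `b` is equivalent to `x_j ^ q = x_(g j)` for all `j` (both sides are
ring homomorphisms in `b`, `y ↦ y^q` is one in characteristic `p`). -/
theorem cone_ring {n m : ℕ} (P : Fin m → MvPolynomial (Fin n) ℤ) {G : Type} [Group G]
    (σ : G →* Equiv.Perm (Fin n))
    (hst : ∀ g i, MvPolynomial.rename (σ g) (P i) ∈ Ideal.span (Set.range P)) :
    ∃ (B : Type) (_ : CommRing B) (_ : MulSemiringAction G B), Algebra.FiniteType ℤ B ∧
      ∀ (g : G) (p r : ℕ) [Fact p.Prime], homCount B g p r = coneCount P (σ g) p r := by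
  refine ⟨MvPolynomial (Fin n) ℤ ⧸ Ideal.span (Set.range P), inferInstance, crngMSA P σ hst,
    crng_ft P, ?_⟩
  intro g p r _
  unfold homCount coneCount
  refine Nat.card_congr (Equiv.ofBijective (fun φ => ⟨fun j => φ.1 (Ideal.Quotient.mk _ (MvPolynomial.X j)),
    fun i => ?_, fun j => ?_⟩) ⟨?_, ?_⟩)
  · refine (crng_val P φ.1 (P i)).symm.trans ?_
    have h0 : Ideal.Quotient.mk (Ideal.span (Set.range P)) (P i) = 0 :=
      Ideal.Quotient.eq_zero_iff_mem.mpr (Ideal.subset_span ⟨i, rfl⟩)
    exact (congrArg φ.1 h0).trans (map_zero φ.1)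
  · have := φ.2 (Ideal.Quotient.mk _ (MvPolynomial.X j))
    rw [crng_smul, MvPolynomial.rename_X] at this
    exact this
  · intro φ ψ h
    apply Subtype.ext
    apply RingHom.ext
    intro b
    obtain ⟨a, rfl⟩ := Ideal.Quotient.mk_surjective b
    rw [crng_val P φ.1 a, crng_val P ψ.1 a]
    congr 2
    exact congrArg Subtype.val h
  · rintro ⟨x, hx, hxq⟩
    refine ⟨⟨Ideal.Quotient.lift _ ((MvPolynomial.aeval x :
          MvPolynomial (Fin n) ℤ →ₐ[ℤ] AlgebraicClosure (ZMod p)) :
          MvPolynomial (Fin n) ℤ →+* AlgebraicClosure (ZMod p)) (crng_ker P x hx), ?_⟩, ?_⟩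
    · intro b
      obtain ⟨a, rfl⟩ := Ideal.Quotient.mk_surjective b
      rw [crng_smul]
      change (MvPolynomial.aeval x a) ^ p ^ r = MvPolynomial.aeval x (MvPolynomial.rename (σ g) a)
      exact crng_frob (σ g) x hxq a
    · apply Subtype.ext
      funext j
      change MvPolynomial.aeval x (MvPolynomial.X j) = x j
      simp

end Pool.Agent.GPM
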