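import Pool.Agent.GPM.Defs
import Pool.Agent.HGC.Proj

/-! Module CTW: Hilbert 90 for lines -/

set_option autoImplicit false

open scoped BigOperators

namespace Pool.Agent.GPM

open Pool.Agent.HGC Pool.Agent.HGM

/-- the number of `(q-1)`-th roots -/
private theorem CTw_roots (p r : ℕ) [Fact p.Prime] (hr : 1 ≤ r)
    (c : AlgebraicClosure (ZMod p)) (hc : c ≠ 0) :
    Nat.card {a : AlgebraicClosure (ZMod p) // a ^ (p ^ r - 1) * c = 1} = p ^ r - 1 := by
  classical
  have hp := (Fact.out : p.Prime)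
  have hq : 1 < p ^ r := Nat.one_lt_pow (by omega) hp.one_lt
  have hqc : ((p ^ r - 1 : ℕ) : AlgebraicClosure (ZMod p)) ≠ 0 := by
    rw [Nat.cast_sub hq.le, Nat.cast_pow, CharP.cast_eq_zero, zero_pow (by omega), Nat.cast_one,
      zero_sub]
    exact neg_ne_zero.mpr one_ne_zero
  have hsep := Polynomial.separable_X_pow_sub_C c⁻¹ hqc (inv_ne_zero hc)
  have hcard := Polynomial.card_rootSet_eq_natDegree (K := AlgebraicClosure (ZMod p)) hsep
    (IsAlgClosed.splits _)
  rw [Polynomial.natDegree_X_pow_sub_C] at hcard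
  refine Eq.trans ?_ hcard
  rw [← Nat.card_eq_fintype_card]
  apply Nat.card_congr
  refine Equiv.subtypeEquivRight fun a => ?_
  rw [Polynomial.mem_rootSet_of_ne (Polynomial.X_pow_sub_C_ne_zero (by omega) _)]
  simp only [map_sub, map_pow, Polynomial.aeval_X, Polynomial.aeval_C, Algebra.algebraMap_self,
    RingHom.id_apply, sub_eq_zero]
  constructor
  · intro h
    exact eq_inv_of_mul_eq_one_left h
  · intro h
    rw [h]; exact inv_mul_cancel₀ hc

/-- iterating the twisted Frobenius -/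
private theorem CTw_iter {Ω : Type} [Field Ω] {n : ℕ} (g : Equiv.Perm (Fin n)) (q : ℕ)
    (x : Fin n → Ω) (hx : ∀ j, x j ^ q = x (g j)) (k : ℕ) (j : Fin n) :
    x j ^ q ^ k = x ((g ^ k) j) := by
  induction k generalizing j with
  | zero => simp
  | succ k ih =>
    rw [pow_succ', pow_mul, hx j, ih (g j), pow_succ, Equiv.Perm.mul_apply]

private theorem CTw_gen {Ω : Type} [Field Ω] {n m : ℕ} (P : Fin m → MvPolynomial (Fin n) ℤ)
    (hP : ∀ i, ∃ d, 1 ≤ d ∧ (P i).IsHomogeneous d) (g : Equiv.Perm (Fin n)) (q : ℕ) (hq : 1 < q)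
    (hroots : ∀ c : Ω, c ≠ 0 → Nat.card {a : Ω // a ^ (q - 1) * c = 1} = q - 1) :
    Nat.card {x : Fin n → Ω // (∀ i, MvPolynomial.aeval x (P i) = 0) ∧ ∀ j, x j ^ q = x (g j)} =
    1 + (q - 1) * Nat.card {v : Projectivization Ω (Fin n → Ω) //
      (∀ i, MvPolynomial.aeval v.rep (P i) = 0) ∧
        ∃ c : Ω, c ≠ 0 ∧ ∀ j, v.rep j ^ q = c * v.rep (g j)} := by
  classical
  let Cn := {x : Fin n → Ω // (∀ i, MvPolynomial.aeval x (P i) = 0) ∧ ∀ j, x j ^ q = x (g j)}
  let Tw := {v : Projectivization Ω (Fin n → Ω) // (∀ i, MvPolynomial.aeval v.rep (P i) = 0) ∧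
    ∃ c : Ω, c ≠ 0 ∧ ∀ j, v.rep j ^ q = c * v.rep (g j)}
  let cc : Tw → Ω := fun v => v.2.2.choose
  have hcc : ∀ v : Tw, cc v ≠ 0 ∧ ∀ j, v.1.rep j ^ q = cc v * v.1.rep (g j) :=
    fun v => v.2.2.choose_spec
  let Fib : Tw → Type := fun v => {a : Ω // a ^ (q - 1) * cc v = 1}
  have hfib : ∀ v, Nat.card (Fib v) = q - 1 := fun v => hroots (cc v) (hcc v).1
  have haq : ∀ (v : Tw) (a : Ω), a ^ (q - 1) * cc v = 1 → a ^ q * cc v = a := by
    intro v a ha
    rw [← pow_sub_one_mul (by omega : q ≠ 0) a]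
    calc a ^ (q - 1) * a * cc v = (a ^ (q - 1) * cc v) * a := by ring
      _ = a := by rw [ha, one_mul]
  have hane : ∀ (v : Tw) (a : Fib v), a.1 ≠ 0 := by
    intro v a h
    have h1 := a.2
    rw [h, zero_pow (by omega), zero_mul] at h1
    exact zero_ne_one h1
  let F : Option (Sigma Fib) → Cn := fun o =>
    match o with
    | none => ⟨0, fun i => by
        obtain ⟨d, hd, hh⟩ := hP i
        exact aeval_zero_of_isHomogeneous hd hh, fun j => by
        show (0 : Ω) ^ q = 0
        exact zero_pow (by omega)⟩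
    | some va => ⟨(va.2.1 : Ω) • va.1.1.rep, fun i => by
        obtain ⟨d, hd, hh⟩ := hP i
        rw [aeval_smul_of_isHomogeneous hh, va.1.2.1 i, mul_zero], fun j => by
        show (va.2.1 * va.1.1.rep j) ^ q = va.2.1 * va.1.1.rep (g j)
        rw [mul_pow, (hcc va.1).2 j, ← mul_assoc, haq va.1 va.2.1 va.2.2]⟩
  have hF : Function.Bijective F := by
    constructor
    · rintro (_ | ⟨v, a⟩) (_ | ⟨v', a'⟩) h
      · rfl
      · exfalso
        have h1 : (0 : Fin n → Ω) = a'.1 • v'.1.rep := congrArg Subtype.val h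
        exact (smul_ne_zero (hane v' a') v'.1.rep_nonzero) h1.symm
      · exfalso
        have h1 : a.1 • v.1.rep = (0 : Fin n → Ω) := congrArg Subtype.val h
        exact (smul_ne_zero (hane v a) v.1.rep_nonzero) h1
      · have h1 : a.1 • v.1.rep = a'.1 • v'.1.rep := congrArg Subtype.val h
        have h2 : v.1 = v'.1 := by
          rw [← v.1.mk_rep, ← v'.1.mk_rep, Projectivization.mk_eq_mk_iff']
          refine ⟨a.1⁻¹ * a'.1, ?_⟩
          rw [mul_smul, ← h1, smul_smul, inv_mul_cancel₀ (hane v a), one_smul]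
        have h2' : v = v' := Subtype.ext h2
        subst h2'
        have h3 : a.1 = a'.1 := by
          have h4 : (a.1 - a'.1) • v.1.rep = 0 := by rw [sub_smul, h1, sub_self]
          rcases smul_eq_zero.mp h4 with h5 | h5
          · exact sub_eq_zero.mp h5
          · exact absurd h5 v.1.rep_nonzero
        have h6 : a = a' := Subtype.ext h3
        rw [h6]
    · rintro ⟨x, hx, hxg⟩
      by_cases hx0 : x = 0
      · refine ⟨none, ?_⟩
        apply Subtype.ext
        exact hx0.symm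
      · obtain ⟨u, hu⟩ := Projectivization.exists_smul_eq_mk_rep Ω x hx0
        have hrep : (Projectivization.mk Ω x hx0).rep = (u : Ω) • x := hu.symm
        have hz : ∀ i, MvPolynomial.aeval (Projectivization.mk Ω x hx0).rep (P i) = 0 := by
          intro i
          obtain ⟨d, hd, hh⟩ := hP i
          rw [hrep, aeval_smul_of_isHomogeneous hh, hx i, mul_zero]
        have hc : ∃ c : Ω, c ≠ 0 ∧ ∀ j, (Projectivization.mk Ω x hx0).rep j ^ q =
            c * (Projectivization.mk Ω x hx0).rep (g j) := by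
          refine ⟨(u : Ω) ^ q * (u : Ω)⁻¹, mul_ne_zero (pow_ne_zero _ u.ne_zero)
            (inv_ne_zero u.ne_zero), fun j => ?_⟩
          rw [hrep]
          show ((u : Ω) * x j) ^ q = (u : Ω) ^ q * (u : Ω)⁻¹ * ((u : Ω) * x (g j))
          rw [mul_pow, hxg j]
          have : (u : Ω) ≠ 0 := u.ne_zero
          field_simp
        let v : Tw := ⟨Projectivization.mk Ω x hx0, hz, hc⟩
        obtain ⟨j0, hj0⟩ : ∃ j, v.1.rep j ≠ 0 := Function.ne_iff.mp v.1.rep_nonzero
        have hgj : ∃ j, v.1.rep (g j) ≠ 0 := ⟨g.symm j0, by rw [Equiv.apply_symm_apply]; exact hj0⟩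
        obtain ⟨j, hj⟩ := hgj
        have hxa : x = ((u : Ω)⁻¹) • v.1.rep := by
          show x = ((u : Ω)⁻¹) • (Projectivization.mk Ω x hx0).rep
          rw [hrep, smul_smul, inv_mul_cancel₀ u.ne_zero, one_smul]
        have ha : ((u : Ω)⁻¹) ^ (q - 1) * cc v = 1 := by
          have h1 := hxg j
          rw [hxa] at h1
          have h2 : ((u : Ω)⁻¹ * v.1.rep j) ^ q = (u : Ω)⁻¹ * v.1.rep (g j) := h1
          rw [mul_pow, (hcc v).2 j, ← mul_assoc] at h2
          have h3 : ((u : Ω)⁻¹) ^ q * cc v = (u : Ω)⁻¹ := mul_right_cancel₀ hj h2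
          rw [← pow_sub_one_mul (by omega : q ≠ 0)] at h3
          have h5 : ((u : Ω)⁻¹) ≠ 0 := inv_ne_zero u.ne_zero
          apply mul_right_cancel₀ h5
          rw [one_mul]
          calc ((u : Ω)⁻¹) ^ (q - 1) * cc v * (u : Ω)⁻¹
              = ((u : Ω)⁻¹) ^ (q - 1) * (u : Ω)⁻¹ * cc v := by ring
            _ = (u : Ω)⁻¹ := h3
        refine ⟨some ⟨v, ⟨(u : Ω)⁻¹, ha⟩⟩, ?_⟩
        apply Subtype.ext
        exact hxa.symm
  -- finiteness
  have hfinC : Finite Cn := by
    obtain ⟨N, hN, hgN⟩ : ∃ N, 0 < N ∧ g ^ N = 1 := ⟨orderOf g, orderOf_pos g, pow_orderOf_eq_one g⟩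
    have hqN : 1 < q ^ N := Nat.one_lt_pow (by omega) hq
    have hR : Finite {a : Ω // a ^ q ^ N = a} := by
      have h1 : (Polynomial.X ^ (q ^ N) - Polynomial.X : Polynomial Ω) ≠ 0 :=
        FiniteField.X_pow_card_sub_X_ne_zero Ω hqN
      have h2 : Set.Finite {a : Ω | (Polynomial.X ^ (q ^ N) - Polynomial.X : Polynomial Ω).IsRoot a} :=
        Polynomial.finite_setOfPred_isRoot h1
      refine Set.Finite.subset h2 ?_
      intro a ha
      have ha' : a ^ q ^ N = a := ha
      show Polynomial.eval a _ = 0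
      simp [ha']
    let e : Cn → (Fin n → {a : Ω // a ^ q ^ N = a}) := fun x j => ⟨x.1 j, by
      rw [CTw_iter g q x.1 x.2.2 N j, hgN]; rfl⟩
    refine Finite.of_injective e ?_
    intro x y h
    apply Subtype.ext
    funext j
    exact congrArg Subtype.val (congrFun h j)
  have hfinO : Finite (Option (Sigma Fib)) := Finite.of_injective F hF.1
  have hfinS : Finite (Sigma Fib) := Finite.of_injective (some : Sigma Fib → Option (Sigma Fib))
    (Option.some_injective _)
  have hfinT : Finite Tw := by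
    have hsur : Function.Surjective (fun s : Sigma Fib => s.1) := by
      intro v
      have h1 : Nat.card (Fib v) ≠ 0 := by rw [hfib v]; omega
      obtain ⟨a⟩ : Nonempty (Fib v) := (Nat.card_ne_zero.mp h1).1
      exact ⟨⟨v, a⟩, rfl⟩
    exact Finite.of_surjective _ hsur
  have hfinF : ∀ v, Finite (Fib v) := fun v => (Nat.card_ne_zero.mp (by rw [hfib v]; omega)).2
  have _ := Fintype.ofFinite Tw
  have hc1 : Nat.card Cn = 1 + (q - 1) * Nat.card Tw := by
    rw [← Nat.card_congr (Equiv.ofBijective F hF), Finite.card_option, Nat.card_sigma,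
      Finset.sum_congr rfl (fun v _ => hfib v), Finset.sum_const, Finset.card_univ,
      ← Nat.card_eq_fintype_card, smul_eq_mul]
    ring
  exact hc1

/-- Hilbert 90 for lines: the cone over a projective scheme. -/
theorem cone_tw {n m : ℕ} (P : Fin m → MvPolynomial (Fin n) ℤ)
    (hP : ∀ i, ∃ d, 1 ≤ d ∧ (P i).IsHomogeneous d) (g : Equiv.Perm (Fin n)) (p r : ℕ) [Fact p.Prime]
    (hr : 1 ≤ r) :
    (coneCount P g p r : ℤ) = 1 + ((p : ℤ) ^ r - 1) * (twCount P g p r : ℤ) := by
  have hp := (Fact.out : p.Prime)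
  have hq : 1 < p ^ r := Nat.one_lt_pow (by omega) hp.one_lt
  have h1 : coneCount P g p r = 1 + (p ^ r - 1) * twCount P g p r :=
    CTw_gen (Ω := AlgebraicClosure (ZMod p)) P hP g (p ^ r) hq (fun c hc => CTw_roots p r hr c hc)
  have h2 : ((p ^ r - 1 : ℕ) : ℤ) = (p : ℤ) ^ r - 1 := by
    rw [Nat.cast_sub hq.le]; push_cast; rfl
  rw [h1, Nat.cast_add, Nat.cast_mul, h2, Nat.cast_one]

end Pool.Agent.GPM
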