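import Pool.Agent.GPM.Defs

/-! Module CONJ: homomorphisms with the same restriction to the invariants are conjugate -/

set_option autoImplicit false

open scoped BigOperators

namespace Pool.Agent.GPM

open Pool.Agent.HGC Pool.Agent.HGM

/-- pointwise version over a domain -/
private theorem conj_pt {B : Type} [CommRing B] {G : Type} [Group G] [Fintype G]
    [MulSemiringAction G B] {Ω : Type} [CommRing Ω] [IsDomain Ω] (ψ ψ' : B →+* Ω)
    (h : ∀ b : B, (∀ g : G, g • b = b) → ψ b = ψ' b) (b : B) : ∃ g : G, ψ' b = ψ (g • b) := by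
  have hmap : (MulSemiringAction.charpoly G b).map ψ = (MulSemiringAction.charpoly G b).map ψ' := by
    ext n
    rw [Polynomial.coeff_map, Polynomial.coeff_map]
    exact h _ fun g => MulSemiringAction.smul_coeff_charpoly b n g
  have h0 : ((MulSemiringAction.charpoly G b).map ψ').eval (ψ' b) = 0 := by
    rw [Polynomial.eval_map, Polynomial.eval₂_at_apply, MulSemiringAction.eval_charpoly, map_zero]
  rw [← hmap, MulSemiringAction.charpoly_eq, Polynomial.map_prod, Polynomial.eval_prod,
    Finset.prod_eq_zero_iff] at h0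
  obtain ⟨g, -, hg⟩ := h0
  refine ⟨g, ?_⟩
  rw [Polynomial.map_sub, Polynomial.map_X, Polynomial.map_C, Polynomial.eval_sub,
    Polynomial.eval_X, Polynomial.eval_C] at hg
  exact sub_eq_zero.1 hg

variable {A : Type} [CommRing A] {G : Type} [Group G] [Fintype G] [MulSemiringAction G A]

/-- Two homomorphisms to a field which agree on the invariants are conjugate.
PROOF: let `a_1, ..., a_n` generate `A` as a ring, `a(T) = ∑ a_i T^i` in `A[T]`, on which `G` acts on the
coefficients. The coefficients of `F(X) = ∏_g (X - g a(T))` in `X` are invariant, so they are in `A^G[T]`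
(invariant polynomials have invariant coefficients), and the coefficientwise maps
`φ_T, φ'_T : A[T] → Ω[T]` have the same effect on the coefficients of `F`: from `F(a(T)) = 0` (apply `φ'_T`) one
gets `∏_g (φ'_T(a(T)) - φ_T(g a(T))) = 0` in the domain `Ω[T]`. Hence
`φ'_T(a(T)) = φ_T(g a(T))` for some `g`; compare the coefficients: `φ'(a_i) = φ(g a_i)` for all `i`, so
`φ' = φ ∘ g` (two ring homomorphisms which agree on generators). -/
theorem conj_hom (hA : Algebra.FiniteType ℤ A) {Ω : Type} [Field Ω] (φ φ' : A →+* Ω)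
    (h : ∀ b ∈ FixedPoints.subring A G, φ b = φ' b) : ∃ g : G, ∀ a, φ' a = φ (g • a) := by
  classical
  obtain ⟨s, hs⟩ := hA.out
  obtain ⟨n, e⟩ : ∃ n : ℕ, Nonempty (Fin n ≃ s) := ⟨_, ⟨s.equivFin.symm⟩⟩
  obtain ⟨e⟩ := e
  set P : Polynomial A := ∑ i : Fin n, Polynomial.C ((e i : s) : A) * Polynomial.X ^ (i : ℕ) with hP
  have hcoef : ∀ i : Fin n, P.coeff (i : ℕ) = ((e i : s) : A) := by
    intro i
    rw [hP, Polynomial.finset_sum_coeff, Finset.sum_eq_single i]
    · rw [Polynomial.coeff_C_mul, Polynomial.coeff_X_pow, if_pos rfl, mul_one]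
    · intro j _ hj
      rw [Polynomial.coeff_C_mul, Polynomial.coeff_X_pow, if_neg, mul_zero]
      intro hij
      exact hj (Fin.ext hij.symm)
    · intro hi
      exact absurd (Finset.mem_univ i) hi
  obtain ⟨g, hg⟩ := conj_pt (G := G) (Polynomial.mapRingHom φ) (Polynomial.mapRingHom φ')
    (by
      intro b hb
      ext m
      rw [Polynomial.coe_mapRingHom, Polynomial.coe_mapRingHom, Polynomial.coeff_map,
        Polynomial.coeff_map]
      refine h _ fun g => ?_
      rw [← Polynomial.coeff_smul, hb g]) P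
  refine ⟨g, ?_⟩
  have key : φ'.toIntAlgHom = (φ.comp (MulSemiringAction.toRingHom G A g)).toIntAlgHom := by
    refine AlgHom.ext_of_adjoin_eq_top hs ?_
    intro a ha
    have h1 : ((e (e.symm ⟨a, ha⟩) : s) : A) = a := by rw [Equiv.apply_symm_apply]
    have h2 := congrArg (fun Q : Polynomial Ω => Q.coeff ((e.symm ⟨a, ha⟩ : Fin n) : ℕ)) hg
    simp only [Polynomial.coe_mapRingHom, Polynomial.coeff_map, Polynomial.coeff_smul, hcoef,
      h1] at h2
    exact h2
  intro a
  exact congrArg (fun f : A →ₐ[ℤ] Ω => f a) key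

end Pool.Agent.GPM
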