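import Pool.Agent.HGM.Defs

/-!
# Motives cut out by finite groups: definitions

A finite group `G` acts on a projective scheme over `ℤ` by permuting the homogeneous coordinates, and
`ρ` is an integral representation of `G`.  The twisted numbers of points of the scheme, averaged with the
character of `ρ`, are the traces of the powers of Frobenius on the `ρ`-part of the cohomology.
-/

set_option autoImplicit false

open scoped BigOperators LinearAlgebra.Projectivization

namespace Pool.Agent.GPM

open Pool.Agent.HGC Pool.Agent.HGM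

/-- The number of points `v` over the algebraic closure of `F_p` of the projective scheme given by the
homogeneous polynomials `P i` with `Frob_q (v) = g (v)`, `q = p ^ r`, where `g` permutes the homogeneous
coordinates: `[v_j ^ q] = [v_(g j)]`. -/
noncomputable def twCount {n m : ℕ} (P : Fin m → MvPolynomial (Fin n) ℤ) (g : Equiv.Perm (Fin n))
    (p r : ℕ) [Fact p.Prime] : ℕ :=
  Nat.card {v : ℙ (AlgebraicClosure (ZMod p)) (Fin n → AlgebraicClosure (ZMod p)) //
    (∀ i, MvPolynomial.aeval v.rep (P i) = 0) ∧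
      ∃ c : AlgebraicClosure (ZMod p), c ≠ 0 ∧ ∀ j, v.rep j ^ p ^ r = c * v.rep (g j)}

/-- A projective scheme over `ℤ` in projective space with `n` homogeneous coordinates, with an action of
a finite group `G` by permutations of the coordinates, and an integral representation of `G`. -/
structure Datum where
  /-- number of homogeneous coordinates -/
  n : ℕ
  /-- number of equations -/
  m : ℕ
  /-- the equations -/
  P : Fin m → MvPolynomial (Fin n) ℤ
  /-- they are homogeneous of positive degree -/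
  hom : ∀ i, ∃ d, 1 ≤ d ∧ (P i).IsHomogeneous d
  /-- the group -/
  G : Type
  [grp : Group G]
  [fin : Fintype G]
  /-- the action on the coordinates -/
  σ : G →* Equiv.Perm (Fin n)
  /-- the scheme is stable under the group -/
  stable : ∀ g i, MvPolynomial.rename (σ g) (P i) ∈ Ideal.span (Set.range P)
  /-- rank of the representation -/
  k : ℕ
  /-- the representation -/
  ρ : G →* Matrix (Fin k) (Fin k) ℤ

attribute [instance] Datum.grp Datum.fin

/-- The function `q ↦ |G|⁻¹ ∑_g tr ρ(g) #{x ∈ X : Frob_q x = g x}`, `q = p ^ r`. -/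
noncomputable def Datum.count (X : Datum) : PF := fun p r =>
  haveI : Fact (p : ℕ).Prime := ⟨p.2⟩
  (∑ g : X.G, (((X.ρ g).trace : ℤ) : ℂ) * (twCount X.P (X.σ g) p r : ℂ)) / (Fintype.card X.G : ℂ)

/-! ### auxiliary definitions, not used in the statement -/

/-- `f` is, up to a power of `q` and a polynomial in `q`, the number of points of an affine scheme. -/
def InZ (f : PF) : Prop :=
  ∃ (K n m : ℕ) (P : Fin m → MvPolynomial (Fin n) ℤ) (R : Polynomial ℤ),
    ∀ (p : Nat.Primes) (r : ℕ), 1 ≤ r → (((p : ℕ) : ℂ) ^ r) ^ K * f p r =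
      countPF (affCount P) p r + ((R.eval (((p : ℕ) : ℤ) ^ r) : ℤ) : ℂ)

/-- `f` is approximated by functions of the class `InZ` with errors `O(q ^ (-D))`, for every `D`. -/
def InW (f : PF) : Prop :=
  ∀ D : ℕ, ∃ z : PF, InZ z ∧ ∃ C : ℝ, ∀ (p : Nat.Primes) (r : ℕ), 1 ≤ r →
    ‖f p r - z p r‖ * (((p : ℕ) : ℝ) ^ r) ^ D ≤ C

/-- `f = O(q ^ A)`. -/
def Pol (A : ℕ) (f : PF) : Prop :=
  ∃ C : ℝ, ∀ (p : Nat.Primes) (r : ℕ), 1 ≤ r → ‖f p r‖ ≤ C * (((p : ℕ) : ℝ) ^ r) ^ A

/-- The number of points of the affine cone with `Frob_q x = g x`. -/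
noncomputable def coneCount {n m : ℕ} (P : Fin m → MvPolynomial (Fin n) ℤ) (g : Equiv.Perm (Fin n))
    (p r : ℕ) [Fact p.Prime] : ℕ :=
  Nat.card {x : Fin n → AlgebraicClosure (ZMod p) //
    (∀ i, MvPolynomial.aeval x (P i) = 0) ∧ ∀ j, x j ^ p ^ r = x (g j)}

/-- The number of points `t` of the torus with character lattice `ℤ^k` with `Frob_q t = t ∘ M`. -/
noncomputable def torCount {k : ℕ} (M : Matrix (Fin k) (Fin k) ℤ) (p r : ℕ) [Fact p.Prime] : ℕ :=
  Nat.card {t : Multiplicative (Fin k → ℤ) →* (AlgebraicClosure (ZMod p))ˣ //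
    ∀ ν : Fin k → ℤ, t (Multiplicative.ofAdd ν) ^ p ^ r = t (Multiplicative.ofAdd (M.mulVec ν))}

/-- Ring homomorphisms `φ` from `A` to the algebraic closure of `F_p` with `Frob_q ∘ φ = φ ∘ g`. -/
noncomputable def homCount (A : Type) [CommRing A] {G : Type} [Group G] [MulSemiringAction G A] (g : G)
    (p r : ℕ) [Fact p.Prime] : ℕ :=
  Nat.card {φ : A →+* AlgebraicClosure (ZMod p) // ∀ a, φ a ^ p ^ r = φ (g • a)}

end Pool.Agent.GPM
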