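import Pool.Agent.GPM.Rec
import Pool.Agent.GPM.Sp

/-!
# The final theorem
-/

set_option autoImplicit false

open scoped BigOperators

namespace Pool.Agent.GPM

open Pool.Agent.HGC Pool.Agent.HGM

theorem inW_mulq {f : PF} (hf : InW f) : InW fun p r => ((p : ℕ) : ℂ) ^ r * f p r := by
  intro D
  obtain ⟨z, hz, C, hC⟩ := hf (D + 1)
  refine ⟨fun p r => ((p : ℕ) : ℂ) ^ r * z p r, hz.mulq, C, fun p r hr => ?_⟩
  have h1 : ‖((p : ℕ) : ℂ) ^ r * f p r - ((p : ℕ) : ℂ) ^ r * z p r‖ * (((p : ℕ) : ℝ) ^ r) ^ D =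
      ‖f p r - z p r‖ * (((p : ℕ) : ℝ) ^ r) ^ (D + 1) := by
    rw [← mul_sub, norm_mul, norm_pow, Complex.norm_natCast]
    ring
  rw [h1]
  exact hC p r hr

theorem inW_mulq_pow {f : PF} (hf : InW f) (b : ℕ) :
    InW fun p r => (((p : ℕ) : ℂ) ^ r) ^ b * f p r := by
  induction b with
  | zero => exact InW.congr (fun p r _ => by simp) hf
  | succ b ih => exact InW.congr (fun p r _ => by ring) (inW_mulq ih)

theorem main (t : ℕ) (X : Fin t → Datum) (a : Fin t → ℤ) (b : Fin t → ℕ) :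
    ∃ (h : HG) (M : ℕ) (κ : ℤ → ℤ), ZDeg 3 h.edges ∧ (∀ i, Odd i → κ i = 0) ∧
      ∀ μ ν : Nat.Primes → ℂ →₀ ℤ,
        IsSpectrum (fun p r => ∑ j, (a j : ℂ) * (((p : ℕ) : ℂ) ^ r) ^ b j * (X j).count p r) μ →
        IsSpectrum (countPF (multiCount h.edges)) ν →
        ∀ (S : Set Nat.Primes) (φ : PF) (i c : ℤ), 0 ≤ i →
          (Continues (lfun S φ μ i c) ↔
            Continues (lfun S (shift M φ) ν (i + 2 * M) (c + κ i))) ∧
          (Entire (lfun S φ μ i c) ↔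
            Entire (lfun S (shift M φ) ν (i + 2 * M) (c + κ i))) := by
  have hW : InW fun p r => ∑ j, (a j : ℂ) * (((p : ℕ) : ℂ) ^ r) ^ b j * (X j).count p r :=
    InW.sum Finset.univ (fun j p r => (a j : ℂ) * (((p : ℕ) : ℂ) ^ r) ^ b j * (X j).count p r)
      fun j _ => InW.congr (fun p r _ => by ring) (InW.zsmul (a j) (inW_mulq_pow (X j).inW (b j)))
  obtain ⟨h, M, κ, h1, h2, h3⟩ := hW.hypersurface
  refine ⟨h, M, κ, h1, h2, fun μ ν hμ hν S φ i c hi => ?_⟩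
  rw [h3 μ ν hμ hν S φ i c hi, continues_shift_iff, entire_shift_iff]
  exact ⟨Iff.rfl, Iff.rfl⟩

end Pool.Agent.GPM
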