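import Pool.Agent.GPM.App2
import Pool.Agent.GPM.Final

/-!
# The exact formula: weight parts as signed sums of shifted weight parts of a family
-/

set_option autoImplicit false

open scoped BigOperators

namespace Pool.Agent.GPM

open Pool.Agent.HGC Pool.Agent.HGM Pool.Agent.HGC.LocWAux

section

variable {ι : Type} {g : ι → PF}

theorem sum_flatMap_list {α : Type} (l : List α) (f : α → List ℂ) :
    (l.flatMap f).sum = (l.map fun a => (f a).sum).sum := by
  induction l with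
  | nil => simp
  | cons a l ih => rw [List.flatMap_cons, List.sum_append, ih, List.map_cons, List.sum_cons]

/-- A combination as a signed sum. -/
theorem Comb.signed {z : PF} (hz : Comb g z) :
    ∃ (K n : ℕ) (G : Fin n → ι) (c : Fin n → ℤ) (e : Fin n → ℕ) (R : Polynomial ℤ),
      (∀ j, c j = 1 ∨ c j = -1) ∧
      ∀ (p : Nat.Primes) (r : ℕ), 1 ≤ r → (((p : ℕ) : ℂ) ^ r) ^ K * z p r =
        (∑ j, (c j : ℂ) * ((((p : ℕ) : ℂ) ^ r) ^ e j * g (G j) p r)) + pq R p r := by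
  classical
  obtain ⟨K, s, c, R, h⟩ := hz
  -- the statement for one integral multiple
  have key : ∀ (L : List (ℤ × ℕ × ι)), ∃ (n : ℕ) (G : Fin n → ι) (c : Fin n → ℤ) (e : Fin n → ℕ),
      (∀ j, c j = 1 ∨ c j = -1) ∧ ∀ F : ℕ → ι → ℂ,
        (L.map fun x => (x.1 : ℂ) * F x.2.1 x.2.2).sum = ∑ j, (c j : ℂ) * F (e j) (G j) := by
    intro L
    induction L with
    | nil => exact ⟨0, Fin.elim0, Fin.elim0, Fin.elim0, fun j => j.elim0, fun F => by simp⟩
    | cons x L ih =>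
      obtain ⟨n, G, c, e, h1, h2⟩ := ih
      -- add `|x.1|` copies
      have key2 : ∀ k : ℕ, ∀ ε : ℤ, (ε = 1 ∨ ε = -1) → ∃ (n : ℕ) (G : Fin n → ι) (c : Fin n → ℤ)
          (e : Fin n → ℕ), (∀ j, c j = 1 ∨ c j = -1) ∧ ∀ F : ℕ → ι → ℂ,
          ((k : ℤ) * ε : ℤ) * F x.2.1 x.2.2 + (L.map fun x => (x.1 : ℂ) * F x.2.1 x.2.2).sum =
            ∑ j, (c j : ℂ) * F (e j) (G j) := by
        intro k ε hε
        induction k with
        | zero => exact ⟨n, G, c, e, h1, fun F => by simp [h2 F]⟩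
        | succ k ihk =>
          obtain ⟨n', G', c', e', h1', h2'⟩ := ihk
          refine ⟨n' + 1, Fin.cons x.2.2 G', Fin.cons ε c', Fin.cons x.2.1 e', fun j => ?_, fun F => ?_⟩
          · refine Fin.cases ?_ (fun j => ?_) j
            · simpa using hε
            · simpa using h1' j
          · rw [Fin.sum_univ_succ]
            simp only [Fin.cons_zero, Fin.cons_succ]
            rw [← h2' F]
            push_cast
            ring
      obtain ⟨k, hk | hk⟩ := x.1.eq_nat_or_neg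
      · obtain ⟨n', G', c', e', h1', h2'⟩ := key2 k 1 (Or.inl rfl)
        refine ⟨n', G', c', e', h1', fun F => ?_⟩
        rw [← h2' F, List.map_cons, List.sum_cons, hk, mul_one]
      · obtain ⟨n', G', c', e', h1', h2'⟩ := key2 k (-1) (Or.inr rfl)
        refine ⟨n', G', c', e', h1', fun F => ?_⟩
        rw [← h2' F, List.map_cons, List.sum_cons, hk]
        push_cast
        ring
  -- the list
  obtain ⟨L, hL⟩ : ∃ L : List (ℤ × ℕ × ι), ∀ F : ℕ → ι → ℂ,
      (L.map fun x => (x.1 : ℂ) * F x.2.1 x.2.2).sum =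
        ∑ i ∈ s, ∑ j ∈ (c i).support, ((c i).coeff j : ℂ) * F j i := by
    refine ⟨s.toList.flatMap fun i => (c i).support.toList.map fun j => ((c i).coeff j, j, i),
      fun F => ?_⟩
    rw [← Finset.sum_map_toList, List.map_flatMap, sum_flatMap_list]
    congr 1
    refine List.map_congr_left fun i _ => ?_
    rw [← Finset.sum_map_toList, List.map_map]
    rfl
  obtain ⟨n, G, c', e, h1, h2⟩ := key L
  refine ⟨K, n, G, c', e, R, h1, fun p r hr => ?_⟩
  have e1 := (hL fun j i => (((p : ℕ) : ℂ) ^ r) ^ j * g i p r).symm.trans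
    (h2 fun j i => (((p : ℕ) : ℂ) ^ r) ^ j * g i p r)
  beta_reduce at e1
  rw [h p r hr, ← e1, pq]
  congr 1
  refine Finset.sum_congr rfl fun i _ => ?_
  rw [Polynomial.eval_eq_sum, Polynomial.sum_def]
  push_cast
  rw [Finset.sum_mul]
  exact Finset.sum_congr rfl fun j _ => by ring

/-- The exact formula. -/
theorem InB.exact {f : PF} (hf : InB g f) :
    ∃ (K n : ℕ) (G : Fin n → ι) (c : Fin n → ℤ) (e : Fin n → ℕ) (κ : ℤ → ℤ),
      (∀ j, c j = 1 ∨ c j = -1) ∧ (∀ i, Odd i → κ i = 0) ∧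
      ∀ (μ : Nat.Primes → ℂ →₀ ℤ) (ν : Fin n → Nat.Primes → ℂ →₀ ℤ), IsSpectrum f μ →
        (∀ j, IsSpectrum (g (G j)) (ν j)) → ∀ i : ℤ, 0 ≤ i → ∀ (p : Nat.Primes) (r : ℕ),
          (((p : ℕ) : ℂ) ^ r) ^ K * weightPart μ i p r =
            (∑ j, (c j : ℂ) * ((((p : ℕ) : ℂ) ^ r) ^ e j *
              weightPart (ν j) (i + 2 * K - 2 * e j) p r)) +
              (κ i : ℂ) * (((p : ℕ) : ℂ) ^ (i / 2 + K)) ^ r := by
  classical
  obtain ⟨z, hz, C, hC⟩ := hf 1
  obtain ⟨K, n, G, c, e, R, hc, hz⟩ := hz.signed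
  refine ⟨K, n, G, c, e, fun i => if Even i then R.coeff (i / 2 + K).toNat else 0, hc,
    fun i hi => if_neg (Int.not_even_iff_odd.2 hi), fun μ ν hμ hν w hw p r => ?_⟩
  set d : ℂ →₀ ℤ := scale (((p : ℕ) : ℂ) ^ K) (μ p) +
    -((∑ j, c j • scale (((p : ℕ) : ℂ) ^ e j) (ν j p)) + polySp p R) with hd
  have hp1 : (1 : ℝ) < ((p : ℕ) : ℝ) := by exact_mod_cast p.2.one_lt
  have hp0 : (0 : ℝ) < ((p : ℕ) : ℝ) := by linarith
  have h1 : wt (p : ℕ) (w + 2 * K) d = 0 := by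
    ext a
    by_cases ha : ‖a‖ = ((p : ℕ) : ℝ) ^ (((w + 2 * K : ℤ) : ℝ) / 2)
    · rw [wt_apply_pos ha, Finsupp.zero_apply]
      refine growth' (R := ((p : ℕ) : ℝ) ^ K / ((p : ℕ) : ℝ)) (C0 := C) (by positivity)
        (fun t ht => ?_) ?_
      · have h2 : ev (μ p) t = f p t := (hμ p t ht).symm
        have h3 : ∀ j, ev (ν j p) t = g (G j) p t := fun j => (hν j p t ht).symm
        have h4 := hC p t ht
        have h5 := hz p t ht
        rw [hd, ev_add, ev_neg, ev_add, ev_scale, h2, ev_polySp, ev_sum]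
        have h6 : ∑ j, ev (c j • scale (((p : ℕ) : ℂ) ^ e j) (ν j p)) t =
            ∑ j, (c j : ℂ) * ((((p : ℕ) : ℂ) ^ t) ^ e j * g (G j) p t) :=
          Finset.sum_congr rfl fun j _ => by
            rw [ev_zsmul, ev_scale, h3 j, ← pow_mul, ← pow_mul, mul_comm (e j) t]
        rw [h6]
        have h6' : (((Polynomial.eval (((p : ℕ) : ℤ) ^ t) R : ℤ)) : ℂ) = pq R p t := rfl
        rw [h6', ← h5]
        have h7 : (((p : ℕ) : ℂ) ^ K) ^ t * f p t + -((((p : ℕ) : ℂ) ^ t) ^ K * z p t) =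
            (((p : ℕ) : ℂ) ^ t) ^ K * (f p t - z p t) := by
          rw [← pow_mul, ← pow_mul, mul_comm K t]
          ring
        rw [h7, norm_mul, norm_pow, norm_pow, Complex.norm_natCast]
        have h8 : (((p : ℕ) : ℝ) ^ t) ^ K =
            (((p : ℕ) : ℝ) ^ K / ((p : ℕ) : ℝ)) ^ t * ((p : ℕ) : ℝ) ^ t := by
          rw [← mul_pow, div_mul_cancel₀ _ hp0.ne', ← pow_mul, ← pow_mul, mul_comm]
        rw [pow_one] at h4
        rw [h8, mul_comm C, mul_assoc, mul_comm (((p : ℕ) : ℝ) ^ t)]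
        exact mul_le_mul_of_nonneg_left h4 (by positivity)
      · rw [ha]
        have h7 : (0 : ℝ) ≤ w := by exact_mod_cast hw
        have h8 : ((p : ℕ) : ℝ) ^ K ≤ ((p : ℕ) : ℝ) ^ (((w + 2 * K : ℤ) : ℝ) / 2) := by
          rw [← Real.rpow_natCast]
          refine Real.rpow_le_rpow_of_exponent_le hp1.le ?_
          push_cast
          linarith
        have h9 : (0 : ℝ) < ((p : ℕ) : ℝ) ^ K := by positivity
        rw [div_lt_iff₀ hp0]
        nlinarith
    · rw [wt_apply_neg ha, Finsupp.zero_apply]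
  have h2 : scale (((p : ℕ) : ℂ) ^ K) (wt (p : ℕ) w (μ p)) =
      (∑ j, c j • scale (((p : ℕ) : ℂ) ^ e j) (wt (p : ℕ) (w + 2 * K - 2 * e j) (ν j p))) +
        wt (p : ℕ) (w + 2 * K) (polySp p R) := by
    rw [hd, wt_add, wt_neg, wt_add, scale_pow_wt p.2, wt_sum,
      show w + 2 * (K : ℤ) - 2 * K = w by ring] at h1
    have h3 := eq_neg_of_add_eq_zero_left h1
    rw [h3, neg_neg]
    congr 1
    refine Finset.sum_congr rfl fun j _ => ?_
    rw [wt_zsmul, scale_pow_wt p.2]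
  have h3 := congrArg (fun x => ev x r) h2
  simp only [ev_scale, ev_add, ev_sum, ev_zsmul] at h3
  rw [weightPart_eq, ← pow_mul, mul_comm r K, pow_mul, h3]
  congr 1
  · refine Finset.sum_congr rfl fun j _ => ?_
    rw [weightPart_eq, ← pow_mul, ← pow_mul, mul_comm (e j) r]
  · beta_reduce
    by_cases he : Even w
    · obtain ⟨u, hu⟩ := he
      obtain ⟨k, hk⟩ : ∃ k : ℕ, u + K = k := ⟨(u + K).toNat, by omega⟩
      have h6 : w + 2 * (K : ℤ) = 2 * (k : ℤ) := by omega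
      have h7 : w / 2 + (K : ℤ) = k := by omega
      rw [h6, wt_polySp, if_pos ⟨u, hu⟩, h7, Int.toNat_natCast, zpow_natCast]
    · rw [if_neg he, wt_polySp_odd p R (by
        rw [Int.odd_add, iff_true_intro (even_two_mul (K : ℤ)), iff_true]
        exact Int.not_even_iff_odd.1 he)]
      simp

/-- Transfer to all functions of group type. -/
theorem exact_main (hg : ∀ (n m : ℕ) (P : Fin m → MvPolynomial (Fin n) ℤ),
    InB g (countPF (affCount P))) (t : ℕ) (X : Fin t → Datum) (a : Fin t → ℤ) (b : Fin t → ℕ) :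
    ∃ (K n : ℕ) (G : Fin n → ι) (c : Fin n → ℤ) (e : Fin n → ℕ) (κ : ℤ → ℤ),
      (∀ j, c j = 1 ∨ c j = -1) ∧ (∀ i, Odd i → κ i = 0) ∧
      ∀ (μ : Nat.Primes → ℂ →₀ ℤ) (ν : Fin n → Nat.Primes → ℂ →₀ ℤ),
        IsSpectrum (fun p r => ∑ j, (a j : ℂ) * (((p : ℕ) : ℂ) ^ r) ^ b j * (X j).count p r) μ →
        (∀ j, IsSpectrum (g (G j)) (ν j)) → ∀ i : ℤ, 0 ≤ i → ∀ (p : Nat.Primes) (r : ℕ),
          (((p : ℕ) : ℂ) ^ r) ^ K * weightPart μ i p r =
            (∑ j, (c j : ℂ) * ((((p : ℕ) : ℂ) ^ r) ^ e j *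
              weightPart (ν j) (i + 2 * K - 2 * e j) p r)) +
              (κ i : ℂ) * (((p : ℕ) : ℂ) ^ (i / 2 + K)) ^ r := by
  have hW : InW fun p r => ∑ j, (a j : ℂ) * (((p : ℕ) : ℂ) ^ r) ^ b j * (X j).count p r :=
    InW.sum Finset.univ (fun j p r => (a j : ℂ) * (((p : ℕ) : ℂ) ^ r) ^ b j * (X j).count p r)
      fun j _ => InW.congr (fun p r _ => by ring) (InW.zsmul (a j) (inW_mulq_pow (X j).inW (b j)))
  exact (InB.of_inW hg hW).exact

end

end Pool.Agent.GPM
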