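import Pool.Agent.GPM.Defs

/-! Module EXTP: exterior powers of an integral representation -/

set_option autoImplicit false

open scoped BigOperators

namespace Pool.Agent.GPM

open Pool.Agent.HGC Pool.Agent.HGM

private theorem ExtP_entry {k : ℕ} (A : Matrix (Fin k) (Fin k) ℤ) (j : ℕ)
    (s : Set.powersetCard (Fin k) j) :
    (((Pi.basisFun ℤ (Fin k)).exteriorPower j).repr
      (exteriorPower.map j (Matrix.toLin' A) ((Pi.basisFun ℤ (Fin k)).exteriorPower j s))) s =
      (A.submatrix (fun i : (s : Finset (Fin k)) => (i : Fin k))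
        fun i : (s : Finset (Fin k)) => (i : Fin k)).det := by
  rw [exteriorPower.basis_repr_apply, exteriorPower.basis_apply,
    exteriorPower.map_apply_ιMulti_family, exteriorPower.ιMulti_family,
    exteriorPower.ιMultiDual_apply_ιMulti]
  let e : Fin j ≃ (s : Finset (Fin k)) := ((s : Finset (Fin k)).orderIsoOfFin s.prop).toEquiv
  rw [← Matrix.det_submatrix_equiv_self e, ← Matrix.det_transpose]
  congr 1
  ext a b
  simp only [Matrix.transpose_apply, Matrix.submatrix_apply, Matrix.of_apply,
    Module.Basis.coord_apply, Function.comp_apply, Pi.basisFun_apply, Pi.basisFun_repr,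
    Matrix.toLin'_apply, Matrix.mulVec_single_one, Matrix.col_apply,
    Set.powersetCard.ofFinEmbEquiv_symm_apply]
  rfl

private noncomputable def ExtP_hom {G : Type} [Group G] {k : ℕ} (ρ : G →* Matrix (Fin k) (Fin k) ℤ)
    (j : ℕ) : G →* Module.End ℤ (⋀[ℤ]^j (Fin k → ℤ)) where
  toFun g := exteriorPower.map j (Matrix.toLin' (ρ g))
  map_one' := by
    rw [map_one, Matrix.toLin'_one, exteriorPower.map_id]
    rfl
  map_mul' g h := by
    rw [map_mul, Matrix.toLin'_mul, exteriorPower.map_comp]
    rfl

/-- Exterior powers of an integral matrix representation.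
PROOF: `exteriorPower.map j` of the endomorphism `ρ(g)` of `ℤ^k` in the basis `Module.Basis.exteriorPower` of
`⋀[ℤ]^j (Fin k → ℤ)`: `LinearMap.toMatrix` is multiplicative, `exteriorPower.map_comp`; the basis is indexed
by a finite type, which is reindexed by `Fin kk` (`Matrix.reindex` keeps the trace). The diagonal entry of the
`j`-element subset `s` is the principal minor of `s` (`exteriorPower.basis_repr_apply` or `basis_coord`,
`exteriorPower.ιMultiDual_apply_ιMulti`). -/
theorem ext_rep {G : Type} [Group G] {k : ℕ} (ρ : G →* Matrix (Fin k) (Fin k) ℤ) (j : ℕ) :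
    ∃ (kk : ℕ) (ρ' : G →* Matrix (Fin kk) (Fin kk) ℤ), ∀ g, (ρ' g).trace =
      ∑ s ∈ (Finset.univ : Finset (Finset (Fin k))).filter (fun s => s.card = j),
        ((ρ g).submatrix (fun i : s => (i : Fin k)) fun i : s => (i : Fin k)).det := by
  classical
  have : Fintype (Set.powersetCard (Fin k) j) := Fintype.ofFinite _
  let e := Fintype.equivFin (Set.powersetCard (Fin k) j)
  let B := ((Pi.basisFun ℤ (Fin k)).exteriorPower j).reindex e
  refine ⟨_, ((LinearMap.toMatrixAlgEquiv B).toMulEquiv.toMonoidHom).comp (ExtP_hom ρ j), ?_⟩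
  intro g
  have h1 : (((LinearMap.toMatrixAlgEquiv B).toMulEquiv.toMonoidHom).comp (ExtP_hom ρ j)) g =
      LinearMap.toMatrixAlgEquiv B (exteriorPower.map j (Matrix.toLin' (ρ g))) := rfl
  rw [h1, Matrix.trace]
  have h2 : ∀ i, (LinearMap.toMatrixAlgEquiv B (exteriorPower.map j (Matrix.toLin' (ρ g)))).diag i =
      ((ρ g).submatrix (fun a : ((e.symm i : Set.powersetCard (Fin k) j) : Finset (Fin k)) => (a : Fin k))
        fun a : ((e.symm i : Set.powersetCard (Fin k) j) : Finset (Fin k)) => (a : Fin k)).det := by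
    intro i
    rw [Matrix.diag_apply, LinearMap.toMatrixAlgEquiv_apply, ← ExtP_entry]
    simp only [B, Module.Basis.reindex_apply, Module.Basis.repr_reindex, Finsupp.mapDomain_equiv_apply]
  rw [Finset.sum_congr rfl fun i _ => h2 i]
  rw [Equiv.sum_comp e.symm (fun s : Set.powersetCard (Fin k) j =>
    ((ρ g).submatrix (fun a : (s : Finset (Fin k)) => (a : Fin k))
      fun a : (s : Finset (Fin k)) => (a : Fin k)).det)]
  symm
  refine Finset.sum_subtype _ (fun s => ?_)
    (fun s : Finset (Fin k) => ((ρ g).submatrix (fun a : s => (a : Fin k)) fun a : s => (a : Fin k)).det)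
  rw [Finset.mem_filter]
  exact ⟨fun h => h.2, fun h => ⟨Finset.mem_univ _, h⟩⟩

end Pool.Agent.GPM
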