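import Pool.Agent.GPM.PMin
import Pool.Agent.GPM.ExtP

/-! Exterior powers (assembly) -/

set_option autoImplicit false

open scoped BigOperators

namespace Pool.Agent.GPM

open Pool.Agent.HGC Pool.Agent.HGM

/-- The determinant and the characters of the exterior powers. -/
theorem det_traces {G : Type} [Group G] {k : ℕ} (ρ : G →* Matrix (Fin k) (Fin k) ℤ) :
    ∃ (kk : ℕ → ℕ) (ρρ : (j : ℕ) → G →* Matrix (Fin (kk j)) (Fin (kk j)) ℤ),
      ∀ (g : G) (x : ℤ), (Matrix.scalar (Fin k) x - ρ g).det =
        x ^ k - x ^ (k - 1) * (ρ g).trace + ∑ j ∈ Finset.Icc 2 k, (-1) ^ j * x ^ (k - j) *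
          (ρρ j g).trace := by
  classical
  choose kk ρρ h using fun j => ext_rep ρ j
  refine ⟨kk, ρρ, fun g x => ?_⟩
  rw [det_scalar_sub]
  have h1 : ∀ s : Finset (Fin k), s.card ∈ Finset.range (k + 1) := by
    intro s
    have := Finset.card_le_univ s
    rw [Fintype.card_fin] at this
    exact Finset.mem_range.2 (by omega)
  rw [← Finset.sum_fiberwise_of_maps_to (g := fun s => s.card) (fun s _ => h1 s)]
  have h2 : ∀ j ∈ Finset.range (k + 1),
      (∑ s ∈ (Finset.univ : Finset (Finset (Fin k))).filter (fun s => s.card = j),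
        (-1) ^ s.card * x ^ (k - s.card) * ((ρ g).submatrix (fun i : s => (i : Fin k))
          fun i : s => (i : Fin k)).det) = (-1) ^ j * x ^ (k - j) * (ρρ j g).trace := by
    intro j _
    rw [h j g, Finset.mul_sum]
    refine Finset.sum_congr rfl fun s hs => ?_
    rw [(Finset.mem_filter.1 hs).2]
  rw [Finset.sum_congr rfl h2]
  have h3 : (ρρ 0 g).trace = 1 := by
    rw [h 0 g]
    have : (Finset.univ : Finset (Finset (Fin k))).filter (fun s => s.card = 0) = {∅} := by
      ext s
      simp
    rw [this, Finset.sum_singleton]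
    simp
  have h4 : (ρρ 1 g).trace = (ρ g).trace := by
    rw [h 1 g]
    have : (Finset.univ : Finset (Finset (Fin k))).filter (fun s => s.card = 1) =
        (Finset.univ : Finset (Fin k)).image (fun i => ({i} : Finset (Fin k))) := by
      ext s
      simp only [Finset.mem_filter, Finset.mem_univ, true_and, Finset.mem_image, Finset.card_eq_one]
      constructor
      · rintro ⟨a, rfl⟩
        exact ⟨a, rfl⟩
      · rintro ⟨a, rfl⟩
        exact ⟨a, rfl⟩
    rw [this, Finset.sum_image (by intro a _ b _ hab; exact Finset.singleton_injective hab)]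
    unfold Matrix.trace
    refine Finset.sum_congr rfl fun i _ => ?_
    letI : Unique ({i} : Finset (Fin k)) := ⟨⟨⟨i, by simp⟩⟩, by
      rintro ⟨a, ha⟩
      simp only [Finset.mem_singleton] at ha
      exact Subtype.ext ha⟩
    have hd : ((default : ({i} : Finset (Fin k))) : Fin k) = i :=
      Finset.mem_singleton.1 (default : ({i} : Finset (Fin k))).2
    rw [Matrix.det_unique, Matrix.submatrix_apply, Matrix.diag_apply, hd]
  rcases Nat.lt_or_ge k 1 with hk | hk
  · obtain rfl : k = 0 := by omega
    rw [zero_add, Finset.sum_range_one, h3]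
    have h5 : (ρ g).trace = 0 := by simp [Matrix.trace]
    simp
  · rw [Finset.range_eq_Ico, Finset.sum_eq_sum_Ico_succ_bot (by omega), h3]
    rw [zero_add, Finset.sum_eq_sum_Ico_succ_bot (by omega), h4]
    have h6 : Finset.Ico (1 + 1) (k + 1) = Finset.Icc 2 k := by
      ext j
      simp only [Finset.mem_Ico, Finset.mem_Icc]
      omega
    rw [h6]
    simp only [pow_zero, one_mul, Nat.sub_zero, mul_one, pow_one]
    ring

end Pool.Agent.GPM
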