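import Pool.Agent.GPM.Defs

/-! Module FINA: affine schemes, index types, disjoint unions, lines -/

set_option autoImplicit false

open scoped BigOperators

namespace Pool.Agent.GPM

open Pool.Agent.HGC Pool.Agent.HGM

/-- Reindexing.
PROOF: `e : ι ≃ Fin n`, `e' : κ ≃ Fin m`, `Q i = rename e (P (e'.symm i))`; the bijection of the solutions is
`x ↦ x ∘ e`; `MvPolynomial.aeval_rename`. -/
theorem aff_of_types {ι κ : Type} [Finite ι] [Finite κ] (P : κ → MvPolynomial ι ℤ) :
    ∃ (n m : ℕ) (Q : Fin m → MvPolynomial (Fin n) ℤ), ∀ (K : Type) [Field K],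
      affCount Q K = Nat.card {x : ι → K // ∀ i, MvPolynomial.aeval x (P i) = 0} := by
  refine ⟨Nat.card ι, Nat.card κ,
    fun i => MvPolynomial.rename (Finite.equivFin ι) (P ((Finite.equivFin κ).symm i)),
    fun K _ => ?_⟩
  unfold affCount
  refine Nat.card_congr (Equiv.subtypeEquiv
    (Equiv.arrowCongr (Finite.equivFin ι).symm (Equiv.refl K)) fun x => ?_)
  have h1 : (Equiv.arrowCongr (Finite.equivFin ι).symm (Equiv.refl K)) x =
      x ∘ (Finite.equivFin ι) := rfl
  rw [h1]
  constructor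
  · intro h i
    have h2 := h (Finite.equivFin κ i)
    beta_reduce at h2
    rwa [Equiv.symm_apply_apply, MvPolynomial.aeval_rename] at h2
  · intro h i
    rw [MvPolynomial.aeval_rename]
    exact h _

private noncomputable def disjEqs {n m n' m' : ℕ} (P : Fin m → MvPolynomial (Fin n) ℤ)
    (P' : Fin m' → MvPolynomial (Fin n') ℤ) :
    Unit ⊕ Fin n ⊕ Fin n' ⊕ Fin m ⊕ Fin m' → MvPolynomial (Fin n ⊕ Fin n' ⊕ Unit) ℤ
  | Sum.inl _ => MvPolynomial.X (Sum.inr (Sum.inr ())) *
      (MvPolynomial.X (Sum.inr (Sum.inr ())) - 1)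
  | Sum.inr (Sum.inl j) => MvPolynomial.X (Sum.inr (Sum.inr ())) * MvPolynomial.X (Sum.inl j)
  | Sum.inr (Sum.inr (Sum.inl j)) =>
      (1 - MvPolynomial.X (Sum.inr (Sum.inr ()))) * MvPolynomial.X (Sum.inr (Sum.inl j))
  | Sum.inr (Sum.inr (Sum.inr (Sum.inl i))) =>
      (1 - MvPolynomial.X (Sum.inr (Sum.inr ()))) * MvPolynomial.rename Sum.inl (P i)
  | Sum.inr (Sum.inr (Sum.inr (Sum.inr i))) =>
      MvPolynomial.X (Sum.inr (Sum.inr ())) *
        MvPolynomial.rename (fun j => Sum.inr (Sum.inl j)) (P' i)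

private noncomputable def disjMap {n m n' m' : ℕ} (P : Fin m → MvPolynomial (Fin n) ℤ)
    (P' : Fin m' → MvPolynomial (Fin n') ℤ) (K : Type) [Field K] :
    {x : Fin n → K // ∀ i, MvPolynomial.aeval x (P i) = 0} ⊕
      {x : Fin n' → K // ∀ i, MvPolynomial.aeval x (P' i) = 0} →
    {z : Fin n ⊕ Fin n' ⊕ Unit → K // ∀ i, MvPolynomial.aeval z (disjEqs P P' i) = 0}
  | Sum.inl x => ⟨Sum.elim x.1 (Sum.elim (fun _ => 0) (fun _ => 0)), by
      rintro (u | j | j | i | i)
      · simp [disjEqs]
      · simp [disjEqs]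
      · simp [disjEqs]
      · simp only [disjEqs, map_mul, MvPolynomial.aeval_rename]
        have h := x.2 i
        have h2 : (Sum.elim x.1 (Sum.elim (fun _ => (0 : K)) (fun _ => 0)) :
            Fin n ⊕ Fin n' ⊕ Unit → K) ∘ Sum.inl = x.1 := rfl
        rw [h2, h, mul_zero]
      · simp [disjEqs]⟩
  | Sum.inr y => ⟨Sum.elim (fun _ => 0) (Sum.elim y.1 (fun _ => 1)), by
      rintro (u | j | j | i | i)
      · simp [disjEqs]
      · simp [disjEqs]
      · simp [disjEqs]
      · simp [disjEqs]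
      · simp only [disjEqs, map_mul, MvPolynomial.aeval_rename]
        have h := y.2 i
        have h2 : (Sum.elim (fun _ => (0 : K)) (Sum.elim y.1 (fun _ => 1)) :
            Fin n ⊕ Fin n' ⊕ Unit → K) ∘ (fun j => Sum.inr (Sum.inl j)) = y.1 := rfl
        rw [h2, h, mul_zero]⟩

/-- Disjoint union.
PROOF: variables `x_1..x_n, y_1..y_n', e` (index type `Fin n ⊕ Fin n' ⊕ Unit`, then `aff_of_types`), equations
`e (e - 1)`, `e x_j`, `(1 - e) y_j`, `(1 - e) P_i(x)`, `e P'_i(y)`: for `e = 0` they say `y = 0` and `P(x) = 0`; for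
`e = 1` they say `x = 0` and `P'(y) = 0`. -/
theorem aff_disj {n m n' m' : ℕ} (P : Fin m → MvPolynomial (Fin n) ℤ)
    (P' : Fin m' → MvPolynomial (Fin n') ℤ) :
    ∃ (N M : ℕ) (Q : Fin M → MvPolynomial (Fin N) ℤ), ∀ (K : Type) [Field K] [Finite K],
      affCount Q K = affCount P K + affCount P' K := by
  obtain ⟨N, M, Q, hQ⟩ := aff_of_types (disjEqs P P')
  refine ⟨N, M, Q, fun K _ _ => ?_⟩
  rw [hQ K]
  unfold affCount
  rw [← Nat.card_sum]
  refine (Nat.card_congr (Equiv.ofBijective (disjMap P P' K) ⟨?_, ?_⟩)).symm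
  · rintro (x | y) (x' | y') h
    · have h1 := congrArg Subtype.val h
      congr 1
      apply Subtype.ext
      funext j
      exact congrFun h1 (Sum.inl j)
    · have h1 := congrFun (congrArg Subtype.val h) (Sum.inr (Sum.inr ()))
      exact absurd h1 (by simp [disjMap])
    · have h1 := congrFun (congrArg Subtype.val h) (Sum.inr (Sum.inr ()))
      exact absurd h1 (by simp [disjMap])
    · have h1 := congrArg Subtype.val h
      congr 1
      apply Subtype.ext
      funext j
      exact congrFun h1 (Sum.inr (Sum.inl j))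
  · rintro ⟨z, hz⟩
    have h0 := hz (Sum.inl ())
    simp only [disjEqs, map_mul, map_sub, MvPolynomial.aeval_X, map_one] at h0
    rcases mul_eq_zero.mp h0 with he | he
    · have hy : ∀ j, z (Sum.inr (Sum.inl j)) = 0 := by
        intro j
        have h := hz (Sum.inr (Sum.inr (Sum.inl j)))
        simpa [disjEqs, he] using h
      have hx : ∀ i, MvPolynomial.aeval (fun j => z (Sum.inl j)) (P i) = 0 := by
        intro i
        have h := hz (Sum.inr (Sum.inr (Sum.inr (Sum.inl i))))
        simp only [disjEqs, map_mul, map_sub, MvPolynomial.aeval_X, map_one, he,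
          MvPolynomial.aeval_rename, sub_zero, one_mul] at h
        exact h
      refine ⟨Sum.inl ⟨fun j => z (Sum.inl j), hx⟩, ?_⟩
      apply Subtype.ext
      funext w
      rcases w with j | j | u
      · rfl
      · exact (hy j).symm
      · exact he.symm
    · have he' : z (Sum.inr (Sum.inr ())) = 1 := sub_eq_zero.mp he
      have hx : ∀ j, z (Sum.inl j) = 0 := by
        intro j
        have h := hz (Sum.inr (Sum.inl j))
        simpa [disjEqs, he'] using h
      have hy : ∀ i, MvPolynomial.aeval (fun j => z (Sum.inr (Sum.inl j))) (P' i) = 0 := by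
        intro i
        have h := hz (Sum.inr (Sum.inr (Sum.inr (Sum.inr i))))
        simp only [disjEqs, map_mul, MvPolynomial.aeval_X, he',
          MvPolynomial.aeval_rename, one_mul] at h
        exact h
      refine ⟨Sum.inr ⟨fun j => z (Sum.inr (Sum.inl j)), hy⟩, ?_⟩
      apply Subtype.ext
      funext w
      rcases w with j | j | u
      · exact (hx j).symm
      · rfl
      · exact he'.symm

/-- Product with the affine line (one more variable). -/
theorem aff_line {n m : ℕ} (P : Fin m → MvPolynomial (Fin n) ℤ) :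
    ∃ (N M : ℕ) (Q : Fin M → MvPolynomial (Fin N) ℤ), ∀ (K : Type) [Field K] [Finite K],
      affCount Q K = Nat.card K * affCount P K := by
  obtain ⟨N, M, Q, hQ⟩ := aff_of_types (ι := Fin n ⊕ Unit) (κ := Fin m)
    fun i => MvPolynomial.rename Sum.inl (P i)
  refine ⟨N, M, Q, fun K _ _ => ?_⟩
  rw [hQ K]
  unfold affCount
  rw [← Nat.card_prod]
  refine Nat.card_congr ⟨fun z => (z.1 (Sum.inr ()), ⟨fun j => z.1 (Sum.inl j), fun i => ?_⟩),
    fun w => ⟨Sum.elim w.2.1 (fun _ => w.1), fun i => ?_⟩, ?_, ?_⟩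
  · have h := z.2 i
    rw [MvPolynomial.aeval_rename] at h
    exact h
  · rw [MvPolynomial.aeval_rename]
    exact w.2.2 i
  · rintro ⟨z, hz⟩
    apply Subtype.ext
    funext w
    rcases w with j | u
    · rfl
    · rfl
  · rintro ⟨c, x, hx⟩
    rfl

end Pool.Agent.GPM
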