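import Pool.Agent.GPM.FinA

/-! Module FINC: counting the complement -/

set_option autoImplicit false

open scoped BigOperators

namespace Pool.Agent.GPM

open Pool.Agent.HGC Pool.Agent.HGM

private theorem finC_lin {m : ℕ} {K : Type} [Field K] [Finite K] [DecidableEq K] (a : Fin m → K) :
    Nat.card K * Nat.card {y : Fin m → K // ∑ i, y i * a i = 1} +
      Nat.card K ^ m * (if (∀ i, a i = 0) then 1 else 0) = Nat.card K ^ m := by
  split_ifs with h
  · have h1 : IsEmpty {y : Fin m → K // ∑ i, y i * a i = 1} := by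
      refine ⟨fun y => ?_⟩
      have h2 := y.2
      simp [h] at h2
    rw [Nat.card_of_isEmpty (α := {y : Fin m → K // ∑ i, y i * a i = 1})]
    simp
  · push Not at h
    obtain ⟨j, hj⟩ := h
    rw [mul_zero, add_zero, ← Nat.card_prod]
    have h0 : Nat.card (Fin m → K) = Nat.card K ^ m := by
      rw [Nat.card_fun, Nat.card_eq_fintype_card (α := Fin m), Fintype.card_fin]
    rw [← h0]
    have hs : ∀ (y : Fin m → K) (c : K), ∑ i, (y + Pi.single j (c * (a j)⁻¹) : Fin m → K) i * a i =
        ∑ i, y i * a i + c := by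
      intro y c
      simp only [Pi.add_apply, add_mul, Finset.sum_add_distrib]
      congr 1
      rw [Finset.sum_eq_single j]
      · rw [Pi.single_eq_same, mul_assoc, inv_mul_cancel₀ hj, mul_one]
      · intro i _ hi
        rw [Pi.single_eq_of_ne hi, zero_mul]
      · intro h
        exact absurd (Finset.mem_univ j) h
    refine Nat.card_congr ⟨fun w => w.2.1 + Pi.single j ((w.1 - 1) * (a j)⁻¹),
      fun y => (∑ i, y i * a i, ⟨y + Pi.single j ((1 - ∑ i, y i * a i) * (a j)⁻¹), ?_⟩), ?_, ?_⟩
    · rw [hs]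
      ring
    · rintro ⟨c, y, hy⟩
      have h1 := hs y (c - 1)
      rw [hy] at h1
      have h2 : (1 : K) + (c - 1) = c := by ring
      rw [h2] at h1
      apply Prod.ext
      · exact h1
      · apply Subtype.ext
        show y + Pi.single j ((c - 1) * (a j)⁻¹) + Pi.single j ((1 - ∑ i, (y +
          Pi.single j ((c - 1) * (a j)⁻¹) : Fin m → K) i * a i) * (a j)⁻¹) = y
        rw [h1, add_assoc, ← Pi.single_add]
        have h3 : (c - 1) * (a j)⁻¹ + (1 - c) * (a j)⁻¹ = 0 := by ring
        rw [h3, Pi.single_zero, add_zero]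
    · intro y
      show y + Pi.single j ((1 - ∑ i, y i * a i) * (a j)⁻¹) +
        Pi.single j ((∑ i, y i * a i - 1) * (a j)⁻¹) = y
      rw [add_assoc, ← Pi.single_add]
      have h3 : (1 - ∑ i, y i * a i) * (a j)⁻¹ + (∑ i, y i * a i - 1) * (a j)⁻¹ = 0 := by ring
      rw [h3, Pi.single_zero, add_zero]

/-- The scheme `∑ y_i P_i(x) = 1` counts the complement.
PROOF: variables `Fin n ⊕ Fin m`. For `x` with `P(x) = 0` there is no `y`; otherwise `q` times the number of `y` is
`q ^ m` (a nonzero linear form takes every value equally often: the fibres of the surjective linear map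
`y ↦ ∑ y_i P_i(x)` are translates of the kernel). Sum over the `q ^ n` points `x`. -/
theorem aff_cayley {n m : ℕ} (P : Fin m → MvPolynomial (Fin n) ℤ) :
    ∃ (N M : ℕ) (Q : Fin M → MvPolynomial (Fin N) ℤ), ∀ (K : Type) [Field K] [Finite K],
      Nat.card K * affCount Q K + Nat.card K ^ m * affCount P K = Nat.card K ^ (m + n) := by
  classical
  obtain ⟨N, M, Q, hQ⟩ := aff_of_types (ι := Fin n ⊕ Fin m) (κ := Unit)
    fun _ => ∑ i, MvPolynomial.X (Sum.inr i) * MvPolynomial.rename Sum.inl (P i) - 1
  refine ⟨N, M, Q, fun K _ _ => ?_⟩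
  have := Fintype.ofFinite K
  rw [hQ K]
  have h1 : Nat.card {x : Fin n ⊕ Fin m → K // ∀ _ : Unit, MvPolynomial.aeval x
      (∑ i, MvPolynomial.X (Sum.inr i) * MvPolynomial.rename Sum.inl (P i) - 1) = 0} =
      ∑ x : Fin n → K, Nat.card {y : Fin m → K // ∑ i, y i * MvPolynomial.aeval x (P i) = 1} := by
    rw [← Nat.card_sigma]
    refine Nat.card_congr ⟨fun z => ⟨fun j => z.1 (Sum.inl j), ⟨fun i => z.1 (Sum.inr i), ?_⟩⟩,
      fun w => ⟨Sum.elim w.1 w.2.1, fun _ => ?_⟩, ?_, ?_⟩
    · have h := z.2 ()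
      simp only [map_sub, map_sum, map_mul, MvPolynomial.aeval_X, MvPolynomial.aeval_rename,
        map_one] at h
      exact sub_eq_zero.mp h
    · simp only [map_sub, map_sum, map_mul, MvPolynomial.aeval_X, MvPolynomial.aeval_rename,
        map_one]
      exact sub_eq_zero.mpr w.2.2
    · rintro ⟨z, hz⟩
      apply Subtype.ext
      funext w
      rcases w with j | u
      · rfl
      · rfl
    · rintro ⟨x, y, hy⟩
      rfl
  have h2 : affCount P K = ∑ x : Fin n → K, if (∀ i, MvPolynomial.aeval x (P i) = 0) then 1 else 0 := by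
    unfold affCount
    rw [Nat.card_eq_fintype_card, Fintype.card_subtype, Finset.card_filter]
  rw [h1, h2, Finset.mul_sum, Finset.mul_sum, ← Finset.sum_add_distrib]
  have h3 : ∀ x : Fin n → K, Nat.card K *
      Nat.card {y : Fin m → K // ∑ i, y i * MvPolynomial.aeval x (P i) = 1} +
      Nat.card K ^ m * (if (∀ i, MvPolynomial.aeval x (P i) = 0) then 1 else 0) =
      Nat.card K ^ m := fun x => finC_lin fun i => MvPolynomial.aeval x (P i)
  rw [Finset.sum_congr rfl fun x _ => h3 x, Finset.sum_const, Finset.card_univ,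
    Fintype.card_fun, Fintype.card_fin, smul_eq_mul, ← Nat.card_eq_fintype_card, ← pow_add,
    add_comm n m]

end Pool.Agent.GPM
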