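import Pool.Agent.GPM.Defs

/-! Module FINT: finiteness of twisted points -/

set_option autoImplicit false

open scoped BigOperators

namespace Pool.Agent.GPM

open Pool.Agent.HGC Pool.Agent.HGM

variable {A : Type} [CommRing A] {G : Type} [Group G] [Fintype G] [MulSemiringAction G A]

omit [Fintype G] in
private lemma FinT_iter (g : G) {p r : ℕ} [Fact p.Prime] (φ : A →+* AlgebraicClosure (ZMod p))
    (h : ∀ a, φ a ^ p ^ r = φ (g • a)) (n : ℕ) (a : A) : φ a ^ p ^ (r * n) = φ (g ^ n • a) := by
  induction n generalizing a with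
  | zero => simp
  | succ n ih =>
    rw [Nat.mul_succ, pow_add, pow_mul, ih, h, smul_smul, ← pow_succ']

/-- The sets counted by `homCount` are finite.
PROOF: if `φ(a)^q = φ(g a)` for all `a`, then `φ(a) ^ (q ^ e) = φ(g ^ e a) = φ(a)` with `e = |G|`, so all values are
roots of `X ^ (q ^ e) - X`, a finite set `S` (`q ^ e > 1`); `φ` is determined by its values at finitely many
generators. -/
theorem finite_hom (hA : Algebra.FiniteType ℤ A) (g : G) (p r : ℕ) [Fact p.Prime] (hr : 1 ≤ r) :
    Finite {φ : A →+* AlgebraicClosure (ZMod p) // ∀ a, φ a ^ p ^ r = φ (g • a)} := by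
  classical
  obtain ⟨s, hs⟩ := hA.out
  set N := p ^ (r * Fintype.card G) with hN
  have hN1 : 1 < N := by
    apply Nat.one_lt_pow
    · have : 0 < Fintype.card G := Fintype.card_pos
      positivity
    · exact (Fact.out : p.Prime).one_lt
  have hval : ∀ φ : {φ : A →+* AlgebraicClosure (ZMod p) // ∀ a, φ a ^ p ^ r = φ (g • a)},
      ∀ a : A, φ.1 a ^ N = φ.1 a := by
    intro φ a
    rw [hN, FinT_iter g φ.1 φ.2 (Fintype.card G) a, pow_card_eq_one, one_smul]
  let S : Set (AlgebraicClosure (ZMod p)) := {y | y ^ N = y}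
  have hS : S.Finite := by
    have h0 : (Polynomial.X ^ N - Polynomial.X : Polynomial (AlgebraicClosure (ZMod p))) ≠ 0 :=
      FiniteField.X_pow_card_sub_X_ne_zero _ hN1
    refine ((Polynomial.X ^ N - Polynomial.X :
      Polynomial (AlgebraicClosure (ZMod p))).roots.toFinset.finite_toSet).subset ?_
    intro y hy
    have hy' : y ^ N = y := hy
    simp only [Finset.mem_coe, Multiset.mem_toFinset]
    rw [Polynomial.mem_roots h0]
    simp [hy']
  have : Finite S := hS
  refine Finite.of_injective (β := s → S) (fun φ a => ⟨φ.1 a, hval φ a⟩) ?_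
  intro φ ψ h
  apply Subtype.ext
  have h1 : φ.1.toIntAlgHom = ψ.1.toIntAlgHom := by
    apply AlgHom.ext_of_adjoin_eq_top hs
    intro a ha
    have h2 := congrFun h ⟨a, ha⟩
    simpa using congrArg Subtype.val h2
  ext a
  exact congrArg (fun f : A →ₐ[ℤ] AlgebraicClosure (ZMod p) => f a) h1

end Pool.Agent.GPM
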