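import Pool.Agent.GPM.Defs

/-! Module GFX: homomorphisms to the field with q elements -/

set_option autoImplicit false

open scoped BigOperators

namespace Pool.Agent.GPM

open Pool.Agent.HGC Pool.Agent.HGM

private lemma Gfx_range {p r : ℕ} [Fact p.Prime] (hr : 1 ≤ r)
    (ι : GaloisField p r →+* AlgebraicClosure (ZMod p)) (y : AlgebraicClosure (ZMod p)) :
    y ∈ ι.range ↔ y ^ p ^ r = y := by
  classical
  let _ : Fintype (GaloisField p r) := Fintype.ofFinite _
  have hcard : Fintype.card (GaloisField p r) = p ^ r := by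
    rw [← Nat.card_eq_fintype_card, GaloisField.card p r (by omega)]
  have hN1 : 1 < p ^ r := Nat.one_lt_pow (by omega) (Fact.out : p.Prime).one_lt
  have hin : ∀ z : GaloisField p r, ι z ^ p ^ r = ι z := by
    intro z
    rw [← map_pow, ← hcard, FiniteField.pow_card]
  constructor
  · rintro ⟨z, rfl⟩
    exact hin z
  · intro hy
    set f : Polynomial (AlgebraicClosure (ZMod p)) := Polynomial.X ^ p ^ r - Polynomial.X with hf
    have h0 : f ≠ 0 := FiniteField.X_pow_card_sub_X_ne_zero _ hN1
    have hroot : ∀ w, w ∈ f.roots.toFinset ↔ w ^ p ^ r = w := by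
      intro w
      rw [Multiset.mem_toFinset, Polynomial.mem_roots h0, hf]
      simp [sub_eq_zero]
    have hsub : (Finset.univ.image ι : Finset (AlgebraicClosure (ZMod p))) ⊆ f.roots.toFinset := by
      intro w hw
      obtain ⟨z, -, rfl⟩ := Finset.mem_image.1 hw
      exact (hroot _).2 (hin z)
    have hle : f.roots.toFinset.card ≤
        (Finset.univ.image ι : Finset (AlgebraicClosure (ZMod p))).card := by
      rw [Finset.card_image_of_injective _ ι.injective, Finset.card_univ, hcard]
      refine (Multiset.toFinset_card_le _).trans ((Polynomial.card_roots' f).trans ?_)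
      rw [hf, FiniteField.X_pow_card_sub_X_natDegree_eq _ hN1]
    have heq := Finset.eq_of_subset_of_card_le hsub hle
    have h1 : y ∈ (Finset.univ.image ι : Finset (AlgebraicClosure (ZMod p))) := by
      rw [heq]
      exact (hroot y).2 hy
    obtain ⟨z, -, rfl⟩ := Finset.mem_image.1 h1
    exact ⟨z, rfl⟩

/-- Homomorphisms to the field with `q` elements.
PROOF: a ring homomorphism `ι : GaloisField p r → Ω` exists (`IsAlgClosed.lift`), its image is
`{y | y ^ (p ^ r) = y}`: both have `p ^ r` elements (`X ^ q - X` has at most `q` roots and `y ^ q = y` for `y` in the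
image); compose with `ι`. -/
theorem card_hom_gf (B : Type) [CommRing B] (p r : ℕ) [Fact p.Prime] (hr : 1 ≤ r) :
    Nat.card (B →+* GaloisField p r) =
      Nat.card {ψ : B →+* AlgebraicClosure (ZMod p) // ∀ b, ψ b ^ p ^ r = ψ b} := by
  let ι : GaloisField p r →+* AlgebraicClosure (ZMod p) :=
    (IsAlgClosed.lift : GaloisField p r →ₐ[ZMod p] AlgebraicClosure (ZMod p)).toRingHom
  refine Nat.card_congr (Equiv.ofBijective
    (fun f => ⟨ι.comp f, fun b => (Gfx_range hr ι _).1 ⟨f b, rfl⟩⟩) ⟨?_, ?_⟩)
  · intro f f' h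
    ext b
    have h1 := congrArg (fun g : {ψ : B →+* AlgebraicClosure (ZMod p) // ∀ b, ψ b ^ p ^ r = ψ b} =>
      g.1 b) h
    exact ι.injective h1
  · rintro ⟨ψ, hψ⟩
    let e : GaloisField p r ≃+* ι.range := RingEquiv.ofLeftInverse
      (Function.leftInverse_invFun ι.injective)
    let f : B →+* GaloisField p r := (e.symm : ι.range →+* GaloisField p r).comp
      (ψ.codRestrict ι.range (fun b => (Gfx_range hr ι _).2 (hψ b)))
    refine ⟨f, ?_⟩
    apply Subtype.ext
    ext b
    have h1 : (e (e.symm ⟨ψ b, (Gfx_range hr ι _).2 (hψ b)⟩) : AlgebraicClosure (ZMod p)) = ψ b := by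
      rw [RingEquiv.apply_symm_apply]
    exact h1

end Pool.Agent.GPM
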