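import Pool.Agent.GPM.Defs

/-! Module INVF: the ring of invariants is finitely generated -/

set_option autoImplicit false

open scoped BigOperators

namespace Pool.Agent.GPM

open Pool.Agent.HGC Pool.Agent.HGM

variable {A : Type} [CommRing A] {G : Type} [Group G] [Fintype G] [MulSemiringAction G A]

/-- The ring of invariants is finitely generated.
PROOF: `A` is integral over the invariants (`Algebra.IsInvariant.isIntegral`, instance
`Algebra.IsInvariant (FixedPoints.subring A G) A G`), of finite type over them, hence a finite module; then
`fg_of_fg_of_fg` (Artin-Tate) with `ℤ ⊆ A^G ⊆ A`. -/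
theorem inv_fg (hA : Algebra.FiniteType ℤ A) : Algebra.FiniteType ℤ (FixedPoints.subring A G) := by
  have : Algebra.IsInvariant (FixedPoints.subring A G) A G :=
    ⟨fun b hb => ⟨⟨b, fun g => hb g⟩, rfl⟩⟩
  have hint : Algebra.IsIntegral (FixedPoints.subring A G) A :=
    Algebra.IsInvariant.isIntegral (FixedPoints.subring A G) A G
  have hft : Algebra.FiniteType (FixedPoints.subring A G) A :=
    Algebra.FiniteType.of_restrictScalars_finiteType ℤ (FixedPoints.subring A G) A
  have hfin : Module.Finite (FixedPoints.subring A G) A := Algebra.IsIntegral.finite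
  exact ⟨fg_of_fg_of_fg ℤ (FixedPoints.subring A G) A hA.out hfin.fg_top
    Subtype.val_injective⟩

end Pool.Agent.GPM
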