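import Pool.Agent.GPM.Defs

/-! Module LIFT: homomorphisms extend -/

set_option autoImplicit false

open scoped BigOperators

namespace Pool.Agent.GPM

open Pool.Agent.HGC Pool.Agent.HGM

variable {A : Type} [CommRing A] {G : Type} [Group G] [Fintype G] [MulSemiringAction G A]

/-- Homomorphisms to an algebraically closed field extend. -/
theorem lift_hom (Ω : Type) [Field Ω] [IsAlgClosed Ω] (ψ : FixedPoints.subring A G →+* Ω) :
    ∃ φ : A →+* Ω, φ.comp (FixedPoints.subring A G).subtype = ψ := by
  have hinv : Algebra.IsInvariant (FixedPoints.subring A G) A G := ⟨fun a h => ⟨⟨a, h⟩, rfl⟩⟩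
  have hint : Algebra.IsIntegral (FixedPoints.subring A G) A :=
    Algebra.IsInvariant.isIntegral (FixedPoints.subring A G) A G
  have hP : (RingHom.ker ψ).IsPrime := RingHom.ker_isPrime ψ
  have hker : RingHom.ker (algebraMap (FixedPoints.subring A G) A) ≤ RingHom.ker ψ := by
    intro b hb
    have h1 : (b : A) = 0 := hb
    have h2 : b = 0 := Subtype.ext h1
    rw [h2]
    exact Ideal.zero_mem _
  obtain ⟨Q, _, hQp, hQ⟩ := Ideal.exists_ideal_over_prime_of_isIntegral
    (RingHom.ker ψ) (⊥ : Ideal A) (by rw [← RingHom.ker_eq_comap_bot]; exact hker)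
  let R' := (FixedPoints.subring A G) ⧸ Q.comap (algebraMap (FixedPoints.subring A G) A)
  let S' := A ⧸ Q
  have : IsDomain S' := Ideal.Quotient.isDomain Q
  have : (Q.comap (algebraMap (FixedPoints.subring A G) A)).IsPrime := Ideal.comap_isPrime _ Q
  have : IsDomain R' := Ideal.Quotient.isDomain _
  have hz : ∀ a ∈ Q.comap (algebraMap (FixedPoints.subring A G) A), ψ a = 0 := by
    intro a ha
    rw [hQ] at ha
    exact ha
  let f : R' →+* Ω := Ideal.Quotient.lift _ ψ hz
  have hf : Function.Injective f := by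
    rw [injective_iff_map_eq_zero]
    intro a ha
    obtain ⟨b, rfl⟩ := Ideal.Quotient.mk_surjective a
    have h1 : ψ b = 0 := ha
    rw [Ideal.Quotient.eq_zero_iff_mem, hQ]
    exact h1
  let _ : Algebra R' Ω := f.toAlgebra
  have ht1 : Module.IsTorsionFree R' S' :=
    Module.isTorsionFree_iff_algebraMap_injective.mpr Ideal.algebraMap_quotient_injective
  have ht2 : Module.IsTorsionFree R' Ω :=
    Module.isTorsionFree_iff_algebraMap_injective.mpr hf
  have : Algebra.IsIntegral R' S' := by
    refine ⟨fun s => ?_⟩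
    obtain ⟨a, rfl⟩ := Ideal.Quotient.mk_surjective s
    obtain ⟨p, hp, hpa⟩ := hint.isIntegral a
    refine ⟨p.map (Ideal.Quotient.mk _), hp.map _, ?_⟩
    rw [Polynomial.eval₂_map]
    have h1 := congrArg (Ideal.Quotient.mk Q) hpa
    rw [map_zero, Polynomial.hom_eval₂] at h1
    exact h1
  have : Algebra.IsAlgebraic R' S' := Algebra.IsIntegral.isAlgebraic
  let g : S' →ₐ[R'] Ω := IsAlgClosed.lift
  refine ⟨(g : S' →+* Ω).comp (Ideal.Quotient.mk Q), ?_⟩
  ext b
  have h1 : g (algebraMap R' S' (Ideal.Quotient.mk _ b)) = f (Ideal.Quotient.mk _ b) :=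
    g.commutes _
  exact h1

end Pool.Agent.GPM
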