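import Pool.Agent.GPM.Lift
import Pool.Agent.GPM.Conj
import Pool.Agent.GPM.FinT

/-! Module ORB: points of the quotient -/

set_option autoImplicit false

open scoped BigOperators

namespace Pool.Agent.GPM

open Pool.Agent.HGC Pool.Agent.HGM

section

variable {A : Type} [CommRing A] {G : Type} [Group G] [Fintype G] [MulSemiringAction G A]
  {Ω : Type} [Field Ω]

variable (A G Ω) in
/-- the homomorphisms whose restriction to the invariants is fixed by the power map `F` -/
private def OrbX (F : Ω →+* Ω) : Type :=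
  {φ : A →+* Ω // ∀ b : FixedPoints.subring A G, F (φ b) = φ b}

private instance OrbAct (F : Ω →+* Ω) : MulAction G (OrbX A G Ω F) where
  smul g φ := ⟨φ.1.comp (MulSemiringAction.toRingHom G A g⁻¹), fun b => by
    have hb : g⁻¹ • (b : A) = b := b.2 g⁻¹
    simpa [hb] using φ.2 b⟩
  one_smul φ := by
    apply Subtype.ext
    ext a
    change φ.1 ((1 : G)⁻¹ • a) = φ.1 a
    rw [inv_one, one_smul]
  mul_smul g h φ := by
    apply Subtype.ext
    ext a
    change φ.1 ((g * h)⁻¹ • a) = φ.1 (h⁻¹ • g⁻¹ • a)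
    rw [mul_inv_rev, mul_smul]

omit [Fintype G] in
private lemma Orb_smul (F : Ω →+* Ω) (g : G) (φ : OrbX A G Ω F) (a : A) :
    (g • φ).1 a = φ.1 (g⁻¹ • a) := rfl

private lemma Orb_s (hA : Algebra.FiniteType ℤ A) (F : Ω →+* Ω) (φ : OrbX A G Ω F) :
    ∃ s : G, ∀ a, F (φ.1 a) = φ.1 (s • a) := by
  obtain ⟨s, hs⟩ := conj_hom (G := G) hA φ.1 (F.comp φ.1) (fun b hb => by
    have := φ.2 ⟨b, hb⟩
    simpa using this.symm)
  exact ⟨s, fun a => hs a⟩

private noncomputable def Orb_e1 (hA : Algebra.FiniteType ℤ A) (F : Ω →+* Ω) :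
    (Σ g : G, {φ : A →+* Ω // ∀ a, F (φ a) = φ (g • a)}) ≃
      (Σ g : G, MulAction.fixedBy (OrbX A G Ω F) g) where
  toFun x := 
    let φ : OrbX A G Ω F := ⟨x.2.1, fun b => by
      have hb : x.1 • (b : A) = b := b.2 x.1
      rw [x.2.2, hb]⟩
    ⟨(Orb_s hA F φ).choose * x.1⁻¹, φ, by
      rw [MulAction.mem_fixedBy]
      apply Subtype.ext
      ext a
      rw [Orb_smul, mul_inv_rev, inv_inv, mul_smul]
      have h1 := (Orb_s hA F φ).choose_spec ((Orb_s hA F φ).choose⁻¹ • a)
      rw [smul_inv_smul] at h1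
      rw [← h1]
      exact (x.2.2 _).symm⟩
  invFun x := ⟨x.1⁻¹ * (Orb_s hA F x.2.1).choose, x.2.1.1, fun a => by
    have h1 := (Orb_s hA F x.2.1).choose_spec a
    have h2 := congrArg (fun φ : OrbX A G Ω F => φ.1 ((Orb_s hA F x.2.1).choose • a))
      (MulAction.mem_fixedBy.1 x.2.2)
    simp only [Orb_smul] at h2
    rw [h1, ← h2, mul_smul]⟩
  left_inv x := by
    apply Sigma.subtype_ext
    · simp
    · rfl
  right_inv x := by
    apply Sigma.subtype_ext (p := fun g φ => φ ∈ MulAction.fixedBy (OrbX A G Ω F) g)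
    · simp
    · rfl

private noncomputable def Orb_e2 [IsAlgClosed Ω] (hA : Algebra.FiniteType ℤ A) (F : Ω →+* Ω) :
    MulAction.orbitRel.Quotient G (OrbX A G Ω F) ≃
      {ψ : FixedPoints.subring A G →+* Ω // ∀ b, F (ψ b) = ψ b} :=
  Equiv.ofBijective
    (Quotient.lift (fun φ => ⟨φ.1.comp (FixedPoints.subring A G).subtype, fun b => φ.2 b⟩)
      (by
        intro φ φ' h
        obtain ⟨g, hg⟩ := h
        apply Subtype.ext
        ext b
        have hb : g⁻¹ • (b : A) = b := b.2 g⁻¹
        change φ.1 b = φ'.1 b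
        rw [← hg]
        change φ'.1 (g⁻¹ • b) = φ'.1 b
        rw [hb]))
    (by
      constructor
      · intro x y
        induction x using Quotient.inductionOn with | _ φ
        induction y using Quotient.inductionOn with | _ φ'
        intro h
        apply Quotient.sound
        obtain ⟨g, hg⟩ := conj_hom (G := G) hA φ'.1 φ.1 (fun b hb => by
          have h1 := congrArg (fun f : {ψ : FixedPoints.subring A G →+* Ω // ∀ b, F (ψ b) = ψ b} =>
            f.1 ⟨b, hb⟩) h
          exact h1.symm)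
        refine ⟨g⁻¹, ?_⟩
        apply Subtype.ext
        ext a
        change φ'.1 (g⁻¹⁻¹ • a) = φ.1 a
        rw [inv_inv, hg]
      · rintro ⟨ψ, hψ⟩
        obtain ⟨φ, hφ⟩ := lift_hom Ω ψ
        have h1 : ∀ b : FixedPoints.subring A G, φ b = ψ b := fun b => by
          rw [← hφ]
          rfl
        refine ⟨Quotient.mk _ ⟨φ, fun b => by rw [h1 b, hψ b]⟩, ?_⟩
        apply Subtype.ext
        exact hφ)

end

/-- Points of the quotient.
PROOF (Ω = algebraic closure of `F_p`, `B` = invariants): count the pairs `(g, φ)` with `Frob_q ∘ φ = φ ∘ g`. For such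
a pair `ψ = φ|B` satisfies `ψ(b)^q = ψ(b)`. Fix `ψ` with this property. The set `O` of the `φ` extending `ψ` is
nonempty (`lift_hom`) and `G` acts on it transitively by `φ ↦ φ ∘ g` (`conj_hom`). For `φ` in `O` the map
`Frob_q ∘ φ` is in `O`, so the number of `g` with `Frob_q ∘ φ = φ ∘ g` is the order of the stabiliser of `φ`
(it is a coset of it), and the sum over `φ` in `O` is `|O| |Stab| = |G|`.
(All sets are finite: `finite_hom`; `O` is finite because `G` is transitive on it.) -/
theorem orbit_count {A : Type} [CommRing A] {G : Type} [Group G] [Fintype G] [MulSemiringAction G A]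
    (hA : Algebra.FiniteType ℤ A) (p r : ℕ) [Fact p.Prime] (hr : 1 ≤ r) :
    Fintype.card G * Nat.card {ψ : FixedPoints.subring A G →+* AlgebraicClosure (ZMod p) //
      ∀ b, ψ b ^ p ^ r = ψ b} = ∑ g : G, homCount A g p r := by
  have hfin : ∀ g : G, Finite {φ : A →+* AlgebraicClosure (ZMod p) //
      ∀ a, φ a ^ p ^ r = φ (g • a)} := fun g => finite_hom hA g p r hr
  let F := iterateFrobenius (AlgebraicClosure (ZMod p)) p r
  have hF : ∀ x, F x = x ^ p ^ r := fun x => iterateFrobenius_def _ _ _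
  unfold homCount
  rw [← Nat.card_sigma]
  have e1 := Orb_e1 (G := G) hA F
  have e2 := Orb_e2 (G := G) hA F
  have e3 := MulAction.sigmaFixedByEquivOrbitsProdGroup G
    (OrbX A G (AlgebraicClosure (ZMod p)) F)
  simp only [hF] at e1 e2
  rw [Nat.card_congr e1, Nat.card_congr e3, Nat.card_prod, Nat.card_congr e2, mul_comm,
    Nat.card_eq_fintype_card (α := G)]

end Pool.Agent.GPM
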