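import Pool.Agent.GPM.Defs

/-! Module PMIN: characteristic polynomial and principal minors -/

set_option autoImplicit false

open scoped BigOperators

namespace Pool.Agent.GPM

open Pool.Agent.HGC Pool.Agent.HGM

/-- Characteristic polynomial and principal minors. -/
theorem det_scalar_sub {R : Type} [CommRing R] {k : ℕ} (M : Matrix (Fin k) (Fin k) R) (x : R) :
    (Matrix.scalar (Fin k) x - M).det = ∑ s : Finset (Fin k),
      (-1) ^ s.card * x ^ (k - s.card) * (M.submatrix (fun i : s => (i : Fin k)) fun i : s =>
        (i : Fin k)).det := by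
  rcases subsingleton_or_nontrivial R with hR | hR
  · exact Subsingleton.elim _ _
  rw [← Matrix.eval_charpoly, Polynomial.eval_eq_sum_range, Matrix.charpoly_natDegree_eq_dim,
    Fintype.card_fin]
  have h1 : ∑ s : Finset (Fin k),
      (-1) ^ s.card * x ^ (k - s.card) * (M.submatrix (fun i : s => (i : Fin k)) fun i : s =>
        (i : Fin k)).det =
      ∑ j ∈ Finset.range (k + 1), ∑ s ∈ (Finset.univ : Finset (Fin k)).powersetCard j,
      (-1) ^ s.card * x ^ (k - s.card) * (M.submatrix (fun i : s => (i : Fin k)) fun i : s =>
        (i : Fin k)).det := by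
    have h2 := Finset.sum_powerset (Finset.univ : Finset (Fin k))
      (fun s : Finset (Fin k) => (-1) ^ s.card * x ^ (k - s.card) *
        (M.submatrix (fun i : s => (i : Fin k)) fun i : s => (i : Fin k)).det)
    rw [Finset.powerset_univ, Finset.card_univ, Fintype.card_fin] at h2
    exact h2
  rw [h1, ← Finset.sum_range_reflect]
  refine Finset.sum_congr rfl fun j hj => ?_
  have hj' : j ≤ k := by
    have := Finset.mem_range.mp hj; omega
  have h3 : k + 1 - 1 - j = Fintype.card (Fin k) - j := by rw [Fintype.card_fin]; omega
  have h4 : k + 1 - 1 - j = k - j := by omega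
  rw [h3, Matrix.charpoly_coeff_eq_sum_minors M j (by rw [Fintype.card_fin]; exact hj'),
    Finset.mul_sum, Finset.sum_mul]
  refine Finset.sum_congr rfl fun s hs => ?_
  rw [(Finset.mem_powersetCard.mp hs).2, Fintype.card_fin]
  ring

end Pool.Agent.GPM
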