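import Pool.Agent.GPM.FinA

/-! Module PRES: presentations -/

set_option autoImplicit false

open scoped BigOperators

namespace Pool.Agent.GPM

open Pool.Agent.HGC Pool.Agent.HGM

/-- A finitely generated commutative ring has finitely many generators and relations.
PROOF: a surjection `f : MvPolynomial (Fin n) ℤ → B` (`Algebra.FiniteType.iff_quotient_mvPolynomial''`), its kernel
is finitely generated (Hilbert), `P` = generators of the kernel; `B →+* K` corresponds to the points `x` with
`P_i(x) = 0` by `φ ↦ (j ↦ φ (f X_j))`. -/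
theorem aff_pres (B : Type) [CommRing B] (hB : Algebra.FiniteType ℤ B) :
    ∃ (n m : ℕ) (P : Fin m → MvPolynomial (Fin n) ℤ), ∀ (K : Type) [Field K],
      affCount P K = Nat.card (B →+* K) := by
  obtain ⟨n, f, hf⟩ := Algebra.FiniteType.iff_quotient_mvPolynomial''.mp hB
  obtain ⟨m, P, hP⟩ := Submodule.fg_iff_exists_fin_generating_family.mp
    (IsNoetherian.noetherian (RingHom.ker f.toRingHom))
  refine ⟨n, m, P, fun K _ => ?_⟩
  have key : ∀ x : Fin n → K, (∀ i, MvPolynomial.aeval x (P i) = 0) ↔
      RingHom.ker f.toRingHom ≤ RingHom.ker (MvPolynomial.aeval (R := ℤ) x).toRingHom := by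
    intro x
    rw [← hP]
    constructor
    · intro h
      refine Submodule.span_le.mpr ?_
      rintro _ ⟨i, rfl⟩
      exact h i
    · intro h i
      exact h (Submodule.subset_span ⟨i, rfl⟩)
  unfold affCount
  rw [← Nat.card_congr (RingHom.liftOfSurjective f.toRingHom hf)]
  apply Nat.card_congr
  have key2 : ∀ g : MvPolynomial (Fin n) ℤ →+* K,
      (MvPolynomial.aeval (R := ℤ) fun j => g (MvPolynomial.X j)).toRingHom = g := by
    intro g
    apply MvPolynomial.ringHom_ext
    · intro r
      simp
    · intro j
      simp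
  refine ⟨fun x => ⟨(MvPolynomial.aeval (R := ℤ) x.1).toRingHom, (key x.1).mp x.2⟩,
    fun g => ⟨fun j => g.1 (MvPolynomial.X j), (key _).mpr (by rw [key2]; exact g.2)⟩, ?_, ?_⟩
  · intro x
    apply Subtype.ext
    funext j
    simp
  · intro g
    apply Subtype.ext
    exact key2 g.1

end Pool.Agent.GPM
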