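import Pool.Agent.GPM.Pres
import Pool.Agent.GPM.InvF
import Pool.Agent.GPM.Gfx
import Pool.Agent.GPM.Orb

/-! Quotients by finite groups (assembly) -/

set_option autoImplicit false

open scoped BigOperators

namespace Pool.Agent.GPM

open Pool.Agent.HGC Pool.Agent.HGM

/-- The quotient of `Spec A` by `G` is an affine scheme of finite type with the expected points. -/
theorem quot_count {A : Type} [CommRing A] {G : Type} [Group G] [Fintype G] [MulSemiringAction G A]
    (hA : Algebra.FiniteType ℤ A) :
    ∃ (n m : ℕ) (P : Fin m → MvPolynomial (Fin n) ℤ), ∀ (p r : ℕ) [Fact p.Prime], 1 ≤ r →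
      Fintype.card G * affCount P (GaloisField p r) = ∑ g : G, homCount A g p r := by
  obtain ⟨n, m, P, hP⟩ := aff_pres (FixedPoints.subring A G) (inv_fg hA)
  refine ⟨n, m, P, fun p r _ hr => ?_⟩
  rw [hP, card_hom_gf _ p r hr, orbit_count hA p r hr]

end Pool.Agent.GPM
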