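import Pool.Agent.GPM.Defs

/-! Module TACT: the action on the group ring -/

set_option autoImplicit false

open scoped BigOperators

namespace Pool.Agent.GPM

open Pool.Agent.HGC Pool.Agent.HGM

variable {B : Type} [CommRing B] {G : Type} [Group G] [MulSemiringAction G B] {k : ℕ}

private noncomputable def TActF (ρ : G →* Matrix (Fin k) (Fin k) ℤ) (g : G) :
    AddMonoidAlgebra B (Fin k → ℤ) →+* AddMonoidAlgebra B (Fin k → ℤ) :=
  (AddMonoidAlgebra.mapDomainRingHom B ((ρ g).mulVecLin.toAddMonoidHom)).comp
    (AddMonoidAlgebra.mapRingHom (Fin k → ℤ) (MulSemiringAction.toRingHom G B g))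

private lemma TActF_single (ρ : G →* Matrix (Fin k) (Fin k) ℤ) (g : G) (ν : Fin k → ℤ) (b : B) :
    TActF ρ g (AddMonoidAlgebra.single ν b) =
      AddMonoidAlgebra.single ((ρ g).mulVec ν) (g • b) := by
  simp [TActF]

private lemma TActF_one (ρ : G →* Matrix (Fin k) (Fin k) ℤ) :
    TActF (B := B) ρ 1 = RingHom.id _ := by
  apply AddMonoidAlgebra.ringHom_ext
  · intro b
    rw [TActF_single]
    simp
  · intro ν
    rw [TActF_single]
    simp

private lemma TActF_mul (ρ : G →* Matrix (Fin k) (Fin k) ℤ) (g h : G) :
    TActF (B := B) ρ (g * h) = (TActF ρ g).comp (TActF ρ h) := by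
  apply AddMonoidAlgebra.ringHom_ext
  · intro b
    rw [RingHom.comp_apply, TActF_single, TActF_single, TActF_single, map_mul, mul_smul,
      Matrix.mulVec_mulVec]
  · intro ν
    rw [RingHom.comp_apply, TActF_single, TActF_single, TActF_single, map_mul, mul_smul,
      Matrix.mulVec_mulVec]

/-- The action of `G` on the group ring `B[ℤ^k]`: `g • (b e^ν) = (g • b) e^(ρ(g) ν)`.
PROOF: for `g` take the ring homomorphism `AddMonoidAlgebra.mapDomainRingHom` of `ν ↦ (ρ g).mulVec ν` after the
map `b ↦ g • b` on the coefficients (`AddMonoidAlgebra.mapRangeRingHom`); it is multiplicative in `g` (check it on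
the elements `single ν b`), so it gives `G →* RingAut (AddMonoidAlgebra B (Fin k → ℤ))` and
`MulSemiringAction.compHom`. -/
theorem exists_action (ρ : G →* Matrix (Fin k) (Fin k) ℤ) :
    ∃ act : MulSemiringAction G (AddMonoidAlgebra B (Fin k → ℤ)),
      ∀ (g : G) (ν : Fin k → ℤ) (b : B),
        act.toSMul.smul g (AddMonoidAlgebra.single ν b) =
          AddMonoidAlgebra.single ((ρ g).mulVec ν) (g • b) := by
  refine ⟨{ smul := fun g a => TActF ρ g a
            one_smul := fun a => ?_
            mul_smul := fun g h a => ?_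
            smul_zero := fun g => map_zero (TActF ρ g)
            smul_add := fun g => map_add (TActF ρ g)
            smul_one := fun g => map_one (TActF ρ g)
            smul_mul := fun g => map_mul (TActF ρ g) }, ?_⟩
  · change TActF ρ (g * h) a = TActF ρ g (TActF ρ h a)
    rw [TActF_mul]
    rfl
  · change TActF ρ 1 a = a
    rw [TActF_one]
    rfl
  · intro g ν b
    exact TActF_single ρ g ν b

end Pool.Agent.GPM
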