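import Pool.Agent.GPM.Defs

/-! Module TCNT: points of a twisted torus -/

set_option autoImplicit false

open scoped BigOperators

namespace Pool.Agent.GPM

open Pool.Agent.HGC Pool.Agent.HGM

/-- index of the image of an integral matrix -/
private theorem tcnt_index {k : ℕ} (D : Matrix (Fin k) (Fin k) ℤ) (hD : D.det ≠ 0) :
    Nat.card ((Fin k → ℤ) ⧸ LinearMap.range (Matrix.toLin' D)) = D.det.natAbs := by
  have hinj : Function.Injective (Matrix.toLin' D) := by
    rw [← LinearMap.ker_eq_bot, LinearMap.ker_eq_bot']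
    intro v hv
    by_contra hne
    exact hD (Matrix.exists_mulVec_eq_zero_iff.1 ⟨v, hne, by simpa [Matrix.toLin'_apply] using hv⟩)
  have h := Submodule.natAbs_det_equiv (LinearMap.range (Matrix.toLin' D))
    (LinearEquiv.ofInjective (Matrix.toLin' D) hinj)
  rw [← h, ← LinearMap.det_toLin']
  rfl

/-- the determinant is positive -/
private theorem tcnt_pos {k : ℕ} (M : Matrix (Fin k) (Fin k) ℤ) {e : ℕ} (he : 1 ≤ e)
    (hM : M ^ e = 1) {q : ℤ} (hq : 1 < q) : 0 < (Matrix.scalar (Fin k) q - M).det := by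
  set R : Matrix (Fin k) (Fin k) ℝ := M.map (Int.castRingHom ℝ) with hR
  have hRe : R ^ e = 1 := by
    have : R ^ e = (M ^ e).map (Int.castRingHom ℝ) := by
      rw [hR, Matrix.map_pow]
    rw [this, hM]
    exact Matrix.map_one _ (by simp) (by simp)
  have hcast : ((Matrix.scalar (Fin k) q - M).det : ℝ) = R.charpoly.eval (q : ℝ) := by
    rw [Matrix.eval_charpoly, hR]
    have h1 := RingHom.map_det (Int.castRingHom ℝ) (Matrix.scalar (Fin k) q - M)
    rw [show ((Matrix.scalar (Fin k) q - M).det : ℝ) = Int.castRingHom ℝ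
      (Matrix.scalar (Fin k) q - M).det from rfl, h1]
    congr 1
    ext i j
    simp only [RingHom.mapMatrix_apply, Matrix.map_apply, Matrix.sub_apply, Matrix.scalar_apply,
      Matrix.diagonal_apply, map_sub]
    congr 1
    split_ifs
    · exact eq_intCast (Int.castRingHom ℝ) q
    · exact map_zero _
  have hroot : ∀ x : ℝ, 1 < x → R.charpoly.eval x ≠ 0 := by
    intro x hx h0
    rw [Matrix.eval_charpoly] at h0
    obtain ⟨v, hv0, hv⟩ := Matrix.exists_mulVec_eq_zero_iff.2 h0
    have h1 : R.mulVec v = x • v := by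
      rw [Matrix.sub_mulVec, sub_eq_zero] at hv
      rw [← hv]
      ext i
      rw [Matrix.scalar_apply, Matrix.mulVec_diagonal, Pi.smul_apply, smul_eq_mul]
    have h2 : ∀ n : ℕ, (R ^ n).mulVec v = x ^ n • v := by
      intro n
      induction n with
      | zero => simp
      | succ n ih =>
        rw [pow_succ, ← Matrix.mulVec_mulVec, h1, Matrix.mulVec_smul, ih, smul_smul, pow_succ]
        ring_nf
    have h3 := h2 e
    rw [hRe, Matrix.one_mulVec] at h3
    have h4 : (x ^ e - 1) • v = 0 := by
      rw [sub_smul, one_smul, ← h3, sub_self]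
    rcases smul_eq_zero.1 h4 with h5 | h5
    · have : 1 < x ^ e := one_lt_pow₀ hx (by omega)
      linarith
    · exact hv0 h5
  have hq' : (1 : ℝ) < (q : ℝ) := by exact_mod_cast hq
  by_contra hneg
  have hneg' : R.charpoly.eval (q : ℝ) ≤ 0 := by
    rw [← hcast]
    exact_mod_cast not_lt.1 hneg
  have hmon : R.charpoly.Monic := Matrix.charpoly_monic R
  rcases Nat.eq_zero_or_pos R.charpoly.natDegree with hd | hd
  · rw [hmon.natDegree_eq_zero.1 hd] at hneg'
    simp at hneg'
    linarith
  · have htend := Polynomial.tendsto_atTop_of_leadingCoeff_nonneg R.charpoly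
      (Polynomial.natDegree_pos_iff_degree_pos.1 hd) (by rw [hmon.leadingCoeff]; exact zero_le_one)
    obtain ⟨y, hy1, hy2⟩ := ((htend.eventually_ge_atTop 1).and
      (Filter.eventually_ge_atTop (q : ℝ))).exists
    have hcont : ContinuousOn (fun z => R.charpoly.eval z) (Set.Icc (q : ℝ) y) :=
      R.charpoly.continuous.continuousOn
    have := intermediate_value_Icc hy2 hcont
    obtain ⟨z, hz, hz0⟩ := this (show (0 : ℝ) ∈ Set.Icc _ _ from ⟨hneg', by linarith⟩)
    exact hroot z (lt_of_lt_of_le hq' hz.1) hz0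

/-- the determinant is prime to `p` -/
private theorem tcnt_cop {k : ℕ} (M : Matrix (Fin k) (Fin k) ℤ) {e : ℕ} (he : 1 ≤ e)
    (hM : M ^ e = 1) (p r : ℕ) [Fact p.Prime] (hr : 1 ≤ r) :
    ¬ (p : ℤ) ∣ (Matrix.scalar (Fin k) ((p : ℤ) ^ r) - M).det := by
  intro hdvd
  rw [← ZMod.intCast_zmod_eq_zero_iff_dvd] at hdvd
  have h1 : (((Matrix.scalar (Fin k) ((p : ℤ) ^ r) - M).det : ℤ) : ZMod p) =
      ((-M).map (Int.castRingHom (ZMod p))).det := by
    have h2 := RingHom.map_det (Int.castRingHom (ZMod p)) (Matrix.scalar (Fin k) ((p : ℤ) ^ r) - M)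
    rw [show (((Matrix.scalar (Fin k) ((p : ℤ) ^ r) - M).det : ℤ) : ZMod p) =
      Int.castRingHom (ZMod p) (Matrix.scalar (Fin k) ((p : ℤ) ^ r) - M).det from rfl, h2]
    congr 1
    ext i j
    simp only [RingHom.mapMatrix_apply, Matrix.map_apply, Matrix.sub_apply, Matrix.neg_apply,
      Matrix.scalar_apply, Matrix.diagonal_apply, map_sub, map_neg]
    have hz : (Int.castRingHom (ZMod p)) (if i = j then (p : ℤ) ^ r else 0) = 0 := by
      split_ifs
      · rw [map_pow, map_natCast, ZMod.natCast_self, zero_pow (by omega)]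
      · exact map_zero _
    rw [hz, zero_sub]
  rw [h1] at hdvd
  have h3 : ((-M).map (Int.castRingHom (ZMod p))) * ((-M).map (Int.castRingHom (ZMod p))) ^ (2 * e - 1)
      = 1 := by
    rw [← pow_succ', show 2 * e - 1 + 1 = 2 * e by omega, ← Matrix.map_pow, pow_mul, neg_sq,
      ← pow_mul, mul_comm 2 e, pow_mul, hM, one_pow]
    exact Matrix.map_one _ (by simp) (by simp)
  have h4 := congrArg Matrix.det h3
  rw [Matrix.det_mul, hdvd, zero_mul, Matrix.det_one] at h4
  exact zero_ne_one h4

/-- The number of twisted points of a torus.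
PROOF: put `q = p ^ r`, `N = ℤ^k`, `L = (q - M) N`. Homomorphisms `t : N → Ωˣ` with `t(ν)^q = t(M ν)` are the
homomorphisms which are trivial on `L`, i.e. the homomorphisms `N / L → Ωˣ`. `N / L` is finite of order
`|det (q - M)|` (`Submodule.natAbs_det_equiv`, `Int.natAbs_det...`, or any lemma on the index of the range of an
integral matrix), and this number is prime to `p`: modulo `p` it is `± det M`, and `det M = ± 1` because
`M ^ e = 1`. A finite abelian group of order prime to `p` has as many homomorphisms to `Ωˣ` as elements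
(`CommGroup.card_monoidHom_of_hasEnoughRootsOfUnity`, instance of `HasEnoughRootsOfUnity` for separably closed
fields). Sign: `det (x - M)` is positive for all real `x > 1`: it tends to infinity, and a real zero `x` is an
eigenvalue of `M`, so `x ^ e = 1`, impossible for real `x > 1`. -/
theorem tor_count {k : ℕ} (M : Matrix (Fin k) (Fin k) ℤ) {e : ℕ} (he : 1 ≤ e) (hM : M ^ e = 1)
    (p r : ℕ) [Fact p.Prime] (hr : 1 ≤ r) :
    (torCount M p r : ℤ) = (Matrix.scalar (Fin k) ((p : ℤ) ^ r) - M).det := by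
  classical
  set D : Matrix (Fin k) (Fin k) ℤ := Matrix.scalar (Fin k) ((p : ℤ) ^ r) - M with hD
  have hp : p.Prime := Fact.out
  have hpos : 0 < D.det := by
    refine tcnt_pos M he hM ?_
    have : 1 < p ^ r := Nat.one_lt_pow (by omega) hp.one_lt
    exact_mod_cast this
  have hcop : ¬ (p : ℤ) ∣ D.det := tcnt_cop M he hM p r hr
  set L : AddSubgroup (Fin k → ℤ) := (LinearMap.range (Matrix.toLin' D)).toAddSubgroup with hL
  set K : Subgroup (Multiplicative (Fin k → ℤ)) := AddSubgroup.toSubgroup L with hK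
  have hcardK : Nat.card (Multiplicative (Fin k → ℤ) ⧸ K) = D.det.natAbs := by
    rw [← tcnt_index D hpos.ne']
    rfl
  have hfin : Finite (Multiplicative (Fin k → ℤ) ⧸ K) := by
    refine Nat.finite_of_card_ne_zero ?_
    rw [hcardK]
    exact Int.natAbs_ne_zero.2 hpos.ne'
  have hne : NeZero ((Monoid.exponent (Multiplicative (Fin k → ℤ) ⧸ K) : ℕ) :
      AlgebraicClosure (ZMod p)) := by
    refine ⟨?_⟩
    rw [Ne, CharP.cast_eq_zero_iff (AlgebraicClosure (ZMod p)) p]
    intro hdvd
    refine hcop ?_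
    have h1 : p ∣ D.det.natAbs := by
      rw [← hcardK]
      exact hdvd.trans Group.exponent_dvd_nat_card
    exact Int.natCast_dvd.2 h1
  have : HasEnoughRootsOfUnity (AlgebraicClosure (ZMod p))
      (Monoid.exponent (Multiplicative (Fin k → ℤ) ⧸ K)) := inferInstance
  have hcount : torCount M p r =
      Nat.card ((Multiplicative (Fin k → ℤ) ⧸ K) →* (AlgebraicClosure (ZMod p))ˣ) := by
    have hiff : ∀ t : Multiplicative (Fin k → ℤ) →* (AlgebraicClosure (ZMod p))ˣ,
        (∀ ν : Fin k → ℤ, t (Multiplicative.ofAdd ν) ^ p ^ r =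
          t (Multiplicative.ofAdd (M.mulVec ν))) ↔ K ≤ t.ker := by
      intro t
      have hcomp : ∀ ν : Fin k → ℤ, t (Multiplicative.ofAdd (D.mulVec ν)) =
          t (Multiplicative.ofAdd ν) ^ p ^ r * (t (Multiplicative.ofAdd (M.mulVec ν)))⁻¹ := by
        intro ν
        have h1 : D.mulVec ν = (p ^ r) • ν - M.mulVec ν := by
          rw [hD, Matrix.sub_mulVec]
          congr 1
          ext i
          rw [Matrix.scalar_apply, Matrix.mulVec_diagonal, Pi.smul_apply, nsmul_eq_mul]
          push_cast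
          rfl
        rw [h1, ofAdd_sub, map_div, ofAdd_nsmul, map_pow, div_eq_mul_inv]
      constructor
      · intro h x hx
        obtain ⟨ν, hν⟩ : ∃ ν, Matrix.toLin' D ν = Multiplicative.toAdd x := hx
        rw [MonoidHom.mem_ker, ← ofAdd_toAdd x, ← hν, Matrix.toLin'_apply, hcomp, h,
          mul_inv_cancel]
      · intro h ν
        have hx : Multiplicative.ofAdd (D.mulVec ν) ∈ K := ⟨ν, by
          rw [Matrix.toLin'_apply]
          rfl⟩
        have h1 := h hx
        rw [MonoidHom.mem_ker, hcomp] at h1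
        exact mul_inv_eq_one.1 h1
    unfold torCount
    refine Nat.card_congr ⟨fun t => QuotientGroup.lift K t.1 ((hiff t.1).1 t.2),
      fun s => ⟨s.comp (QuotientGroup.mk' K), (hiff _).2 ?_⟩, ?_, ?_⟩
    · intro x hx
      rw [MonoidHom.mem_ker, MonoidHom.comp_apply, QuotientGroup.mk'_apply,
        (QuotientGroup.eq_one_iff x).2 hx, map_one]
    · intro t
      refine Subtype.ext (MonoidHom.ext fun x => ?_)
      rfl
    · intro s
      refine QuotientGroup.monoidHom_ext K (MonoidHom.ext fun x => ?_)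
      rfl
  rw [hcount, CommGroup.card_monoidHom_of_hasEnoughRootsOfUnity, hcardK]
  exact Int.natAbs_of_nonneg hpos.le

end Pool.Agent.GPM
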