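import Pool.Agent.GPM.Defs

/-! Module THOM: twisted points of the product with the torus -/

set_option autoImplicit false

open scoped BigOperators

namespace Pool.Agent.GPM

open Pool.Agent.HGC Pool.Agent.HGM

variable {B : Type} [CommRing B] {G : Type} [Group G] [MulSemiringAction G B] {k : ℕ}

/-- the torus component -/
private noncomputable def THomT {Ω : Type} [Field Ω]
    (φ : AddMonoidAlgebra B (Fin k → ℤ) →+* Ω) : Multiplicative (Fin k → ℤ) →* Ωˣ :=
  ((φ : AddMonoidAlgebra B (Fin k → ℤ) →* Ω).comp (AddMonoidAlgebra.of B (Fin k → ℤ))).toHomUnits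

private lemma THomT_coe {Ω : Type} [Field Ω]
    (φ : AddMonoidAlgebra B (Fin k → ℤ) →+* Ω) (ν : Fin k → ℤ) :
    ((THomT φ (Multiplicative.ofAdd ν) : Ωˣ) : Ω) = φ (AddMonoidAlgebra.single ν 1) := by
  rfl

private noncomputable def THomI {Ω : Type} [Field Ω] (f : B →+* Ω)
    (t : Multiplicative (Fin k → ℤ) →* Ωˣ) : AddMonoidAlgebra B (Fin k → ℤ) →+* Ω :=
  AddMonoidAlgebra.liftNCRingHom f ((Units.coeHom Ω).comp t) (fun _ _ => Commute.all _ _)

private lemma THomI_single {Ω : Type} [Field Ω] (f : B →+* Ω)
    (t : Multiplicative (Fin k → ℤ) →* Ωˣ) (ν : Fin k → ℤ) (b : B) :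
    THomI f t (AddMonoidAlgebra.single ν b) = f b * (t (Multiplicative.ofAdd ν) : Ωˣ) := by
  unfold THomI
  rw [AddMonoidAlgebra.liftNCRingHom_single]
  rfl

/-- Twisted points of the product with the torus.
PROOF: a ring homomorphism `φ : B[ℤ^k] → Ω` is a pair of a ring homomorphism `B → Ω` and a homomorphism
`t : Multiplicative (ℤ^k) →* Ωˣ`, with `φ(b e^ν) = φ_B(b) t(ν)` (`AddMonoidAlgebra.liftNCRingHom`;
`t(ν)` is a unit because `e^ν e^(-ν) = 1`). The condition
`φ(a)^q = φ(g a)` for all `a` is equivalent to the two conditions on `φ_B` and `t` (take `a = b`, `a = e^ν`; both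
sides are additive and multiplicative in `a`: `y ↦ y^q` is additive in characteristic `p`). -/
theorem homCount_torus (ρ : G →* Matrix (Fin k) (Fin k) ℤ)
    (act : MulSemiringAction G (AddMonoidAlgebra B (Fin k → ℤ)))
    (hact : ∀ (g : G) (ν : Fin k → ℤ) (b : B),
        act.toSMul.smul g (AddMonoidAlgebra.single ν b) =
          AddMonoidAlgebra.single ((ρ g).mulVec ν) (g • b)) (g : G) (p r : ℕ) [Fact p.Prime] :
    @homCount (AddMonoidAlgebra B (Fin k → ℤ)) _ G _ act g p r _ =
      homCount B g p r * torCount (ρ g) p r := by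
  have hact' : ∀ (ν : Fin k → ℤ) (b : B), act.toSMul.smul g (AddMonoidAlgebra.single ν b) =
      AddMonoidAlgebra.single ((ρ g).mulVec ν) (g • b) := fun ν b => hact g ν b
  unfold homCount torCount
  rw [← Nat.card_prod]
  refine Nat.card_congr
    { toFun := fun φ => (⟨φ.1.comp AddMonoidAlgebra.singleZeroRingHom, fun b => ?_⟩,
        ⟨THomT φ.1, fun ν => ?_⟩)
      invFun := fun x => ⟨THomI x.1.1 x.2.1, fun a => ?_⟩
      left_inv := fun φ => ?_
      right_inv := fun x => ?_ }
  · have h := φ.2 (AddMonoidAlgebra.single 0 b)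
    change _ = φ.1 (act.toSMul.smul g _) at h
    rw [hact', Matrix.mulVec_zero] at h
    exact h
  · apply Units.ext
    have h := φ.2 (AddMonoidAlgebra.single ν 1)
    change _ = φ.1 (act.toSMul.smul g _) at h
    rw [hact', smul_one] at h
    rw [Units.val_pow_eq_pow_val, THomT_coe, THomT_coe]
    exact h
  · have h : (iterateFrobenius (AlgebraicClosure (ZMod p)) p r).comp (THomI x.1.1 x.2.1) =
        (THomI x.1.1 x.2.1).comp (@MulSemiringAction.toRingHom G _ (AddMonoidAlgebra B (Fin k → ℤ)) _
          act g) := by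
      apply AddMonoidAlgebra.ringHom_ext
      · intro b
        have h1 := x.1.2 b
        simp only [RingHom.comp_apply, iterateFrobenius_def]
        change _ = THomI x.1.1 x.2.1 (act.toSMul.smul g _)
        rw [hact', Matrix.mulVec_zero, THomI_single, THomI_single, ofAdd_zero, map_one,
          Units.val_one, mul_one, mul_one]
        exact h1
      · intro ν
        have h1 := congrArg Units.val (x.2.2 ν)
        simp only [RingHom.comp_apply, iterateFrobenius_def]
        change _ = THomI x.1.1 x.2.1 (act.toSMul.smul g _)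
        rw [hact', smul_one, THomI_single, THomI_single, map_one, one_mul, one_mul]
        rw [Units.val_pow_eq_pow_val] at h1
        exact h1
    have h2 := congrArg (fun f : AddMonoidAlgebra B (Fin k → ℤ) →+* _ => f a) h
    simpa [iterateFrobenius_def] using h2
  · apply Subtype.ext
    apply AddMonoidAlgebra.ringHom_ext
    · intro b
      simp only [THomI_single, ofAdd_zero, map_one, Units.val_one, mul_one]
      rfl
    · intro ν
      simp only [THomI_single, map_one, one_mul]
      rfl
  · apply Prod.ext
    · apply Subtype.ext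
      ext b
      change THomI x.1.1 x.2.1 (AddMonoidAlgebra.single 0 b) = x.1.1 b
      rw [THomI_single, ofAdd_zero, map_one, Units.val_one, mul_one]
    · apply Subtype.ext
      apply MonoidHom.ext
      intro ν
      apply Units.ext
      change THomI x.1.1 x.2.1 (AddMonoidAlgebra.single ν.toAdd 1) = _
      rw [THomI_single, map_one, one_mul]
      rfl

end Pool.Agent.GPM
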