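import Pool.Agent.GPM.Quot
import Pool.Agent.GPM.TAct
import Pool.Agent.GPM.THom
import Pool.Agent.GPM.TCnt

/-! Tori (assembly) -/

set_option autoImplicit false

open scoped BigOperators

namespace Pool.Agent.GPM

open Pool.Agent.HGC Pool.Agent.HGM

/-- The quotient of `Spec B × torus` by `G`. -/
theorem tor_quot {B : Type} [CommRing B] {G : Type} [Group G] [Fintype G] [MulSemiringAction G B]
    {k : ℕ} (hB : Algebra.FiniteType ℤ B) (ρ : G →* Matrix (Fin k) (Fin k) ℤ) :
    ∃ (n m : ℕ) (P : Fin m → MvPolynomial (Fin n) ℤ), ∀ (p r : ℕ) [Fact p.Prime], 1 ≤ r →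
      Fintype.card G * affCount P (GaloisField p r) =
        ∑ g : G, homCount B g p r * torCount (ρ g) p r := by
  obtain ⟨act, hact⟩ := exists_action (B := B) ρ
  have : Algebra.FiniteType ℤ (AddMonoidAlgebra B (Fin k → ℤ)) :=
    Algebra.FiniteType.trans hB (AddMonoidAlgebra.finiteType_of_fg B _)
  obtain ⟨n, m, P, hP⟩ := @quot_count (AddMonoidAlgebra B (Fin k → ℤ)) _ G _ _ act this
  refine ⟨n, m, P, fun p r _ hr => ?_⟩
  rw [hP p r hr]
  exact Finset.sum_congr rfl fun g _ => homCount_torus ρ act hact g p r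

end Pool.Agent.GPM
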