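import Pool.Agent.GPM.WCl
import Pool.Agent.GPM.Tor
import Pool.Agent.GPM.CRng
import Pool.Agent.GPM.CTw
import Pool.Agent.GPM.CGrw
import Pool.Agent.GPM.Ext
import Pool.Agent.HGM.Spec

/-!
# The recursion
-/

set_option autoImplicit false

open scoped BigOperators

namespace Pool.Agent.GPM

open Pool.Agent.HGC Pool.Agent.HGM

section

variable {n m : ℕ} (P : Fin m → MvPolynomial (Fin n) ℤ) {G : Type} [Group G] [Fintype G]
  (σ : G →* Equiv.Perm (Fin n))

/-- The function `q ↦ |G|⁻¹ ∑_g tr ρ(g) #{x ∈ cone : Frob_q x = g x}`. -/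
noncomputable def coneF {k : ℕ} (ρ : G →* Matrix (Fin k) (Fin k) ℤ) : PF := fun p r =>
  haveI : Fact (p : ℕ).Prime := ⟨p.2⟩
  (∑ g : G, (((ρ g).trace : ℤ) : ℂ) * (coneCount P (σ g) p r : ℂ)) / (Fintype.card G : ℂ)

theorem coneF_eq {k : ℕ} (ρ : G →* Matrix (Fin k) (Fin k) ℤ) (p : Nat.Primes) (r : ℕ)
    [Fact (p : ℕ).Prime] : coneF P σ ρ p r =
      (∑ g : G, (((ρ g).trace : ℤ) : ℂ) * (coneCount P (σ g) p r : ℂ)) / (Fintype.card G : ℂ) := rfl

theorem coneF_pol {k : ℕ} (ρ : G →* Matrix (Fin k) (Fin k) ℤ) :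
    Pol (n.factorial * n) (coneF P σ ρ) := by
  refine ⟨(∑ g : G, |(((ρ g).trace : ℤ) : ℝ)|) / Fintype.card G, fun p r hr => ?_⟩
  haveI : Fact (p : ℕ).Prime := ⟨p.2⟩
  rw [coneF_eq, norm_div, Complex.norm_natCast, div_mul_eq_mul_div]
  refine div_le_div_of_nonneg_right ?_ (Nat.cast_nonneg _)
  refine (norm_sum_le _ _).trans ?_
  rw [Finset.sum_mul]
  refine Finset.sum_le_sum fun g _ => ?_
  rw [norm_mul, Complex.norm_intCast, Complex.norm_natCast]
  refine mul_le_mul_of_nonneg_left ?_ (abs_nonneg _)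
  exact_mod_cast cone_growth P (σ g) p r hr

variable (hst : ∀ g i, MvPolynomial.rename (σ g) (P i) ∈ Ideal.span (Set.range P))

include hst

/-- The relation given by the quotient of the product with the torus. -/
theorem relation {k : ℕ} (ρ : G →* Matrix (Fin k) (Fin k) ℤ) :
    ∃ (N M : ℕ) (Q : Fin M → MvPolynomial (Fin N) ℤ), ∀ (p : Nat.Primes) (r : ℕ) [Fact (p : ℕ).Prime],
      1 ≤ r → (Fintype.card G : ℂ) * countPF (affCount Q) p r =
        ∑ g : G, (coneCount P (σ g) p r : ℂ) *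
          (((Matrix.scalar (Fin k) (((p : ℕ) : ℤ) ^ r) - ρ g).det : ℤ) : ℂ) := by
  obtain ⟨B, _, _, hB, hcone⟩ := cone_ring P σ hst
  obtain ⟨N, M, Q, hQ⟩ := tor_quot hB ρ
  refine ⟨N, M, Q, fun p r _ hr => ?_⟩
  have h1 := hQ p r hr
  have h2 : ∀ g : G, (torCount (ρ g) p r : ℤ) =
      (Matrix.scalar (Fin k) (((p : ℕ) : ℤ) ^ r) - ρ g).det := by
    intro g
    refine tor_count (ρ g) (e := Fintype.card G) Fintype.card_pos ?_ p r hr
    rw [← map_pow, pow_card_eq_one, map_one]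
  rw [countPF_eq]
  have h3 : ((Fintype.card G * affCount Q (GaloisField p r) : ℕ) : ℂ) =
      ((∑ g : G, homCount B g p r * torCount (ρ g) p r : ℕ) : ℂ) := by rw [h1]
  push_cast at h3
  rw [h3]
  refine Finset.sum_congr rfl fun g _ => ?_
  rw [hcone g p r, ← h2 g]
  push_cast
  ring

/-- The trivial representation. -/
theorem coneF_one {k : ℕ} (ρ : G →* Matrix (Fin k) (Fin k) ℤ) (h1 : ∀ g, (ρ g).trace = 1) :
    InZ (coneF P σ ρ) := by
  obtain ⟨N, M, Q, hQ⟩ := relation P σ hst (k := 0) 1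
  refine InZ.congr (fun p r hr => ?_) (InZ.aff Q)
  haveI : Fact (p : ℕ).Prime := ⟨p.2⟩
  have h2 := hQ p r hr
  have h3 : (Fintype.card G : ℂ) ≠ 0 := by exact_mod_cast Fintype.card_ne_zero
  rw [coneF_eq, eq_div_iff h3, mul_comm, h2]
  refine Finset.sum_congr rfl fun g _ => ?_
  rw [h1 g]
  simp

/-- MODULE REC.  The recursion.
PROOF (`q = p ^ r`, `A = n! n`): write `F_ρ = coneF P σ ρ`. Induction on `D`, for all `k, ρ` together: there are `z` in
the class `InZ` and `C` with `‖F_ρ - z‖ q^D ≤ C q^A`. `D = 0`: `z = 0`, `coneF_pol`. Step: for `k = 0` all traces are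
`0`, `F_ρ = 0`. Let `k ≥ 1`. By `relation` (scheme `Q`, count `T`) and `det_traces`
`T = q^k F_1 - q^(k-1) F_ρ + ∑_(2 ≤ j ≤ k) (-1)^j q^(k-j) F_(ρ_j)`, `F_1` = `coneF` of the trivial representation
(`coneF_one`). Take `z_j` for `ρ_j` by induction and `z` with
`q^(k-1) z = q^k F_1 - T + ∑_j (-1)^j q^(k-j) z_j` (in the class by `InZ.add, neg, mulq` and `divq` `k - 1` times).
`F_ρ - z = ∑_j (-1)^j q^(1-j) (F_(ρ_j) - z_j)`, so `‖F_ρ - z‖ q^(D+1) ≤ ∑_j q^(2-j) C_j q^A ≤ (∑ |C_j|) q^A`. -/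
theorem rec_step (D : ℕ) : ∀ (k : ℕ) (ρ : G →* Matrix (Fin k) (Fin k) ℤ), ∃ z : PF, InZ z ∧ ∃ C : ℝ,
    ∀ (p : Nat.Primes) (r : ℕ), 1 ≤ r → ‖coneF P σ ρ p r - z p r‖ * (((p : ℕ) : ℝ) ^ r) ^ D ≤
      C * (((p : ℕ) : ℝ) ^ r) ^ (n.factorial * n) := by
  induction D with
  | zero =>
    intro k ρ
    obtain ⟨C, hC⟩ := coneF_pol P σ ρ
    refine ⟨fun _ _ => 0, InZ.congr (fun p r hr => by simp) (InZ.poly 0), C, fun p r hr => ?_⟩
    rw [sub_zero, pow_zero, mul_one]
    exact hC p r hr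
  | succ D ih =>
    intro k ρ
    rcases Nat.eq_zero_or_pos k with rfl | hk
    · refine ⟨fun _ _ => 0, InZ.congr (fun p r hr => by simp) (InZ.poly 0), 0, fun p r hr => ?_⟩
      haveI : Fact (p : ℕ).Prime := ⟨p.2⟩
      have h1 : coneF P σ ρ p r = 0 := by
        rw [coneF_eq]
        have h2 : ∀ g : G, (ρ g).trace = 0 := fun g => by simp [Matrix.trace]
        simp [h2]
      rw [h1]
      simp
    obtain ⟨N, M, Q, hQ⟩ := relation P σ hst ρ
    obtain ⟨kk, ρρ, hρ⟩ := det_traces ρ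
    choose z hz C hC using fun j => ih (kk j) (ρρ j)
    -- the trivial representation
    set one' : G →* Matrix (Fin 1) (Fin 1) ℤ := 1 with hone
    have htr1 : ∀ g : G, (one' g).trace = 1 := fun g => by simp [hone, Matrix.trace]
    have hF1 := coneF_one P σ hst one' htr1
    have hmulq : ∀ (a : ℕ) (f : PF), InZ f → InZ fun p r => (((p : ℕ) : ℂ) ^ r) ^ a * f p r := by
      intro a f hf
      induction a with
      | zero => exact InZ.congr (fun p r _ => by simp) hf
      | succ a iha => exact InZ.congr (fun p r _ => by ring) (InZ.mulq iha)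
    have hdivq : ∀ (a : ℕ) (f : PF), (InZ fun p r => (((p : ℕ) : ℂ) ^ r) ^ a * f p r) → InZ f := by
      intro a f hf
      induction a with
      | zero => exact InZ.congr (fun p r _ => by simp) hf
      | succ a iha => exact iha (InZ.divq (InZ.congr (fun p r _ => by ring) hf))
    have hsum : ∀ (s : Finset ℕ) (f : ℕ → PF), (∀ j ∈ s, InZ (f j)) →
        InZ fun p r => ∑ j ∈ s, f j p r := by
      intro s f
      classical
      induction s using Finset.induction_on with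
      | empty => exact fun _ => InZ.congr (fun p r _ => by simp) (InZ.poly 0)
      | insert a s ha ihs =>
        intro h
        refine InZ.congr (fun p r _ => ?_) (InZ.add (h a (Finset.mem_insert_self a s))
          (ihs fun j hj => h j (Finset.mem_insert_of_mem hj)))
        rw [Finset.sum_insert ha]
    have hsgn : ∀ (j : ℕ) (f : PF), InZ f → InZ fun p r => (-1) ^ j * f p r := by
      intro j f hf
      rcases neg_one_pow_eq_or ℂ j with h | h
      · exact InZ.congr (fun p r _ => by rw [h, one_mul]) hf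
      · exact InZ.congr (fun p r _ => by rw [h, neg_one_mul]) hf.neg
    let w : PF := fun p r => (((p : ℕ) : ℂ) ^ r) ^ k * coneF P σ one' p r - countPF (affCount Q) p r +
      ∑ j ∈ Finset.Icc 2 k, (-1) ^ j * ((((p : ℕ) : ℂ) ^ r) ^ (k - j) * z j p r)
    have hw : InZ w := by
      refine InZ.congr (fun p r _ => ?_) (InZ.add (InZ.add (hmulq k _ hF1) (InZ.aff Q).neg)
        (hsum (Finset.Icc 2 k) (fun j p r => (-1) ^ j * ((((p : ℕ) : ℂ) ^ r) ^ (k - j) * z j p r))
          fun j _ => hsgn j _ (hmulq (k - j) _ (hz j))))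
      simp only [w, sub_eq_add_neg]
    let zz : PF := fun p r => w p r / (((p : ℕ) : ℂ) ^ r) ^ (k - 1)
    have hq0 : ∀ (p : Nat.Primes) (r : ℕ), ((p : ℕ) : ℂ) ^ r ≠ 0 := fun p r =>
      pow_ne_zero _ (by exact_mod_cast p.2.ne_zero)
    have hzz : InZ zz := by
      refine hdivq (k - 1) zz (InZ.congr (fun p r _ => ?_) hw)
      simp only [zz]
      rw [mul_div_cancel₀ _ (pow_ne_zero _ (hq0 p r))]
    refine ⟨zz, hzz, ∑ j ∈ Finset.Icc 2 k, |C j|, fun p r hr => ?_⟩
    haveI : Fact (p : ℕ).Prime := ⟨p.2⟩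
    set q : ℂ := ((p : ℕ) : ℂ) ^ r with hqdef
    have hq : q ≠ 0 := hq0 p r
    set q' : ℝ := ((p : ℕ) : ℝ) ^ r with hq'def
    have hq'1 : 1 ≤ q' := one_le_pow₀ (by exact_mod_cast p.2.one_le)
    have hnq : ‖q‖ = q' := by rw [hqdef, hq'def, norm_pow, Complex.norm_natCast]
    have hG : (Fintype.card G : ℂ) ≠ 0 := by exact_mod_cast Fintype.card_ne_zero
    -- the relation
    have h1 : countPF (affCount Q) p r = q ^ k * coneF P σ one' p r - q ^ (k - 1) * coneF P σ ρ p r +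
        ∑ j ∈ Finset.Icc 2 k, (-1) ^ j * (q ^ (k - j) * coneF P σ (ρρ j) p r) := by
      have h2 := hQ p r hr
      have h3 : countPF (affCount Q) p r = (∑ g : G, (coneCount P (σ g) p r : ℂ) *
          (((Matrix.scalar (Fin k) (((p : ℕ) : ℤ) ^ r) - ρ g).det : ℤ) : ℂ)) / Fintype.card G := by
        rw [← h2, mul_div_cancel_left₀ _ hG]
      rw [h3, coneF_eq, coneF_eq]
      simp_rw [coneF_eq]
      rw [div_eq_iff hG]
      have h4 : (q ^ k * ((∑ g : G, (((one' g).trace : ℤ) : ℂ) * (coneCount P (σ g) p r : ℂ)) /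
            (Fintype.card G : ℂ)) - q ^ (k - 1) * ((∑ g : G, (((ρ g).trace : ℤ) : ℂ) *
              (coneCount P (σ g) p r : ℂ)) / (Fintype.card G : ℂ)) +
          ∑ j ∈ Finset.Icc 2 k, (-1) ^ j * (q ^ (k - j) * ((∑ g : G, (((ρρ j g).trace : ℤ) : ℂ) *
            (coneCount P (σ g) p r : ℂ)) / (Fintype.card G : ℂ)))) * (Fintype.card G : ℂ) =
          q ^ k * (∑ g : G, (((one' g).trace : ℤ) : ℂ) * (coneCount P (σ g) p r : ℂ)) -
          q ^ (k - 1) * (∑ g : G, (((ρ g).trace : ℤ) : ℂ) * (coneCount P (σ g) p r : ℂ)) +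
          ∑ j ∈ Finset.Icc 2 k, (-1) ^ j * (q ^ (k - j) * (∑ g : G, (((ρρ j g).trace : ℤ) : ℂ) *
            (coneCount P (σ g) p r : ℂ))) := by
        rw [add_mul, sub_mul, Finset.sum_mul]
        congr 1
        · congr 1
          · rw [mul_assoc, div_mul_cancel₀ _ hG]
          · rw [mul_assoc, div_mul_cancel₀ _ hG]
        · refine Finset.sum_congr rfl fun j _ => ?_
          rw [mul_assoc, mul_assoc, div_mul_cancel₀ _ hG]
      rw [h4]
      simp_rw [Finset.mul_sum]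
      rw [Finset.sum_comm, ← Finset.sum_sub_distrib, ← Finset.sum_add_distrib]
      refine Finset.sum_congr rfl fun g _ => ?_
      rw [hρ g, htr1 g]
      push_cast
      rw [mul_add, mul_sub, Finset.mul_sum, hqdef]
      congr 1
      · ring
      · refine Finset.sum_congr rfl fun j _ => ?_
        ring
    have h5 : q ^ (k - 1) * (coneF P σ ρ p r - zz p r) =
        ∑ j ∈ Finset.Icc 2 k, (-1) ^ j * (q ^ (k - j) * (coneF P σ (ρρ j) p r - z j p r)) := by
      have h6 : q ^ (k - 1) * zz p r = w p r := by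
        simp only [zz]
        rw [mul_div_cancel₀ _ (pow_ne_zero _ hq)]
      rw [mul_sub, h6]
      simp only [w]
      rw [h1]
      simp_rw [mul_sub]
      rw [Finset.sum_sub_distrib]
      ring
    have h7 : q' ^ (k - 1) * ‖coneF P σ ρ p r - zz p r‖ ≤
        ∑ j ∈ Finset.Icc 2 k, q' ^ (k - j) * ‖coneF P σ (ρρ j) p r - z j p r‖ := by
      have h8 := congrArg norm h5
      rw [norm_mul, norm_pow, hnq] at h8
      rw [h8]
      refine (norm_sum_le _ _).trans (Finset.sum_le_sum fun j _ => ?_)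
      rw [norm_mul, norm_pow, norm_neg, norm_one, one_pow, one_mul, norm_mul, norm_pow, hnq]
    have h9 : q' ^ (k - 1) * (‖coneF P σ ρ p r - zz p r‖ * q' ^ (D + 1)) ≤
        q' ^ (k - 1) * ((∑ j ∈ Finset.Icc 2 k, |C j|) * q' ^ (n.factorial * n)) := by
      calc q' ^ (k - 1) * (‖coneF P σ ρ p r - zz p r‖ * q' ^ (D + 1))
          = (q' ^ (k - 1) * ‖coneF P σ ρ p r - zz p r‖) * q' ^ (D + 1) := by ring
        _ ≤ (∑ j ∈ Finset.Icc 2 k, q' ^ (k - j) * ‖coneF P σ (ρρ j) p r - z j p r‖) *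
            q' ^ (D + 1) := mul_le_mul_of_nonneg_right h7 (by positivity)
        _ = ∑ j ∈ Finset.Icc 2 k, q' ^ (k - j + 1) *
            (‖coneF P σ (ρρ j) p r - z j p r‖ * q' ^ D) := by
            rw [Finset.sum_mul]
            refine Finset.sum_congr rfl fun j _ => ?_
            ring
        _ ≤ ∑ j ∈ Finset.Icc 2 k, q' ^ (k - 1) * (|C j| * q' ^ (n.factorial * n)) := by
            refine Finset.sum_le_sum fun j hj => ?_
            have hj2 := (Finset.mem_Icc.1 hj).1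
            have hjk := (Finset.mem_Icc.1 hj).2
            refine mul_le_mul (pow_le_pow_right₀ hq'1 (by omega)) ?_ (by positivity) (by positivity)
            refine (hC j p r hr).trans ?_
            exact mul_le_mul_of_nonneg_right (le_abs_self _) (by positivity)
        _ = q' ^ (k - 1) * ((∑ j ∈ Finset.Icc 2 k, |C j|) * q' ^ (n.factorial * n)) := by
            rw [Finset.sum_mul, Finset.mul_sum]
    exact le_of_mul_le_mul_left h9 (by positivity)

theorem coneF_inW {k : ℕ} (ρ : G →* Matrix (Fin k) (Fin k) ℤ) : InW (coneF P σ ρ) := by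
  intro D
  obtain ⟨z, hz, C, hC⟩ := rec_step P σ hst (D + n.factorial * n) k ρ
  refine ⟨z, hz, C, fun p r hr => ?_⟩
  have h1 := hC p r hr
  have h2 : (0 : ℝ) < (((p : ℕ) : ℝ) ^ r) ^ (n.factorial * n) := by
    have : (0 : ℝ) < ((p : ℕ) : ℝ) := by exact_mod_cast p.2.pos
    positivity
  rw [pow_add, ← mul_assoc] at h1
  exact le_of_mul_le_mul_right h1 h2

end

/-- The count of a datum is in the class `InW`. -/
theorem Datum.inW (X : Datum) : InW X.count := by
  have h1 := coneF_inW X.P X.σ X.stable X.ρ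
  have h2 : InW (coneF (n := 0) (m := 0) (Fin.elim0) (1 : X.G →* Equiv.Perm (Fin 0)) X.ρ) :=
    coneF_inW (n := 0) (m := 0) _ _ (fun _ i => i.elim0) X.ρ
  have hcone0 : ∀ (p r : ℕ) [Fact p.Prime], coneCount (n := 0) (m := 0) Fin.elim0 1 p r = 1 := by
    intro p r _
    unfold coneCount
    rw [Nat.card_eq_one_iff_unique]
    refine ⟨⟨fun a b => Subtype.ext (funext fun j => j.elim0)⟩, ⟨⟨fun j => j.elim0, fun i => i.elim0,
      fun j => j.elim0⟩⟩⟩
  have h3 : (Fintype.card X.G : ℂ) ≠ 0 := by exact_mod_cast Fintype.card_ne_zero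
  refine InW.divq1 (A := X.n.factorial * X.n) ?_ (InW.congr (fun p r hr => ?_) (h1.add h2.neg))
  · obtain ⟨C, hC⟩ := coneF_pol X.P X.σ X.ρ
    refine ⟨(∑ g : X.G, |(((X.ρ g).trace : ℤ) : ℝ)|) / Fintype.card X.G, fun p r hr => ?_⟩
    haveI : Fact (p : ℕ).Prime := ⟨p.2⟩
    have h5 : X.count p r = (∑ g : X.G, (((X.ρ g).trace : ℤ) : ℂ) *
      (twCount X.P (X.σ g) p r : ℂ)) / (Fintype.card X.G : ℂ) := rfl
    rw [h5, norm_div, Complex.norm_natCast, div_mul_eq_mul_div]
    refine div_le_div_of_nonneg_right ?_ (Nat.cast_nonneg _)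
    refine (norm_sum_le _ _).trans ?_
    rw [Finset.sum_mul]
    refine Finset.sum_le_sum fun g _ => ?_
    rw [norm_mul, Complex.norm_intCast, Complex.norm_natCast]
    refine mul_le_mul_of_nonneg_left ?_ (abs_nonneg _)
    have h6 := cone_growth X.P (X.σ g) p r hr
    have h7 := cone_tw X.P X.hom (X.σ g) p r hr
    have h8 : (2 : ℤ) ≤ ((p : ℕ) : ℤ) ^ r := by
      have h9 : (2 : ℤ) ≤ ((p : ℕ) : ℤ) := by exact_mod_cast p.2.two_le
      calc (2 : ℤ) ≤ ((p : ℕ) : ℤ) := h9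
        _ = ((p : ℕ) : ℤ) ^ 1 := (pow_one _).symm
        _ ≤ ((p : ℕ) : ℤ) ^ r := pow_le_pow_right₀ (by linarith) hr
    have h10 : (twCount X.P (X.σ g) p r : ℤ) ≤ (coneCount X.P (X.σ g) p r : ℤ) := by
      rw [h7]
      have : (0 : ℤ) ≤ (twCount X.P (X.σ g) p r : ℤ) := Int.natCast_nonneg _
      nlinarith
    have h11 : twCount X.P (X.σ g) p r ≤ ((p : ℕ) ^ r) ^ (X.n.factorial * X.n) := by
      have : twCount X.P (X.σ g) p r ≤ coneCount X.P (X.σ g) p r := by exact_mod_cast h10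
      exact this.trans h6
    exact_mod_cast h11
  · haveI : Fact (p : ℕ).Prime := ⟨p.2⟩
    have h5 : X.count p r = (∑ g : X.G, (((X.ρ g).trace : ℤ) : ℂ) *
      (twCount X.P (X.σ g) p r : ℂ)) / (Fintype.card X.G : ℂ) := rfl
    rw [h5, coneF_eq, coneF_eq, ← sub_eq_add_neg, ← sub_div, ← Finset.sum_sub_distrib,
      ← mul_div_assoc, Finset.mul_sum]
    congr 1
    refine Finset.sum_congr rfl fun g _ => ?_
    have h6 : (coneCount X.P (X.σ g) p r : ℂ) = 1 + (((p : ℕ) : ℂ) ^ r - 1) *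
        (twCount X.P (X.σ g) p r : ℂ) := by
      have h7 := cone_tw X.P X.hom (X.σ g) p r hr
      exact_mod_cast congrArg (Int.cast : ℤ → ℂ) h7
    rw [h6, MonoidHom.one_apply, hcone0]
    push_cast
    ring

end Pool.Agent.GPM
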