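import Pool.Agent.GPM.ZCl

/-! Module WCL: the class InW -/

set_option autoImplicit false

open scoped BigOperators

namespace Pool.Agent.GPM

open Pool.Agent.HGC Pool.Agent.HGM

theorem InW.congr {f g : PF} (h : ∀ p r, 1 ≤ r → f p r = g p r) (hf : InW f) : InW g := by
  intro D
  obtain ⟨z, hz, C, hC⟩ := hf D
  refine ⟨z, hz, C, fun p r hr => ?_⟩
  rw [← h p r hr]
  exact hC p r hr

theorem InW.of {f : PF} (hf : InZ f) : InW f := by
  intro D
  exact ⟨f, hf, 0, fun p r _ => by simp⟩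

theorem InW.add {f g : PF} (hf : InW f) (hg : InW g) : InW fun p r => f p r + g p r := by
  intro D
  obtain ⟨z, hz, C, hC⟩ := hf D
  obtain ⟨z', hz', C', hC'⟩ := hg D
  refine ⟨fun p r => z p r + z' p r, hz.add hz', C + C', fun p r hr => ?_⟩
  have h0 : (0 : ℝ) ≤ (((p : ℕ) : ℝ) ^ r) ^ D := by positivity
  have h1 : ‖f p r + g p r - (z p r + z' p r)‖ ≤ ‖f p r - z p r‖ + ‖g p r - z' p r‖ := by
    rw [add_sub_add_comm]
    exact norm_add_le _ _
  calc ‖f p r + g p r - (z p r + z' p r)‖ * (((p : ℕ) : ℝ) ^ r) ^ D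
      ≤ (‖f p r - z p r‖ + ‖g p r - z' p r‖) * (((p : ℕ) : ℝ) ^ r) ^ D :=
        mul_le_mul_of_nonneg_right h1 h0
    _ = ‖f p r - z p r‖ * (((p : ℕ) : ℝ) ^ r) ^ D + ‖g p r - z' p r‖ * (((p : ℕ) : ℝ) ^ r) ^ D := by
        ring
    _ ≤ C + C' := add_le_add (hC p r hr) (hC' p r hr)

theorem InW.neg {f : PF} (hf : InW f) : InW fun p r => -f p r := by
  intro D
  obtain ⟨z, hz, C, hC⟩ := hf D
  refine ⟨fun p r => -z p r, hz.neg, C, fun p r hr => ?_⟩
  have h1 : ‖-f p r - -z p r‖ = ‖f p r - z p r‖ := by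
    rw [show -f p r - -z p r = -(f p r - z p r) by ring, norm_neg]
  rw [h1]
  exact hC p r hr

private theorem WCL_zero : InW fun _ _ => 0 :=
  InW.congr (f := fun p r => (((0 : Polynomial ℤ).eval (((p : ℕ) : ℤ) ^ r) : ℤ) : ℂ))
    (fun p r _ => by simp) (InW.of (InZ.poly 0))

private theorem WCL_nsmul (c : ℕ) {f : PF} (hf : InW f) : InW fun p r => (c : ℂ) * f p r := by
  induction c with
  | zero => exact WCL_zero.congr (fun p r _ => by simp)
  | succ c ih => exact (ih.add hf).congr (fun p r _ => by push_cast; ring)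

theorem InW.zsmul (c : ℤ) {f : PF} (hf : InW f) : InW fun p r => (c : ℂ) * f p r := by
  obtain ⟨n, rfl | rfl⟩ := c.eq_nat_or_neg
  · exact (WCL_nsmul n hf).congr (fun p r _ => by push_cast; ring)
  · exact (WCL_nsmul n hf).neg.congr (fun p r _ => by push_cast; ring)

theorem InW.sum {ι : Type} (s : Finset ι) (f : ι → PF) (hf : ∀ i ∈ s, InW (f i)) :
    InW fun p r => ∑ i ∈ s, f i p r := by
  classical
  induction s using Finset.induction_on with
  | empty => exact WCL_zero.congr (fun p r _ => by simp)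
  | insert a s ha ih =>
    exact ((hf a (Finset.mem_insert_self _ _)).add
      (ih fun i hi => hf i (Finset.mem_insert_of_mem hi))).congr
        (fun p r _ => by rw [Finset.sum_insert ha])

private theorem WCL_q_ne (p : Nat.Primes) (r : ℕ) : (((p : ℕ) : ℂ) ^ r) ≠ 0 :=
  pow_ne_zero _ (Nat.cast_ne_zero.mpr p.2.ne_zero)

private theorem WCL_inv (k : ℕ) {f : PF} (hf : InZ f) :
    InZ fun p r => ((((p : ℕ) : ℂ) ^ r)⁻¹) ^ k * f p r := by
  induction k with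
  | zero => exact hf.congr (fun p r _ => by simp)
  | succ k ih =>
    refine InZ.divq (ih.congr fun p r _ => ?_)
    have := WCL_q_ne p r
    rw [pow_succ]
    field_simp

private theorem WCL_sumZ (L : ℕ) {f : PF} (hf : InZ f) :
    InZ fun p r => ∑ k ∈ Finset.range L, ((((p : ℕ) : ℂ) ^ r)⁻¹) ^ (k + 1) * f p r := by
  induction L with
  | zero =>
    exact InZ.congr (f := fun p r => (((0 : Polynomial ℤ).eval (((p : ℕ) : ℤ) ^ r) : ℤ) : ℂ))
      (fun p r _ => by simp) (InZ.poly 0)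
  | succ L ih =>
    exact (ih.add (WCL_inv (L + 1) hf)).congr (fun p r _ => by rw [Finset.sum_range_succ])

private theorem WCL_geom (x u : ℂ) (hx : x ≠ 0) (L : ℕ) :
    u = ∑ k ∈ Finset.range L, (x⁻¹) ^ (k + 1) * ((x - 1) * u) + (x⁻¹) ^ L * u := by
  induction L with
  | zero => simp
  | succ L ih =>
    rw [Finset.sum_range_succ]
    have h : (x⁻¹) ^ (L + 1) * ((x - 1) * u) + (x⁻¹) ^ (L + 1) * u = (x⁻¹) ^ L * u := by
      rw [pow_succ]
      field_simp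
      ring
    rw [add_assoc, h]
    exact ih

/-- Division by `q - 1`.
PROOF: let `U = (q - 1) f`, `‖f‖ ≤ C0 q ^ A`, let `D` be given, `L = A + D`. For all `q`:
`f = ∑_(k = 1)^L q ^ (-k) U + q ^ (-L) f`. Take `z_U` in the class `InZ` with `‖U - z_U‖ q ^ D ≤ C`, and
`z = ∑_(k = 1)^L q ^ (-k) z_U`, which is in the class by `InZ.add` and `InZ.divq`. Then
`‖f - z‖ q ^ D ≤ ∑_k q ^ (-k) C + q ^ (D - L) C0 q ^ A ≤ L C + C0`. -/
theorem InW.divq1 {A : ℕ} {f : PF} (hA : Pol A f)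
    (hf : InW fun p r => (((p : ℕ) : ℂ) ^ r - 1) * f p r) : InW f := by
  intro D
  obtain ⟨C0, hC0⟩ := hA
  obtain ⟨z, hz, C, hC⟩ := hf D
  refine ⟨_, WCL_sumZ (A + D) hz, ((A + D : ℕ) : ℝ) * C + C0, fun p r hr => ?_⟩
  have hx := WCL_q_ne p r
  have hq1 : (1 : ℝ) ≤ ((p : ℕ) : ℝ) ^ r :=
    one_le_pow₀ (by exact_mod_cast p.2.one_lt.le)
  have hq0 : (0 : ℝ) < ((p : ℕ) : ℝ) ^ r := lt_of_lt_of_le one_pos hq1
  have hnorm : ‖(((p : ℕ) : ℂ) ^ r)⁻¹‖ = (((p : ℕ) : ℝ) ^ r)⁻¹ := by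
    rw [norm_inv, norm_pow, Complex.norm_natCast]
  set q : ℝ := ((p : ℕ) : ℝ) ^ r with hq
  set x : ℂ := ((p : ℕ) : ℂ) ^ r with hxd
  have hinv1 : q⁻¹ ≤ 1 := inv_le_one_of_one_le₀ hq1
  have hinv0 : 0 ≤ q⁻¹ := inv_nonneg.mpr hq0.le
  have hid : f p r - ∑ k ∈ Finset.range (A + D), (x⁻¹) ^ (k + 1) * z p r =
      ∑ k ∈ Finset.range (A + D), (x⁻¹) ^ (k + 1) * ((x - 1) * f p r - z p r) +
        (x⁻¹) ^ (A + D) * f p r := by
    have h1 := WCL_geom x (f p r) hx (A + D)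
    have h2 : ∑ k ∈ Finset.range (A + D), (x⁻¹) ^ (k + 1) * ((x - 1) * f p r - z p r) =
        ∑ k ∈ Finset.range (A + D), (x⁻¹) ^ (k + 1) * ((x - 1) * f p r) -
          ∑ k ∈ Finset.range (A + D), (x⁻¹) ^ (k + 1) * z p r := by
      rw [← Finset.sum_sub_distrib]
      exact Finset.sum_congr rfl fun k _ => by ring
    rw [h2]
    linear_combination h1
  have hb1 : ‖∑ k ∈ Finset.range (A + D), (x⁻¹) ^ (k + 1) * ((x - 1) * f p r - z p r)‖ ≤
      ((A + D : ℕ) : ℝ) * ‖(x - 1) * f p r - z p r‖ := by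
    refine (norm_sum_le _ _).trans ?_
    calc ∑ k ∈ Finset.range (A + D), ‖(x⁻¹) ^ (k + 1) * ((x - 1) * f p r - z p r)‖
        ≤ ∑ _k ∈ Finset.range (A + D), ‖(x - 1) * f p r - z p r‖ := by
          refine Finset.sum_le_sum fun k _ => ?_
          rw [norm_mul, norm_pow, hnorm]
          exact mul_le_of_le_one_left (norm_nonneg _) (pow_le_one₀ hinv0 hinv1)
      _ = ((A + D : ℕ) : ℝ) * ‖(x - 1) * f p r - z p r‖ := by
          rw [Finset.sum_const, Finset.card_range, nsmul_eq_mul]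
  have hb2 : ‖(x⁻¹) ^ (A + D) * f p r‖ * q ^ D ≤ C0 := by
    rw [norm_mul, norm_pow, hnorm]
    have h3 := hC0 p r hr
    have h4 : (q⁻¹) ^ (A + D) * q ^ A * q ^ D = 1 := by
      rw [inv_pow, mul_assoc, ← pow_add]
      exact inv_mul_cancel₀ (pow_ne_zero _ hq0.ne')
    have h5 : 0 ≤ (q⁻¹) ^ (A + D) * q ^ D := by positivity
    calc (q⁻¹) ^ (A + D) * ‖f p r‖ * q ^ D = ((q⁻¹) ^ (A + D) * q ^ D) * ‖f p r‖ := by ring
      _ ≤ ((q⁻¹) ^ (A + D) * q ^ D) * (C0 * q ^ A) := mul_le_mul_of_nonneg_left h3 h5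
      _ = C0 * ((q⁻¹) ^ (A + D) * q ^ A * q ^ D) := by ring
      _ = C0 := by rw [h4, mul_one]
  have hqD : 0 ≤ q ^ D := by positivity
  calc ‖f p r - ∑ k ∈ Finset.range (A + D), (x⁻¹) ^ (k + 1) * z p r‖ * q ^ D
      ≤ (((A + D : ℕ) : ℝ) * ‖(x - 1) * f p r - z p r‖ + ‖(x⁻¹) ^ (A + D) * f p r‖) * q ^ D := by
        rw [hid]
        exact mul_le_mul_of_nonneg_right ((norm_add_le _ _).trans (add_le_add hb1 le_rfl)) hqD
    _ = ((A + D : ℕ) : ℝ) * (‖(x - 1) * f p r - z p r‖ * q ^ D) +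
        ‖(x⁻¹) ^ (A + D) * f p r‖ * q ^ D := by ring
    _ ≤ ((A + D : ℕ) : ℝ) * C + C0 :=
        add_le_add (mul_le_mul_of_nonneg_left (hC p r hr) (Nat.cast_nonneg _)) hb2

end Pool.Agent.GPM
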