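import Pool.Agent.GPM.FinA
import Pool.Agent.GPM.FinC
import Pool.Agent.HGM.Spec

/-! Module ZCL: the class InZ -/

set_option autoImplicit false

open scoped BigOperators

namespace Pool.Agent.GPM

open Pool.Agent.HGC Pool.Agent.HGM

private theorem ZCL_card (p : Nat.Primes) (r : ℕ) (hr : 1 ≤ r) [Fact (p : ℕ).Prime] :
    (Nat.card (GaloisField (p : ℕ) r) : ℂ) = ((p : ℕ) : ℂ) ^ r := by
  rw [GaloisField.card (p : ℕ) r (by omega)]
  push_cast
  rfl

/-- transfer an identity between counts to an identity between the functions of prime powers -/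
private theorem ZCL_lift {n m n' m' : ℕ} (P : Fin m → MvPolynomial (Fin n) ℤ)
    (Q : Fin m' → MvPolynomial (Fin n') ℤ) (k : ℕ)
    (h : ∀ (K : Type) [Field K] [Finite K], affCount Q K = Nat.card K ^ k * affCount P K)
    (p : Nat.Primes) (r : ℕ) (hr : 1 ≤ r) :
    countPF (affCount Q) p r = (((p : ℕ) : ℂ) ^ r) ^ k * countPF (affCount P) p r := by
  have : Fact (p : ℕ).Prime := ⟨p.2⟩
  rw [countPF_eq, countPF_eq, h (GaloisField (p : ℕ) r)]
  push_cast
  rw [ZCL_card p r hr]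

private theorem ZCL_lines {n m : ℕ} (P : Fin m → MvPolynomial (Fin n) ℤ) (k : ℕ) :
    ∃ (N M : ℕ) (Q : Fin M → MvPolynomial (Fin N) ℤ), ∀ (K : Type) [Field K] [Finite K],
      affCount Q K = Nat.card K ^ k * affCount P K := by
  induction k with
  | zero => exact ⟨n, m, P, fun K _ _ => by simp⟩
  | succ k ih =>
    obtain ⟨N, M, Q, hQ⟩ := ih
    obtain ⟨N', M', Q', hQ'⟩ := aff_line Q
    refine ⟨N', M', Q', fun K _ _ => ?_⟩
    rw [hQ' K, hQ K, pow_succ]
    ring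

theorem InZ.congr {f g : PF} (h : ∀ p r, 1 ≤ r → f p r = g p r) (hf : InZ f) : InZ g := by
  obtain ⟨K, n, m, P, R, hP⟩ := hf
  refine ⟨K, n, m, P, R, fun p r hr => ?_⟩
  rw [← h p r hr]
  exact hP p r hr

theorem InZ.aff {n m : ℕ} (P : Fin m → MvPolynomial (Fin n) ℤ) : InZ (countPF (affCount P)) :=
  ⟨0, n, m, P, 0, fun p r _ => by simp⟩

/-- PROOF: the empty scheme (`n = 0`, the equation `1`). -/
theorem InZ.poly (R : Polynomial ℤ) :
    InZ fun p r => ((R.eval (((p : ℕ) : ℤ) ^ r) : ℤ) : ℂ) := by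
  refine ⟨0, 0, 1, fun _ => 1, R, fun p r _ => ?_⟩
  have : Fact (p : ℕ).Prime := ⟨p.2⟩
  have h0 : affCount (fun _ : Fin 1 => (1 : MvPolynomial (Fin 0) ℤ)) (GaloisField (p : ℕ) r) = 0 := by
    unfold affCount
    have : IsEmpty {x : Fin 0 → GaloisField (p : ℕ) r //
        ∀ _i : Fin 1, MvPolynomial.aeval x (1 : MvPolynomial (Fin 0) ℤ) = 0} :=
      ⟨fun x => one_ne_zero (α := GaloisField (p : ℕ) r) (by simpa using x.2 0)⟩
    exact Nat.card_of_isEmpty
  rw [countPF_eq, h0]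
  simp

theorem InZ.divq {f : PF} (hf : InZ fun p r => ((p : ℕ) : ℂ) ^ r * f p r) : InZ f := by
  obtain ⟨K, n, m, P, R, hP⟩ := hf
  refine ⟨K + 1, n, m, P, R, fun p r hr => ?_⟩
  rw [← hP p r hr, pow_succ]
  ring

/-- PROOF: `aff_line`. -/
theorem InZ.mulq {f : PF} (hf : InZ f) : InZ fun p r => ((p : ℕ) : ℂ) ^ r * f p r := by
  obtain ⟨K, n, m, P, R, hP⟩ := hf
  obtain ⟨N, M, Q, hQ⟩ := ZCL_lines P 1
  refine ⟨K, N, M, Q, Polynomial.X * R, fun p r hr => ?_⟩
  rw [ZCL_lift P Q 1 hQ p r hr, Polynomial.eval_mul, Polynomial.eval_X]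
  push_cast
  linear_combination ((p : ℕ) : ℂ) ^ r * hP p r hr

/-- PROOF: make the two exponents `K` equal (multiply by powers of `q`: `aff_line`), then `aff_disj`. -/
theorem InZ.add {f g : PF} (hf : InZ f) (hg : InZ g) : InZ fun p r => f p r + g p r := by
  obtain ⟨K, n, m, P, R, hP⟩ := hf
  obtain ⟨K', n', m', P', R', hP'⟩ := hg
  obtain ⟨N, M, Q, hQ⟩ := ZCL_lines P K'
  obtain ⟨N', M', Q', hQ'⟩ := ZCL_lines P' K
  obtain ⟨N'', M'', Q'', hQ''⟩ := aff_disj Q Q'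
  refine ⟨K + K', N'', M'', Q'', Polynomial.X ^ K' * R + Polynomial.X ^ K * R', fun p r hr => ?_⟩
  have : Fact (p : ℕ).Prime := ⟨p.2⟩
  have h1 : countPF (affCount Q'') p r = countPF (affCount Q) p r + countPF (affCount Q') p r := by
    rw [countPF_eq, countPF_eq, countPF_eq, hQ'' (GaloisField (p : ℕ) r)]
    push_cast
    rfl
  rw [h1, ZCL_lift P Q K' hQ p r hr, ZCL_lift P' Q' K hQ' p r hr]
  simp only [Polynomial.eval_add, Polynomial.eval_mul, Polynomial.eval_pow, Polynomial.eval_X]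
  push_cast
  linear_combination (((p : ℕ) : ℂ) ^ r) ^ K' * hP p r hr + (((p : ℕ) : ℂ) ^ r) ^ K * hP' p r hr

/-- PROOF: `aff_cayley`: `- q ^ m * aff P = q * aff Q - q ^ (m + n)`, so with `K + m` in place of `K`:
`q ^ (K + m) (-f) = - q ^ m aff P - q ^ m R = q aff Q - q ^ (m + n) - q ^ m R` and `q aff Q = aff Q'`
(`aff_line`). -/
theorem InZ.neg {f : PF} (hf : InZ f) : InZ fun p r => -f p r := by
  obtain ⟨K, n, m, P, R, hP⟩ := hf
  obtain ⟨N, M, Q, hQ⟩ := aff_cayley P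
  obtain ⟨N', M', Q', hQ'⟩ := ZCL_lines Q 1
  refine ⟨K + m, N', M', Q', -(Polynomial.X ^ (m + n)) - Polynomial.X ^ m * R, fun p r hr => ?_⟩
  have : Fact (p : ℕ).Prime := ⟨p.2⟩
  have h1 : ((p : ℕ) : ℂ) ^ r * countPF (affCount Q) p r +
      (((p : ℕ) : ℂ) ^ r) ^ m * countPF (affCount P) p r = (((p : ℕ) : ℂ) ^ r) ^ (m + n) := by
    have := hQ (GaloisField (p : ℕ) r)
    have h2 : ((Nat.card (GaloisField (p : ℕ) r) * affCount Q (GaloisField (p : ℕ) r) +
        Nat.card (GaloisField (p : ℕ) r) ^ m * affCount P (GaloisField (p : ℕ) r) : ℕ) : ℂ) =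
        ((Nat.card (GaloisField (p : ℕ) r) ^ (m + n) : ℕ) : ℂ) := by rw [this]
    push_cast at h2
    rw [ZCL_card p r hr] at h2
    rw [countPF_eq, countPF_eq]
    exact h2
  rw [ZCL_lift Q Q' 1 hQ' p r hr]
  simp only [Polynomial.eval_sub, Polynomial.eval_neg, Polynomial.eval_mul, Polynomial.eval_pow,
    Polynomial.eval_X]
  push_cast
  linear_combination -(((p : ℕ) : ℂ) ^ r) ^ m * hP p r hr - h1

end Pool.Agent.GPM
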